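import Pool.Agent.K7.H50.MZ.Wt
import Pool.Agent.H306R2.Contour

set_option autoImplicit false

/-! Contour shift for Gaussian windows cut off doubly exponentially at the ends of the window. -/

namespace Pool.Agent.K7.H50.LL

open MeasureTheory Filter Topology Finset
open Pool.Agent.H306R2 hiding wt
open Pool.Agent.K7.H50.MZ

noncomputable section

/-- the weight -/
def gv (ρ B τ H t : ℝ) : ℝ := gw τ H t * om 1 (τ - ρ) (τ + ρ) B t

lemma gv_nonneg (ρ B τ H t : ℝ) (hH : 0 < H) : 0 ≤ gv ρ B τ H t :=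
  mul_nonneg (gw_nonneg _ _ _ hH) (om_pos _ _ _ _ _).le

lemma gv_le (ρ B τ H t : ℝ) (hH : 0 < H) : gv ρ B τ H t ≤ gw τ H t :=
  mul_le_of_le_one_right (gw_nonneg _ _ _ hH) (om_le_one zero_le_one _ _ _ _)

lemma gv_continuous (ρ B τ H : ℝ) : Continuous (gv ρ B τ H) :=
  (gw_continuous τ H).mul (om_cont _ _ _ _)

lemma gv_cont2 (ρ B H : ℝ) : Continuous (Function.uncurry fun τ t => gv ρ B τ H t) := by
  unfold gv gw om Function.uncurry
  fun_prop

lemma gv_shift (ρ B τ H t a : ℝ) : gv ρ B (a + τ) H (a + t) = gv ρ B τ H t := by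
  unfold gv gw om
  rw [show a + t - (a + τ) = t - τ by ring, show a + τ - ρ - (a + t) = τ - ρ - t by ring,
    show a + t - (a + τ + ρ) = t - (τ + ρ) by ring]

lemma wt_half (a b B t : ℝ) : wt a b B (1 / 2 + t * Complex.I) = (om 1 a b B t : ℂ) := by
  unfold wt om
  rw [Complex.ofReal_exp]
  congr 1
  push_cast
  rw [one_mul]
  have hI : Complex.I * Complex.I = -1 := Complex.I_mul_I
  have e1 : ((a : ℂ) + Complex.I * (1 / 2 + t * Complex.I - 1 / 2)) / B = (a - t) / B := by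
    have : (a : ℂ) + Complex.I * (1 / 2 + t * Complex.I - 1 / 2) = a - t := by
      linear_combination (t : ℂ) * hI
    rw [this]
  have e2 : (-Complex.I * (1 / 2 + t * Complex.I - 1 / 2) - (b : ℂ)) / B = (t - b) / B := by
    have : -Complex.I * (1 / 2 + t * Complex.I - 1 / 2) - (b : ℂ) = t - b := by
      linear_combination (-(t : ℂ)) * hI
    rw [this]
  rw [e1, e2]

lemma cos_le_B {x B : ℝ} (hB : 0 < B) (h0 : 1 / 2 ≤ x) (h1 : x ≤ 1 / 2 + B) :
    1 / 2 ≤ Real.cos ((x - 1 / 2) / B) := by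
  refine cos_half ?_
  rw [abs_of_nonneg (div_nonneg (by linarith) hB.le), div_le_one hB]
  linarith

lemma wt_edge {x B τ ρ R t : ℝ} (hB : 0 < B) (h0 : 1 / 2 ≤ x) (h1 : x ≤ 1 / 2 + B) (ht : |t - τ| = R) :
    ‖wt (τ - ρ) (τ + ρ) B ((x : ℂ) + t * Complex.I)‖ ≤ Real.exp (-(Real.exp ((R - ρ) / B) / 2)) := by
  rw [wt_norm]
  have hc := cos_le_B hB h0 h1
  unfold om
  refine Real.exp_le_exp.mpr (neg_le_neg ?_)
  have e1 := Real.exp_pos ((τ - ρ - t) / B)
  have e2 := Real.exp_pos ((t - (τ + ρ)) / B)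
  have h2 : Real.exp ((R - ρ) / B) ≤ Real.exp ((τ - ρ - t) / B) + Real.exp ((t - (τ + ρ)) / B) := by
    rcases abs_cases (t - τ) with ⟨h, _⟩ | ⟨h, _⟩
    · have : (R - ρ) / B = (t - (τ + ρ)) / B := by
        rw [← ht, h]; ring
      rw [this]; linarith
    · have : (R - ρ) / B = (τ - ρ - t) / B := by
        rw [← ht, h]; ring
      rw [this]; linarith
  have h3 : Real.exp ((R - ρ) / B) / 2 ≤ 1 / 2 * (Real.exp ((τ - ρ - t) / B) + Real.exp ((t - (τ + ρ)) / B)) := by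
    linarith
  exact h3.trans (mul_le_mul_of_nonneg_right hc (by linarith))

lemma wt_sub_one {x B τ ρ t : ℝ} (hB : 0 < B) (h0 : 1 / 2 ≤ x) (h1 : x ≤ 1 / 2 + B) :
    ‖wt (τ - ρ) (τ + ρ) B ((x : ℂ) + t * Complex.I) - 1‖ ≤ 2 := by
  have hn : ‖wt (τ - ρ) (τ + ρ) B ((x : ℂ) + t * Complex.I)‖ ≤ 1 := by
    rw [wt_norm]
    exact om_le_one (by linarith [cos_le_B hB h0 h1]) _ _ _ _
  have := norm_sub_le (wt (τ - ρ) (τ + ρ) B ((x : ℂ) + t * Complex.I)) 1
  rw [norm_one] at this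
  linarith

lemma wt_sub_in {x B τ ρ t : ℝ} (hB : 0 < B) (h0 : 1 / 2 ≤ x) (h1 : x ≤ 1 / 2 + B) (ht : |t - τ| ≤ ρ / 2) :
    ‖wt (τ - ρ) (τ + ρ) B ((x : ℂ) + t * Complex.I) - 1‖ ≤ 4 * Real.exp (-(ρ / (2 * B))) := by
  set E := Real.exp (-(ρ / (2 * B))) with hE
  have hab := abs_le.mp ht
  have hz : ‖-(Complex.exp ((((τ - ρ : ℝ) : ℂ) + Complex.I * ((x : ℂ) + t * Complex.I - 1 / 2)) / B) +
      Complex.exp ((-Complex.I * ((x : ℂ) + t * Complex.I - 1 / 2) - ((τ + ρ : ℝ) : ℂ)) / B))‖ ≤ 2 * E := by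
    rw [norm_neg]
    refine (norm_add_le _ _).trans ?_
    have hI : Complex.I * Complex.I = -1 := Complex.I_mul_I
    have g1 : ‖Complex.exp ((((τ - ρ : ℝ) : ℂ) + Complex.I * ((x : ℂ) + t * Complex.I - 1 / 2)) / B)‖ ≤ E := by
      rw [Complex.norm_exp]
      have e1 : (((τ - ρ : ℝ) : ℂ) + Complex.I * ((x : ℂ) + t * Complex.I - 1 / 2)) / B =
          (((τ - ρ - t) / B : ℝ) : ℂ) + (((x - 1 / 2) / B : ℝ) : ℂ) * Complex.I := by
        push_cast
        linear_combination (t / B : ℂ) * hI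
      rw [e1]
      have e2 : ((((τ - ρ - t) / B : ℝ) : ℂ) + (((x - 1 / 2) / B : ℝ) : ℂ) * Complex.I).re = (τ - ρ - t) / B := by
        simp only [Complex.add_re, Complex.ofReal_re, Complex.re_ofReal_mul, Complex.I_re, mul_zero, add_zero]
      rw [e2, hE]
      refine Real.exp_le_exp.mpr ?_
      rw [← neg_div, div_le_div_iff₀ hB (by positivity)]
      nlinarith [hab.1]
    have g2 : ‖Complex.exp ((-Complex.I * ((x : ℂ) + t * Complex.I - 1 / 2) - ((τ + ρ : ℝ) : ℂ)) / B)‖ ≤ E := by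
      rw [Complex.norm_exp]
      have e1 : (-Complex.I * ((x : ℂ) + t * Complex.I - 1 / 2) - ((τ + ρ : ℝ) : ℂ)) / B =
          (((t - (τ + ρ)) / B : ℝ) : ℂ) + ((-((x - 1 / 2) / B) : ℝ) : ℂ) * Complex.I := by
        push_cast
        linear_combination (-(t / B) : ℂ) * hI
      rw [e1]
      have e2 : ((((t - (τ + ρ)) / B : ℝ) : ℂ) + ((-((x - 1 / 2) / B) : ℝ) : ℂ) * Complex.I).re = (t - (τ + ρ)) / B := by
        simp only [Complex.add_re, Complex.ofReal_re, Complex.re_ofReal_mul, Complex.I_re, mul_zero, add_zero]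
      rw [e2, hE]
      refine Real.exp_le_exp.mpr ?_
      rw [← neg_div, div_le_div_iff₀ hB (by positivity)]
      nlinarith [hab.2]
    linarith
  rcases le_or_gt (2 * E) 1 with h | h
  · have h2 := Complex.norm_exp_sub_one_le (hz.trans h)
    unfold wt
    refine h2.trans ?_
    linarith
  · refine (wt_sub_one hB h0 h1).trans ?_
    linarith

/-- horizontal segment bound -/
lemma horizW (Φ : ℂ → ℂ) (Bc : ℝ) (hBc : 0 ≤ Bc) (N : ℕ)
    (hb : ∀ s : ℂ, 1 / 2 ≤ s.re → 1 ≤ |s.im| → ‖Φ s‖ ≤ Bc * (‖s‖ + 1) ^ N)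
    (g : ℕ → ℝ) (Y τ H : ℝ) (hY : 1 ≤ Y) (hH : 1 ≤ H) (c : ℕ)
    (hg : ∀ n, |g n| ≤ (n : ℝ) ^ c) (y R M B ρ : ℝ) (hcB : (c:ℝ) + 2 ≤ B) (hy : |y - τ| = R) (hy1 : 1 ≤ |y|)
    (hM : (c:ℝ) + 5 / 2 + |y| + 1 ≤ M) :
    ‖∫ x : ℝ in (1/2 : ℝ)..(1 / 2 + ((c:ℝ) + 2)),
      Φ (x + y * Complex.I) * Gp g Y (x + y * Complex.I) * (Wa τ H (x + y * Complex.I) *
        wt (τ - ρ) (τ + ρ) B (x + y * Complex.I))‖ ≤
      ((c:ℝ) + 2) * (Bc * M ^ N * Y ^ (2 * c + 3) *
        (Real.exp (((c:ℝ) + 2) ^ 2 / H ^ 2) * Real.exp (-(Real.exp ((R - ρ) / B) / 2)))) := by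
  have hH0 : 0 < H := by linarith
  have hc0 : (0:ℝ) ≤ c := Nat.cast_nonneg c
  have hB0 : 0 < B := by linarith
  have h := intervalIntegral.norm_integral_le_of_norm_le_const (a := (1/2 : ℝ))
    (b := 1 / 2 + ((c:ℝ) + 2))
    (f := fun x : ℝ => Φ (x + y * Complex.I) * Gp g Y (x + y * Complex.I) * (Wa τ H (x + y * Complex.I) *
        wt (τ - ρ) (τ + ρ) B (x + y * Complex.I)))
    (C := Bc * M ^ N * Y ^ (2 * c + 3) *
        (Real.exp (((c:ℝ) + 2) ^ 2 / H ^ 2) * Real.exp (-(Real.exp ((R - ρ) / B) / 2)))) ?_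
  · refine h.trans (le_of_eq ?_)
    have : |1 / 2 + ((c:ℝ) + 2) - 1 / 2| = (c:ℝ) + 2 := by
      rw [show 1 / 2 + ((c:ℝ) + 2) - 1 / 2 = (c:ℝ) + 2 by ring]
      exact abs_of_nonneg (by positivity)
    rw [this]; ring
  · intro x hx
    rw [Set.uIoc_of_le (by linarith [(Nat.cast_nonneg c : (0:ℝ) ≤ c)])] at hx
    have hx1 : 1 / 2 < x := hx.1
    have hx2 : x ≤ 1 / 2 + ((c:ℝ) + 2) := hx.2
    have hre : ((x:ℂ) + y * Complex.I).re = x := by simp
    have him : ((x:ℂ) + y * Complex.I).im = y := by simp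
    have h1 : ‖Φ (x + y * Complex.I)‖ ≤ Bc * M ^ N := by
      refine (hb _ (by rw [hre]; linarith) (by rw [him]; exact hy1)).trans ?_
      have h2 : ‖(x:ℂ) + y * Complex.I‖ ≤ |x| + |y| := by
        refine (norm_add_le _ _).trans ?_
        simp
      rw [abs_of_pos (by linarith : 0 < x)] at h2
      have h3 : ‖(x:ℂ) + y * Complex.I‖ + 1 ≤ M := by linarith
      gcongr
    have h2 : ‖Gp g Y (x + y * Complex.I)‖ ≤ Y ^ (2 * c + 3) := by
      have := norm_Gp_le g Y hY c hg (x + y * Complex.I) (c + 2) (by rw [hre]; push_cast; linarith)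
      rwa [show c + (c + 2) + 1 = 2 * c + 3 by ring] at this
    have h3 : ‖Wa τ H (x + y * Complex.I)‖ ≤ Real.exp (((c:ℝ) + 2) ^ 2 / H ^ 2) := by
      have e1 : (x:ℂ) + y * Complex.I = (((1 / 2 + (x - 1/2) : ℝ) : ℂ) + y * Complex.I) := by
        congr 2; ring
      rw [e1, norm_Wa τ H hH0]
      unfold gw
      have h5 : Real.exp (-((y - τ) ^ 2 / H ^ 2)) / (H * Real.sqrt Real.pi) ≤ 1 := by
        have h7 : Real.exp (-((y - τ) ^ 2 / H ^ 2)) ≤ 1 := by
          rw [Real.exp_le_one_iff]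
          have : 0 ≤ (y - τ) ^ 2 / H ^ 2 := by positivity
          linarith
        have : (1:ℝ) ≤ Real.sqrt Real.pi := by
          rw [Real.one_le_sqrt]
          linarith [Real.pi_gt_three]
        rw [div_le_one (by positivity)]
        nlinarith
      have h6 : Real.exp ((x - 1 / 2) ^ 2 / H ^ 2) ≤ Real.exp (((c:ℝ) + 2) ^ 2 / H ^ 2) := by
        apply Real.exp_le_exp.mpr
        have : 0 ≤ x - 1/2 := by linarith
        have : x - 1/2 ≤ (c:ℝ) + 2 := by linarith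
        gcongr
      calc Real.exp ((x - 1 / 2) ^ 2 / H ^ 2) * (Real.exp (-((y - τ) ^ 2 / H ^ 2)) / (H * Real.sqrt Real.pi)) ≤
          Real.exp (((c:ℝ) + 2) ^ 2 / H ^ 2) * 1 := by
            refine mul_le_mul h6 h5 (by positivity) (Real.exp_pos _).le
        _ = _ := mul_one _
    have h4 := wt_edge (x := x) (ρ := ρ) hB0 (by linarith) (by linarith) hy
    rw [norm_mul, norm_mul, norm_mul]
    have hM0 : 0 ≤ M := by
      have := abs_nonneg y
      linarith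
    have hY0 : 0 ≤ Y := by linarith
    gcongr

/-- Contour shift for a window. -/
theorem contourW (Φ : ℂ → ℂ) (Bc : ℝ) (hBc : 0 ≤ Bc) (N : ℕ)
    (hd : ∀ s : ℂ, 0 < s.re → s ≠ 1 → DifferentiableAt ℂ Φ s)
    (hb : ∀ s : ℂ, 1 / 2 ≤ s.re → 1 ≤ |s.im| → ‖Φ s‖ ≤ Bc * (‖s‖ + 1) ^ N)
    (f g : ℕ → ℝ) (Y τ H R M B ρ : ℝ) (hY : 1 ≤ Y) (hH : 1 ≤ H) (c : ℕ) (hf0 : f 0 = 0)
    (hf : ∀ n, |f n| ≤ (n : ℝ) ^ c) (hg : ∀ n, |g n| ≤ (n : ℝ) ^ c)
    (hK : 16 * (2 * c + 3) * Y ≤ H ^ 2)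
    (hser : ∀ y : ℝ, HasSum (fun n : ℕ => (f n : ℂ) *
        (n : ℂ) ^ (-(((1 / 2 + ((c:ℝ) + 2) : ℝ) : ℂ) + y * Complex.I)))
        (Φ (((1 / 2 + ((c:ℝ) + 2) : ℝ) : ℂ) + y * Complex.I)))
    (hcB : (c:ℝ) + 2 ≤ B) (hρ : 0 ≤ ρ)
    (hR : 0 ≤ R) (hτ : 1 ≤ τ - R) (hM : (c:ℝ) + 5 / 2 + (τ + R) + 1 ≤ M) :
    ‖(∫ t in (τ - R)..(τ + R), Φ (1 / 2 + t * Complex.I) *
        (starRingEnd ℂ) (Dp g Y (1 / 2 + t * Complex.I)) * (gv ρ B τ H t : ℂ)) -
      ((∑ m ∈ Icc 1 ⌊Y⌋₊, f m * g m / m : ℝ) : ℂ)‖ ≤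
      Z2 * (Y ^ (3 * c + 4) * Real.exp (-(H ^ 2 / (32 * Y ^ 2)))) +
      Z2 * (Y ^ (2 * c + 3) * Real.exp (((c:ℝ) + 2) ^ 2 / H ^ 2)) *
        (2 * Real.exp (-(R ^ 2 / (2 * H ^ 2)))) +
      Z2 * (Y ^ (2 * c + 3) * Real.exp (((c:ℝ) + 2) ^ 2 / H ^ 2)) *
        (4 * Real.exp (-(ρ / (2 * B))) + 4 * Real.exp (-((ρ / 2) ^ 2 / (2 * H ^ 2)))) +
      2 * (((c:ℝ) + 2) * (Bc * M ^ N * Y ^ (2 * c + 3) *
        (Real.exp (((c:ℝ) + 2) ^ 2 / H ^ 2) * Real.exp (-(Real.exp ((R - ρ) / B) / 2))))) := by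
  have hH0 : 0 < H := by linarith
  set Ψ : ℂ → ℂ := fun s => Φ s * Gp g Y s * (Wa τ H s * wt (τ - ρ) (τ + ρ) B s) with hΨ
  set σ : ℝ := 1 / 2 + ((c:ℝ) + 2) with hσ
  have hc0 : (0:ℝ) ≤ c := Nat.cast_nonneg c
  have hB0 : 0 < B := by linarith
  -- rectangle
  have hrect := Complex.integral_boundary_rect_eq_zero_of_differentiableOn Ψ
    ⟨1/2, τ - R⟩ ⟨σ, τ + R⟩ ?_
  swap
  · intro s hs
    simp only at hs
    rw [Complex.mem_reProdIm] at hs
    obtain ⟨h1, h2⟩ := hs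
    rw [Set.uIcc_of_le (by rw [hσ]; linarith)] at h1
    rw [Set.uIcc_of_le (by linarith)] at h2
    have hs1 : s ≠ 1 := by
      rintro rfl
      simp at h2
      linarith [h2.1]
    have hd1 := hd s (by linarith [h1.1]) hs1
    exact ((hd1.mul (Gp_differentiable g Y s)).mul
      ((Wa_differentiable τ H s).mul (wt_diff _ _ _ s))).differentiableWithinAt
  simp only at hrect
  -- left line
  have hleft : (∫ y in (τ - R)..(τ + R), Ψ (((1/2 : ℝ) : ℂ) + y * Complex.I)) =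
      ∫ t in (τ - R)..(τ + R), Φ (1 / 2 + t * Complex.I) *
        (starRingEnd ℂ) (Dp g Y (1 / 2 + t * Complex.I)) * (gv ρ B τ H t : ℂ) := by
    refine intervalIntegral.integral_congr fun t _ => ?_
    simp only [hΨ]
    have e : (((1/2 : ℝ) : ℂ) + (t:ℂ) * Complex.I) = 1 / 2 + (t:ℂ) * Complex.I := by
      push_cast; rfl
    rw [e, Wa_half, Gp_half, wt_half]
    unfold gv
    push_cast
    rfl
  set G : ℝ → ℂ := fun y => ∑' n, Fr f g Y τ H ((c:ℝ) + 2) n y with hG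
  set wv : ℝ → ℂ := fun y => wt (τ - ρ) (τ + ρ) B ((σ : ℂ) + y * Complex.I) with hwv
  -- right line
  have hright : ∀ y : ℝ, Ψ ((σ : ℂ) + y * Complex.I) = G y + G y * (wv y - 1) := by
    intro y
    have h1 := (hser y).mul_right (Gp g Y (((1 / 2 + ((c:ℝ) + 2) : ℝ) : ℂ) + y * Complex.I) *
      Wa τ H (((1 / 2 + ((c:ℝ) + 2) : ℝ) : ℂ) + y * Complex.I))
    have h2 := h1.tsum_eq
    have h3 : G y = Φ ((σ : ℂ) + y * Complex.I) * (Gp g Y ((σ : ℂ) + y * Complex.I) * Wa τ H ((σ : ℂ) + y * Complex.I)) := by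
      rw [hG, hσ, ← h2]
      refine tsum_congr fun n => ?_
      simp only [Fr]
      ring
    rw [h3]
    simp only [hΨ, hwv]
    ring
  have hGnorm : ∀ y : ℝ, ‖G y‖ ≤
      Z2 * (Y ^ (2 * c + 3) * Real.exp (((c:ℝ) + 2) ^ 2 / H ^ 2)) * gw τ H y := by
    intro y
    have h1 : HasSum (fun n : ℕ => 1 / (n:ℝ) ^ 2 *
        (Y ^ (2 * c + 3) * Real.exp (((c:ℝ) + 2) ^ 2 / H ^ 2)) * gw τ H y)
        (Z2 * (Y ^ (2 * c + 3) * Real.exp (((c:ℝ) + 2) ^ 2 / H ^ 2)) * gw τ H y) :=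
      (Z2_summable.hasSum.mul_right _).mul_right _
    exact tsum_of_norm_bounded h1 fun n => Fr_norm' f g Y τ H hY hH0 c hf0 hf hg n y
  -- continuity / integrability of the right line function
  have hGcont : Continuous G := by
    refine continuous_tsum (u := fun n : ℕ => 1 / (n:ℝ) ^ 2 *
        (Y ^ (2 * c + 3) * Real.exp (((c:ℝ) + 2) ^ 2 / H ^ 2)) * (1 / (H * Real.sqrt Real.pi))) ?_ ?_ ?_
    · intro n
      rcases Nat.eq_zero_or_pos n with h | h
      · subst h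
        have : Fr f g Y τ H ((c:ℝ) + 2) 0 = fun _ => 0 := by
          ext y; exact Fr_zero f g Y τ H _ hf0 y
        rw [this]; exact continuous_const
      · exact Fr_continuous f g Y τ H _ n h
    · exact (Z2_summable.mul_right _).mul_right _
    · intro n y
      refine (Fr_norm' f g Y τ H hY hH0 c hf0 hf hg n y).trans ?_
      have : gw τ H y ≤ 1 / (H * Real.sqrt Real.pi) := by
        unfold gw
        have : Real.exp (-((y - τ) ^ 2 / H ^ 2)) ≤ 1 := by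
          rw [Real.exp_le_one_iff]
          have : 0 ≤ (y - τ) ^ 2 / H ^ 2 := by positivity
          linarith
        gcongr
      gcongr
  have hwc : Continuous wv := (wt_diff _ _ _).continuous.comp (by fun_prop)
  have hGint : Integrable G :=
    Integrable.mono' ((gw_integrable τ H hH0).const_mul _) hGcont.aestronglyMeasurable
      (Eventually.of_forall hGnorm)
  have hGwc : Continuous fun y => G y * (wv y - 1) := hGcont.mul (hwc.sub continuous_const)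
  set KK := Z2 * (Y ^ (2 * c + 3) * Real.exp (((c:ℝ) + 2) ^ 2 / H ^ 2)) with hKK
  have hZ := Z2_nonneg
  have hY0 : 0 ≤ Y := by linarith
  have hKK0 : 0 ≤ KK := by positivity
  have hright2 : (∫ y in (τ - R)..(τ + R), Ψ ((σ : ℂ) + y * Complex.I)) =
      (∫ y, G y) - (∫ y in (Set.Ioc (τ - R) (τ + R))ᶜ, G y) + ∫ y in (τ - R)..(τ + R), G y * (wv y - 1) := by
    have h1 : (∫ y in (τ - R)..(τ + R), Ψ ((σ : ℂ) + y * Complex.I)) =
        (∫ y in (τ - R)..(τ + R), G y) + ∫ y in (τ - R)..(τ + R), G y * (wv y - 1) := by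
      rw [← intervalIntegral.integral_add (hGcont.intervalIntegrable _ _) (hGwc.intervalIntegrable _ _)]
      exact intervalIntegral.integral_congr fun y _ => hright y
    rw [h1, intervalIntegral.integral_of_le (by linarith : τ - R ≤ τ + R) (f := G),
      ← integral_add_compl measurableSet_Ioc hGint]
    ring
  have htail : ‖∫ y in (Set.Ioc (τ - R) (τ + R))ᶜ, G y‖ ≤
      KK * (2 * Real.exp (-(R ^ 2 / (2 * H ^ 2)))) := by
    calc ‖∫ y in (Set.Ioc (τ - R) (τ + R))ᶜ, G y‖ ≤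
        ∫ y in (Set.Ioc (τ - R) (τ + R))ᶜ, KK * gw τ H y := by
          refine norm_integral_le_of_norm_le ((gw_integrable τ H hH0).const_mul _).integrableOn ?_
          exact Eventually.of_forall hGnorm
      _ = KK * ∫ y in (Set.Ioc (τ - R) (τ + R))ᶜ, gw τ H y := by rw [integral_const_mul]
      _ ≤ _ := by
          have := gw_tail τ H R hH0 hR
          gcongr
  have hdiff : ‖∫ y in (τ - R)..(τ + R), G y * (wv y - 1)‖ ≤
      KK * (4 * Real.exp (-(ρ / (2 * B))) + 4 * Real.exp (-((ρ / 2) ^ 2 / (2 * H ^ 2)))) := by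
    set S : Set ℝ := (Set.Ioc (τ - ρ / 2) (τ + ρ / 2))ᶜ with hS
    have hSm : MeasurableSet S := measurableSet_Ioc.compl
    set u : ℝ → ℝ := fun y => KK * gw τ H y * (4 * Real.exp (-(ρ / (2 * B)))) +
      S.indicator (fun y => KK * gw τ H y * 2) y with hu
    have hgi := gw_integrable τ H hH0
    have hui1 : Integrable fun y => KK * gw τ H y * (4 * Real.exp (-(ρ / (2 * B)))) := (hgi.const_mul _).mul_const _
    have hui2 : Integrable (S.indicator (fun y => KK * gw τ H y * 2)) := ((hgi.const_mul _).mul_const _).indicator hSm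
    have hui : Integrable u := hui1.add hui2
    have hu0 : ∀ y, 0 ≤ u y := by
      intro y
      have h1 := gw_nonneg τ H y hH0
      refine add_nonneg (by positivity) ?_
      exact Set.indicator_nonneg (fun z _ => by have := gw_nonneg τ H z hH0; positivity) y
    have hpt : ∀ y, ‖G y * (wv y - 1)‖ ≤ u y := by
      intro y
      rw [norm_mul]
      have h1 := gw_nonneg τ H y hH0
      by_cases hy : y ∈ S
      · have h2 : ‖wv y - 1‖ ≤ 2 := wt_sub_one hB0 (by rw [hσ]; linarith) (by rw [hσ]; linarith)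
        have h3 : ‖G y‖ * ‖wv y - 1‖ ≤ KK * gw τ H y * 2 :=
          mul_le_mul (hGnorm y) h2 (norm_nonneg _) (by positivity)
        simp only [hu, Set.indicator_of_mem hy]
        have h4 : 0 ≤ KK * gw τ H y * (4 * Real.exp (-(ρ / (2 * B)))) := by positivity
        linarith
      · have hy' : y ∈ Set.Ioc (τ - ρ / 2) (τ + ρ / 2) := by
          rw [hS, Set.mem_compl_iff, not_not] at hy
          exact hy
        have h2 : ‖wv y - 1‖ ≤ 4 * Real.exp (-(ρ / (2 * B))) := by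
          refine wt_sub_in hB0 (by rw [hσ]; linarith) (by rw [hσ]; linarith) ?_
          rw [abs_le]
          constructor <;> linarith [hy'.1, hy'.2]
        simp only [hu, Set.indicator_of_notMem hy, add_zero]
        exact mul_le_mul (hGnorm y) h2 (norm_nonneg _) (by positivity)
    rw [intervalIntegral.integral_of_le (by linarith : τ - R ≤ τ + R)]
    calc ‖∫ y in Set.Ioc (τ - R) (τ + R), G y * (wv y - 1)‖ ≤ ∫ y in Set.Ioc (τ - R) (τ + R), u y :=
          norm_integral_le_of_norm_le hui.integrableOn (Eventually.of_forall hpt)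
      _ ≤ ∫ y, u y := setIntegral_le_integral hui (Eventually.of_forall hu0)
      _ = KK * (4 * Real.exp (-(ρ / (2 * B)))) + KK * 2 * ∫ y in S, gw τ H y := by
          simp only [hu]
          rw [integral_add hui1 hui2, integral_mul_const, integral_const_mul, gw_integral τ H hH0,
            integral_indicator hSm, integral_mul_const, integral_const_mul]
          ring
      _ ≤ KK * (4 * Real.exp (-(ρ / (2 * B)))) + KK * 2 * (2 * Real.exp (-((ρ / 2) ^ 2 / (2 * H ^ 2)))) := by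
          have := gw_tail τ H (ρ / 2) hH0 (by linarith)
          gcongr
      _ = _ := by ring
  have hoff := right_line f g Y τ H hY hH0 c hf0 hf hg hK
  have hz1 := horizW Φ Bc hBc N hb g Y τ H hY hH c hg (τ - R) R M B ρ hcB
    (by rw [show τ - R - τ = -R by ring, abs_neg, abs_of_nonneg hR])
    (by rw [abs_of_nonneg (by linarith)]; exact hτ)
    (by rw [abs_of_nonneg (by linarith : 0 ≤ τ - R)]; linarith)
  have hz2 := horizW Φ Bc hBc N hb g Y τ H hY hH c hg (τ + R) R M B ρ hcB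
    (by rw [show τ + R - τ = R by ring, abs_of_nonneg hR])
    (by rw [abs_of_nonneg (by linarith)]; linarith)
    (by rw [abs_of_nonneg (by linarith : 0 ≤ τ + R)]; linarith)
  -- combine
  set hor1 := ∫ x : ℝ in (1/2 : ℝ)..σ, Ψ (x + ((τ - R : ℝ) : ℂ) * Complex.I) with hh1
  set hor2 := ∫ x : ℝ in (1/2 : ℝ)..σ, Ψ (x + ((τ + R : ℝ) : ℂ) * Complex.I) with hh2
  have hkey : (∫ y in (τ - R)..(τ + R), Ψ (((1/2 : ℝ) : ℂ) + y * Complex.I)) =
      (∫ y in (τ - R)..(τ + R), Ψ ((σ : ℂ) + y * Complex.I)) - Complex.I * (hor1 - hor2) := by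
    simp only [smul_eq_mul] at hrect
    have hI : Complex.I * Complex.I = -1 := Complex.I_mul_I
    linear_combination (Complex.I) * hrect + (-(∫ y in (τ - R)..(τ + R), Ψ ((σ : ℂ) + y * Complex.I)) +
      (∫ y in (τ - R)..(τ + R), Ψ (((1/2 : ℝ) : ℂ) + y * Complex.I))) * hI
  rw [← hleft, hkey, hright2]
  set T0 := (∫ y, G y)
  set T1 := ∫ y in (Set.Ioc (τ - R) (τ + R))ᶜ, G y
  set T2 := ∫ y in (τ - R)..(τ + R), G y * (wv y - 1)
  set DD := ((∑ m ∈ Icc 1 ⌊Y⌋₊, f m * g m / m : ℝ) : ℂ)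
  have e : T0 - T1 + T2 - Complex.I * (hor1 - hor2) - DD = (T0 - DD) - T1 + T2 - Complex.I * (hor1 - hor2) := by
    ring
  rw [e]
  have hz : ‖Complex.I * (hor1 - hor2)‖ ≤ 2 * (((c:ℝ) + 2) * (Bc * M ^ N * Y ^ (2 * c + 3) *
        (Real.exp (((c:ℝ) + 2) ^ 2 / H ^ 2) * Real.exp (-(Real.exp ((R - ρ) / B) / 2))))) := by
    rw [norm_mul, Complex.norm_I, one_mul, two_mul]
    exact (norm_sub_le _ _).trans (add_le_add hz1 hz2)
  calc ‖(T0 - DD) - T1 + T2 - Complex.I * (hor1 - hor2)‖ ≤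
      ‖(T0 - DD) - T1 + T2‖ + ‖Complex.I * (hor1 - hor2)‖ := norm_sub_le _ _
    _ ≤ ‖(T0 - DD) - T1‖ + ‖T2‖ + ‖Complex.I * (hor1 - hor2)‖ := by
        gcongr; exact norm_add_le _ _
    _ ≤ ‖T0 - DD‖ + ‖T1‖ + ‖T2‖ + ‖Complex.I * (hor1 - hor2)‖ := by
        gcongr; exact norm_sub_le _ _
    _ ≤ _ := by gcongr

end

end Pool.Agent.K7.H50.LL
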