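import Pool.Agent.K7.H50.LL.Cont
import Pool.Agent.H295R2.LK.R1
import Pool.Agent.H295R2.MK.R2

set_option autoImplicit false

/-! Mean values over windows centred at `τ ≤ exp (exp (c T))`. -/

namespace Pool.Agent.K7.H50.LL

open Finset Filter Topology MeasureTheory
open Pool.Agent.H306R2 hiding wt
open Pool.Agent.K7.H50.MZ
open Pool.Agent.H802R2.MK (dl PB_dl dl_ne main_dl Dp_dl pt)

noncomputable section

/-- the range of heights -/
def hmax (δ B T : ℝ) : ℝ := Real.exp (Real.exp (δ / (16 * B) * T))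

lemma edge_small (j : ℕ) {x κ : ℝ} (hx : 0 < x) (hκ : κ ≤ x) : ∀ᶠ T : ℝ in atTop,
    2 * (j:ℝ) * Real.exp (x * T) + κ * T ≤ Real.exp (4 * (x * T)) / 2 := by
  have h1 : Tendsto (fun T : ℝ => Real.exp (x * T)) atTop atTop :=
    Real.tendsto_exp_atTop.comp (tendsto_id.const_mul_atTop hx)
  filter_upwards [h1.eventually_ge_atTop (4 * (j:ℝ) + 4), eventually_ge_atTop 0] with T h hT
  set u := Real.exp (x * T) with hu
  have hu4 : Real.exp (4 * (x * T)) = u ^ 4 := by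
    rw [hu, ← Real.exp_nat_mul]; norm_num
  have hux : x * T ≤ u := by
    have := Real.add_one_le_exp (x * T)
    linarith
  have hκT : κ * T ≤ u := (mul_le_mul_of_nonneg_right hκ hT).trans hux
  have hj : (0:ℝ) ≤ j := Nat.cast_nonneg j
  have hu1 : 1 ≤ u := by linarith
  have hu3 : u ≤ u ^ 3 := by
    have : (1:ℝ) ≤ u ^ 2 := one_le_pow₀ hu1
    calc u = u * 1 := by ring
      _ ≤ u * u ^ 2 := by gcongr
      _ = u ^ 3 := by ring
  have h5 : (4 * (j:ℝ) + 4) * u ≤ u ^ 4 := by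
    calc (4 * (j:ℝ) + 4) * u ≤ u ^ 3 * u := mul_le_mul_of_nonneg_right (h.trans hu3) (by linarith)
      _ = u ^ 4 := by ring
  rw [hu4]
  nlinarith

/-- the core mean value theorem -/
theorem core_evL (P0 : ℕ) (j c0 : ℕ) (η δ B : ℝ) (hB : ((j + c0 + 1 : ℕ) : ℝ) + 2 ≤ B) (hη : 0 < η)
    (hη2 : η < 1 / 2) (hδ : 0 < δ) (hδ1 : δ ≤ 1) :
    ∀ᶠ T : ℝ in atTop, ∀ τ : ℝ, δ * T ≤ τ → τ ≤ hmax δ B T → ∀ A G : ArithmeticFunction ℝ,
      PB A c0 → (∀ n : ℕ, T < n → A n = 0) → PB G c0 →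
      ‖(∫ t in (τ - δ / 2 * T)..(τ + δ / 2 * T), (riemannZeta (1 / 2 + t * Complex.I) ^ j *
          Dp A T (1 / 2 + t * Complex.I)) *
        (starRingEnd ℂ) (Dp G (Yt η T) (1 / 2 + t * Complex.I)) * (gv (δ / 4 * T) B τ (Ht η T) t : ℂ)) -
      ((∑ m ∈ Icc 1 ⌊Yt η T⌋₊, (zR ^ j * A) m * G m / m : ℝ) : ℂ)‖ ≤ 1 / T ^ P0 := by
  set c : ℕ := j + c0 + 1 with hc
  have hc0 : (0:ℝ) ≤ c := Nat.cast_nonneg c
  have hB0 : 0 < B := by linarith
  set x : ℝ := δ / (16 * B) with hxd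
  have hx0 : 0 < x := by positivity
  set κ : ℝ := min (min (1 / 32) (δ ^ 2 / 128)) x with hκ
  have hκ0 : 0 < κ := lt_min (lt_min (by norm_num) (by positivity)) hx0
  have hκ1 : κ ≤ 1 / 32 := (min_le_left _ _).trans (min_le_left _ _)
  have hκ2 : κ ≤ δ ^ 2 / 128 := (min_le_left _ _).trans (min_le_right _ _)
  have hκ3 : κ ≤ x := min_le_right _ _
  set P : ℕ := (3 * c + 4) + (c0 + 1) + 2 * j + (2 * c + 3) with hP
  set K : ℝ := Z2 + Z2 * Real.exp (((c:ℝ) + 2) ^ 2) * 2 + Z2 * Real.exp (((c:ℝ) + 2) ^ 2) * 8 +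
    2 * (((c:ℝ) + 2) * (6 ^ j * ((c:ℝ) + 5) ^ (2 * j) * Real.exp (((c:ℝ) + 2) ^ 2))) with hK
  filter_upwards [small_ev (P + P0) κ η K hκ0 hη, eventually_ge_atTop 1, eventually_ge_atTop (2 / δ),
    eventually_ge_atTop (16 * (2 * (c:ℝ) + 3)), edge_small j hx0 hκ3]
    with T hsmall0 hT1 hT2 hT3 hT4 τ hτ1 hτ2 A G hA hAX hG
  have hT0 : 0 < T := by linarith
  have hsmall : K * (T ^ P * Real.exp (-(κ * T ^ (2 * η)))) ≤ 1 / T ^ P0 := by
    rw [le_div_iff₀ (by positivity)]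
    refine le_trans (le_of_eq ?_) hsmall0
    rw [pow_add]
    ring
  have hT2η : T ^ (2 * η) ≤ T := by
    calc T ^ (2 * η) ≤ T ^ (1:ℝ) := Real.rpow_le_rpow_of_exponent_le hT1 (by linarith)
      _ = T := Real.rpow_one T
  have hκT : κ * T ^ (2 * η) ≤ κ * T := mul_le_mul_of_nonneg_left hT2η hκ0.le
  have hY1 : 1 ≤ Yt η T := Real.one_le_rpow hT1 (by linarith)
  have hYT : Yt η T ≤ T := by
    unfold Yt
    calc T ^ (1 - 2 * η) ≤ T ^ (1:ℝ) := Real.rpow_le_rpow_of_exponent_le hT1 (by linarith)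
      _ = T := Real.rpow_one T
  have hH1 : 1 ≤ Ht η T := Real.one_le_rpow hT1 (by linarith)
  have hδT : 2 ≤ δ * T := by
    rw [div_le_iff₀ hδ] at hT2
    linarith
  have hf : PB (zR ^ j * A) c := by
    have h1 := (PB_zR.pow j).mul hA
    rw [show j * (0 + 1) + c0 + 1 = c by rw [hc]; ring] at h1
    exact h1
  have hg : PB G c := hG.mono (by omega)
  set U := Real.exp (x * T) with hU
  have hU1 : 1 ≤ U := Real.one_le_exp (by positivity)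
  have hhm : hmax δ B T = Real.exp U := rfl
  rw [hhm] at hτ2
  have hcont := contourW (fun s => riemannZeta s ^ j * Dp A T s) (6 ^ j * T ^ (c0 + 1)) (by positivity)
    (2 * j) ?_ ?_ (fun n => (zR ^ j * A) n) (fun n => G n) (Yt η T) τ (Ht η T) (δ / 2 * T)
    (((c:ℝ) + 5) * (T * Real.exp U)) B (δ / 4 * T) hY1 hH1 c (by simp) hf hg (HY_le η T _ hT0 hT3) ?_
    (by rw [hc]; exact hB) (by positivity) (by positivity) (by linarith) ?_
  rotate_left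
  · intro s hs hs1
    have := differentiableAt_riemannZeta hs1
    exact (this.pow j).mul (Dp_differentiable _ T s)
  · intro s hs him
    have h1 : (1:ℝ) / 2 ≤ ‖s - 1‖ := by
      have := Complex.abs_im_le_norm (s - 1)
      simp only [Complex.sub_im, Complex.one_im, sub_zero] at this
      linarith
    have h2 := zeta_norm_le hs h1
    have h3 := norm_Dp_le (fun n => A n) T hT1 c0 hA s (by linarith)
    rw [norm_mul, norm_pow]
    calc ‖riemannZeta s‖ ^ j * ‖Dp (fun n => A n) T s‖ ≤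
        (6 * (‖s‖ + 1) ^ 2) ^ j * T ^ (c0 + 1) := by gcongr
      _ = 6 ^ j * T ^ (c0 + 1) * (‖s‖ + 1) ^ (2 * j) := by
          rw [mul_pow, ← pow_mul]; ring
  · intro y
    have := zetaA_hasSum j A T hAX (((1 / 2 + ((c:ℝ) + 2) : ℝ) : ℂ) + y * Complex.I) (by
      simp; linarith)
    exact this
  · have e0 : 1 ≤ Real.exp U := Real.one_le_exp (by linarith)
    have e1 : Real.exp U ≤ T * Real.exp U := le_mul_of_one_le_left (by positivity) hT1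
    have e2 : T ≤ T * Real.exp U := le_mul_of_one_le_right hT0.le e0
    have e3 : δ / 2 * T ≤ 1 / 2 * (T * Real.exp U) := by
      have : δ / 2 * T ≤ 1 / 2 * T := by gcongr
      linarith
    nlinarith
  refine hcont.trans (le_trans ?_ hsmall)
  -- exponentials
  have hH2 : 0 < Ht η T ^ 2 := by positivity
  have h2η : (0:ℝ) < T ^ (2 * η) := Real.rpow_pos_of_pos hT0 _
  have hx1 : Real.exp (-(Ht η T ^ 2 / (32 * Yt η T ^ 2))) ≤ Real.exp (-(κ * T ^ (2 * η))) := by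
    apply Real.exp_le_exp.mpr
    rw [HY_sq η T hT0]
    nlinarith
  have eR : (δ / 2 * T) ^ 2 / Ht η T ^ 2 = (δ / 2) ^ 2 * T ^ (2 * η) := RH_sq η T (δ / 2) hT0
  have hx2 : Real.exp (-((δ / 2 * T) ^ 2 / (2 * Ht η T ^ 2))) ≤ Real.exp (-(κ * T ^ (2 * η))) := by
    apply Real.exp_le_exp.mpr
    rw [show (δ / 2 * T) ^ 2 / (2 * Ht η T ^ 2) = ((δ / 2 * T) ^ 2 / Ht η T ^ 2) / 2 by field_simp, eR]
    nlinarith
  have hx2' : Real.exp (-((δ / 4 * T / 2) ^ 2 / (2 * Ht η T ^ 2))) ≤ Real.exp (-(κ * T ^ (2 * η))) := by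
    apply Real.exp_le_exp.mpr
    rw [show (δ / 4 * T / 2) ^ 2 / (2 * Ht η T ^ 2) = ((δ / 2 * T) ^ 2 / Ht η T ^ 2) / 32 by field_simp; ring, eR]
    nlinarith
  have hx3 : Real.exp (-(δ / 4 * T / (2 * B))) ≤ Real.exp (-(κ * T ^ (2 * η))) := by
    apply Real.exp_le_exp.mpr
    have e1 : δ / 4 * T / (2 * B) = 2 * (x * T) := by
      rw [hxd]; field_simp; ring
    rw [e1]
    have := mul_le_mul_of_nonneg_right hκ3 hT0.le
    nlinarith
  have hx4 : Real.exp (((c:ℝ) + 2) ^ 2 / Ht η T ^ 2) ≤ Real.exp (((c:ℝ) + 2) ^ 2) := by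
    apply Real.exp_le_exp.mpr
    apply div_le_self (by positivity)
    exact one_le_pow₀ hH1
  have hZ := Z2_nonneg
  set E := Real.exp (-(κ * T ^ (2 * η))) with hE
  have hE0 : 0 < E := Real.exp_pos _
  have hYp : ∀ a : ℕ, a ≤ P → Yt η T ^ a ≤ T ^ P := fun a ha =>
    (pow_le_pow_left₀ (by linarith) hYT a).trans (pow_le_pow_right₀ hT1 ha)
  have t1 : Z2 * (Yt η T ^ (3 * c + 4) * Real.exp (-(Ht η T ^ 2 / (32 * Yt η T ^ 2)))) ≤
      Z2 * (T ^ P * E) := by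
    have := hYp (3 * c + 4) (by omega)
    gcongr
  have t2 : Z2 * (Yt η T ^ (2 * c + 3) * Real.exp (((c:ℝ) + 2) ^ 2 / Ht η T ^ 2)) *
        (2 * Real.exp (-((δ / 2 * T) ^ 2 / (2 * Ht η T ^ 2)))) ≤
      Z2 * Real.exp (((c:ℝ) + 2) ^ 2) * 2 * (T ^ P * E) := by
    have := hYp (2 * c + 3) (by omega)
    calc _ ≤ Z2 * (T ^ P * Real.exp (((c:ℝ) + 2) ^ 2)) * (2 * E) := by gcongr
      _ = _ := by ring
  have t2' : Z2 * (Yt η T ^ (2 * c + 3) * Real.exp (((c:ℝ) + 2) ^ 2 / Ht η T ^ 2)) *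
        (4 * Real.exp (-(δ / 4 * T / (2 * B))) + 4 * Real.exp (-((δ / 4 * T / 2) ^ 2 / (2 * Ht η T ^ 2)))) ≤
      Z2 * Real.exp (((c:ℝ) + 2) ^ 2) * 8 * (T ^ P * E) := by
    have := hYp (2 * c + 3) (by omega)
    calc _ ≤ Z2 * (T ^ P * Real.exp (((c:ℝ) + 2) ^ 2)) * (4 * E + 4 * E) := by gcongr
      _ = _ := by ring
  have hx5 : Real.exp U ^ (2 * j) * Real.exp (-(Real.exp ((δ / 2 * T - δ / 4 * T) / B) / 2)) ≤ E := by
    rw [← Real.exp_nat_mul, ← Real.exp_add, hE]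
    apply Real.exp_le_exp.mpr
    have e1 : (δ / 2 * T - δ / 4 * T) / B = 4 * (x * T) := by
      rw [hxd]; field_simp; ring
    rw [e1]
    push_cast
    linarith
  have t3 : 2 * (((c:ℝ) + 2) * (6 ^ j * T ^ (c0 + 1) * (((c:ℝ) + 5) * (T * Real.exp U)) ^ (2 * j) *
        Yt η T ^ (2 * c + 3) *
        (Real.exp (((c:ℝ) + 2) ^ 2 / Ht η T ^ 2) * Real.exp (-(Real.exp ((δ / 2 * T - δ / 4 * T) / B) / 2))))) ≤
      2 * (((c:ℝ) + 2) * (6 ^ j * ((c:ℝ) + 5) ^ (2 * j) * Real.exp (((c:ℝ) + 2) ^ 2))) *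
        (T ^ P * E) := by
    have h1 : Yt η T ^ (2 * c + 3) ≤ T ^ (2 * c + 3) := pow_le_pow_left₀ (by linarith) hYT _
    have h2 : T ^ (c0 + 1) * T ^ (2 * j) * T ^ (2 * c + 3) ≤ T ^ P := by
      rw [← pow_add, ← pow_add]
      exact pow_le_pow_right₀ hT1 (by omega)
    calc _ ≤ 2 * (((c:ℝ) + 2) * (6 ^ j * T ^ (c0 + 1) *
        (((c:ℝ) + 5) * (T * Real.exp U)) ^ (2 * j) *
        T ^ (2 * c + 3) * (Real.exp (((c:ℝ) + 2) ^ 2) *
          Real.exp (-(Real.exp ((δ / 2 * T - δ / 4 * T) / B) / 2))))) := by gcongr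
      _ = 2 * (((c:ℝ) + 2) * (6 ^ j * ((c:ℝ) + 5) ^ (2 * j) * Real.exp (((c:ℝ) + 2) ^ 2))) *
          ((T ^ (c0 + 1) * T ^ (2 * j) * T ^ (2 * c + 3)) *
            (Real.exp U ^ (2 * j) * Real.exp (-(Real.exp ((δ / 2 * T - δ / 4 * T) / B) / 2)))) := by
          rw [mul_pow, mul_pow]; ring
      _ ≤ _ := by gcongr
  calc _ ≤ Z2 * (T ^ P * E) + Z2 * Real.exp (((c:ℝ) + 2) ^ 2) * 2 * (T ^ P * E) +
      Z2 * Real.exp (((c:ℝ) + 2) ^ 2) * 8 * (T ^ P * E) +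
      2 * (((c:ℝ) + 2) * (6 ^ j * ((c:ℝ) + 5) ^ (2 * j) * Real.exp (((c:ℝ) + 2) ^ 2))) *
        (T ^ P * E) := add_le_add (add_le_add (add_le_add t1 t2) t2') t3
    _ = K * (T ^ P * E) := by rw [hK]; ring

open H295MK (cl mt fr)

/-- window integral -/
def winv (η δ B T τ : ℝ) (F : ℝ → ℂ) : ℂ :=
  ∫ t in (τ - δ / 2 * T)..(τ + δ / 2 * T), F t * (gv (δ / 4 * T) B τ (Ht η T) t : ℂ)

/-- the same for real functions -/
def winvR (η δ B T τ : ℝ) (F : ℝ → ℝ) : ℝ :=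
  ∫ t in (τ - δ / 2 * T)..(τ + δ / 2 * T), F t * gv (δ / 4 * T) B τ (Ht η T) t

/-- mean value of `ζ^j (b/a)^{it}` -/
theorem twZL (j P0 : ℕ) (η δ B : ℝ) (hB : (j:ℝ) + 3 ≤ B) (hη : 0 < η) (hη2 : η < 1 / 2) (hδ : 0 < δ)
    (hδ1 : δ ≤ 1) :
    ∀ᶠ T : ℝ in atTop, ∀ τ : ℝ, δ * T ≤ τ → τ ≤ hmax δ B T → ∀ a b : ℕ, 1 ≤ a → (a : ℝ) ≤ T → 1 ≤ b →
    (b : ℝ) ≤ Yt η T →
    ‖winv η δ B T τ (fun t => riemannZeta (cl t) ^ j * fr a b t) - (mt j a b : ℂ)‖ ≤ 1 / T ^ P0 := by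
  filter_upwards [core_evL (P0 + 1) j 0 η δ B (by push_cast; linarith) hη hη2 hδ hδ1, eventually_ge_atTop 1]
    with T hT hT1 τ hτ1 hτ2 a b ha haT hb hbY
  have hT0 : 0 < T := by linarith
  have hYT : Yt η T ≤ T := by
    unfold Yt
    calc T ^ (1 - 2 * η) ≤ T ^ (1:ℝ) := Real.rpow_le_rpow_of_exponent_le hT1 (by linarith)
      _ = T := Real.rpow_one T
  have ha0 : (0 : ℝ) < a := by exact_mod_cast ha
  have hb0 : (0 : ℝ) < b := by exact_mod_cast hb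
  have h := hT τ hτ1 hτ2 (dl a) (dl b) (PB_dl a) (fun n hn => dl_ne (by
    rintro rfl
    linarith)) (PB_dl b)
  rw [main_dl j ha hb hbY] at h
  set S : ℝ := Real.sqrt ((a : ℝ) * b) with hS
  have hS0 : 0 ≤ S := Real.sqrt_nonneg _
  have hST : S ≤ T := by
    rw [hS, Real.sqrt_le_left hT0.le]
    nlinarith
  have e1 : winv η δ B T τ (fun t => riemannZeta (cl t) ^ j * H295MK.fr a b t) =
      (S : ℂ) * ∫ t in (τ - δ / 2 * T)..(τ + δ / 2 * T), (riemannZeta (1 / 2 + t * Complex.I) ^ j *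
          Dp (dl a) T (1 / 2 + t * Complex.I)) *
        (starRingEnd ℂ) (Dp (dl b) (Yt η T) (1 / 2 + t * Complex.I)) * (gv (δ / 4 * T) B τ (Ht η T) t : ℂ) := by
    unfold winv
    rw [← intervalIntegral.integral_const_mul]
    congr 1
    ext t
    rw [Dp_dl ha haT, Dp_dl hb hbY]
    show riemannZeta (cl t) ^ j * H295MK.fr a b t * _ = _
    rw [pt ha hb t]
    unfold cl
    ring
  have e2 : (H295MK.mt j a b : ℂ) = (S : ℂ) * (((if a ∣ b then dv j (b / a) else 0) / b : ℝ) : ℂ) := by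
    rw [← Complex.ofReal_mul]
    congr 1
    unfold H295MK.mt
    split_ifs with h1
    · have h2 : Real.sqrt ((a : ℝ) / b) = S / b := by
        rw [hS, show (a : ℝ) / b = (a * b) / (b ^ 2) by field_simp, Real.sqrt_div (by positivity),
          Real.sqrt_sq hb0.le]
      rw [h2]
      ring
    · simp
  rw [e1, e2, ← mul_sub, norm_mul, Complex.norm_real, Real.norm_of_nonneg hS0]
  calc S * _ ≤ T * (1 / T ^ (P0 + 1)) := mul_le_mul hST h (norm_nonneg _) hT0.le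
    _ = 1 / T ^ P0 := by
      rw [pow_succ]
      field_simp

theorem twOL (P0 : ℕ) (η δ B : ℝ) (hB : 3 ≤ B) (hη : 0 < η) (hη2 : η < 1 / 2) (hδ : 0 < δ)
    (hδ1 : δ ≤ 1) :
    ∀ᶠ T : ℝ in atTop, ∀ τ : ℝ, δ * T ≤ τ → τ ≤ hmax δ B T → ∀ a b : ℕ, 1 ≤ a → (a : ℝ) ≤ T → 1 ≤ b →
    (b : ℝ) ≤ Yt η T →
    ‖winv η δ B T τ (fun t => fr a b t) - (if a = b then 1 else 0 : ℂ)‖ ≤ 1 / T ^ P0 := by
  filter_upwards [twZL 0 P0 η δ B (by simpa using hB) hη hη2 hδ hδ1] with T hT τ hτ1 hτ2 a b ha haT hb hbY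
  have := hT τ hτ1 hτ2 a b ha haT hb hbY
  rw [H295MK.mt_zero a b ha hb] at this
  simp only [pow_zero, one_mul] at this
  have h5 : (((if a = b then (1 : ℝ) else 0) : ℝ) : ℂ) = if a = b then 1 else 0 := by
    split_ifs <;> simp
  rw [h5] at this
  exact this

end

end Pool.Agent.K7.H50.LL
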