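import Pool.Agent.K7.H50.LL.Master
import Pool.Agent.TH535.Expl5
import Pool.Agent.TH535.GrowthX
import Pool.Agent.H306R2.X379ConstA

set_option autoImplicit false

/-! Explicit lower bounds for the moments of integer order in all windows `U ≥ C log log T`. -/

namespace Pool.Agent.K7.H50.LL

open Filter MeasureTheory

/-- the constants -/
noncomputable def cst (k : ℕ) : ℝ :=
  if k = 3 then 7 / 10 else if k = 5 then 4 / 5 else if k = 7 then 1 else if k = 9 then 20 else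
    (4 / 3) ^ (3 * (k : ℝ) ^ 2 / 8) / (k : ℝ) ^ 4

/-- the parameters for the exponent `k` -/
theorem paramsL (k : ℕ) (hk : Odd k) (h5 : 5 ≤ k) :
    ∃ (n j : ℕ) (q : Fin n → ℕ),
      Pool.Agent.TH535.AdmN ((k : ℝ) / 2) j q (fun a => 1 / (q a : ℝ)) ∧
      cst k * (Pool.Agent.H306R2.aF ((k : ℝ) / 2) / Real.Gamma (((k : ℝ) / 2) ^ 2 + 1)) <
      Pool.Agent.H306R2.aF ((k : ℝ) / 2) *
        Pool.Agent.TH535.MN ((k : ℝ) / 2) j q (fun a => 1 / (q a : ℝ)) := by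
  unfold cst
  rw [if_neg (by omega : ¬ k = 3)]
  by_cases h : k = 5
  · subst h
    rw [if_pos rfl]
    have e : (((5 : ℕ) : ℝ)) / 2 = 5 / 2 := by norm_num
    rw [e]
    obtain ⟨h1, h2⟩ := Pool.Agent.TH535.case5
    exact ⟨_, _, _, h1, Pool.Agent.TH535.adm_const (by norm_num) h1 (by norm_num) h2⟩
  by_cases h' : k = 7
  · subst h'
    rw [if_neg (by norm_num), if_pos rfl]
    have e : (((7 : ℕ) : ℝ)) / 2 = 7 / 2 := by norm_num
    rw [e]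
    obtain ⟨h1, h2⟩ := Pool.Agent.TH535.case7
    exact ⟨_, _, _, h1, Pool.Agent.TH535.adm_const (by norm_num) h1 (by norm_num)
      (by rw [Real.log_one]; exact h2)⟩
  by_cases h'' : k = 9
  · subst h''
    rw [if_neg (by norm_num), if_neg (by norm_num), if_pos rfl]
    have e : (((9 : ℕ) : ℝ)) / 2 = 9 / 2 := by norm_num
    rw [e]
    obtain ⟨h1, h2⟩ := Pool.Agent.TH535.case9
    refine ⟨_, _, _, h1, Pool.Agent.TH535.adm_const (by norm_num) h1 (by norm_num) (lt_of_lt_of_le ?_ h2.le)⟩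
    have a2 := Real.log_two_lt_d9
    have d2 := Real.log_five_lt_d9
    rw [show (20 : ℝ) = 2 ^ 2 * 5 by norm_num, Real.log_mul (by norm_num) (by norm_num), Real.log_pow]
    push_cast
    norm_num at a2 d2 ⊢
    linarith
  rw [if_neg h, if_neg h', if_neg h'']
  exact Pool.Agent.TH535.expl_const k (by obtain ⟨m, hm⟩ := hk; omega)

/-- the windows, odd exponent -/
theorem odd_LL (k : ℕ) (hk : Odd k) (h3 : 3 ≤ k) :
    ∃ C : ℝ, 0 < C ∧ ∀ᶠ T : ℝ in atTop, ∀ U : ℝ, C * Real.log (Real.log T) ≤ U →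
      cst k * (Pool.Agent.H306R2.aF ((k : ℝ) / 2) / Real.Gamma ((k : ℝ) ^ 2 / 4 + 1)) *
        (U * Real.log U ^ ((k : ℝ) ^ 2 / 4)) ≤
      ∫ t in T..(T + U), ‖riemannZeta (1 / 2 + t * Complex.I)‖ ^ k := by
  by_cases hk3 : k = 3
  · subst hk3
    obtain ⟨N, j, q, β, hadm, hc⟩ := Pool.Agent.H306R2.X379ConstA.constA 3 hk h3
    have haF : 0 < Pool.Agent.H306R2.aF (((3 : ℕ) : ℝ) / 2) := Pool.Agent.H306R2.aF_pos (by norm_num)
    refine masterXLnat 3 j (by norm_num) q β hadm _ ?_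
    have e : cst 3 = 7 / 10 := by unfold cst; rw [if_pos rfl]
    rw [e]
    calc 7 / 10 * (Pool.Agent.H306R2.aF (((3 : ℕ) : ℝ) / 2) / Real.Gamma (((3 : ℕ) : ℝ) ^ 2 / 4 + 1))
        = Pool.Agent.H306R2.aF (((3 : ℕ) : ℝ) / 2) * ((7 / 10) / Real.Gamma (((3 : ℕ) : ℝ) ^ 2 / 4 + 1)) := by ring
      _ < _ := by gcongr
  · obtain ⟨n, j, q, hA, hc⟩ := paramsL k hk (by obtain ⟨m, hm⟩ := hk; omega)
    have hk0 : (0 : ℝ) < (k : ℝ) / 2 := by
      have : (0 : ℝ) < k := by exact_mod_cast (by omega : 0 < k)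
      positivity
    obtain ⟨B, hB, h⟩ := masterNL ((k : ℝ) / 2) hk0 j q _ hA _ hc
    rw [show ((k : ℝ) / 2) ^ 2 = (k : ℝ) ^ 2 / 4 by ring,
      show 2 * ((k : ℝ) / 2) = (k : ℝ) by ring] at h
    simp only [Real.rpow_natCast] at h
    exact ⟨B, hB, h⟩

/-- growth of the constants -/
theorem growth_LL {t A : ℝ} (ht : 0 < t) (ht1 : t < 1) (hA : 0 < A)
    (hAt : A < 4 ^ (1 - t) / (t ^ t * (1 + t) ^ ((1 - t ^ 2) / t))) :
    ∃ K : ℕ, ∀ k : ℕ, K ≤ k → ∃ C : ℝ, 0 < C ∧ ∀ᶠ T : ℝ in atTop, ∀ U : ℝ, C * Real.log (Real.log T) ≤ U →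
      A ^ ((k : ℝ) ^ 2 / 4) * (Pool.Agent.H306R2.aF ((k : ℝ) / 2) / Real.Gamma ((k : ℝ) ^ 2 / 4 + 1)) *
        (U * Real.log U ^ ((k : ℝ) ^ 2 / 4)) ≤
      ∫ t in T..(T + U), ‖riemannZeta (1 / 2 + t * Complex.I)‖ ^ k := by
  rw [← Pool.Agent.TH535.exp_GG ht] at hAt
  obtain ⟨N0, h0⟩ := Pool.Agent.TH535.growth_adm ht ht1 hA hAt
  refine ⟨N0, fun k hk => ?_⟩
  obtain ⟨n, j, q, h1, h2, h3⟩ := h0 k hk
  have hNp : (0 : ℝ) < k := by exact_mod_cast h2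
  obtain ⟨B, hB, h⟩ := masterNL ((k : ℝ) / 2) (by positivity) j q _ h1 _ h3
  rw [show ((k : ℝ) / 2) ^ 2 = (k : ℝ) ^ 2 / 4 by ring,
    show 2 * ((k : ℝ) / 2) = (k : ℝ) by ring] at h
  simp only [Real.rpow_natCast] at h
  exact ⟨B, hB, h⟩

end Pool.Agent.K7.H50.LL
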