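import Pool.Agent.K7.H50.LL.Four
import Pool.Agent.K7.H50.LL.Odd
import Pool.Agent.H306R2.EvenConst
import Pool.Agent.TH535.Prod

set_option autoImplicit false

/-! Explicit lower bounds for the moments of even order `k ≥ 6` in all windows `U ≥ C log log T`. -/

namespace Pool.Agent.K7.H50.LL

open Filter MeasureTheory
open Pool.Agent.TH535 (AdmN MN RR LR MN_eq exp_LR masterNX)

/-- the product formula in the windows -/
theorem prod_LL (k j n : ℕ) (q : Fin n → ℕ)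
    (hj : 1 ≤ j) (hjk : j < k) (hq : ∀ a, 2 ≤ q a)
    (hsum : (j : ℝ) / k + ∑ a, 1 / (q a : ℝ) = 1) (c : ℝ)
    (hc : c < Pool.Agent.H306R2.aF (k : ℝ) * (RR k j q) ^ ((k : ℝ) / j)) :
    ∃ C : ℝ, 0 < C ∧ ∀ᶠ T : ℝ in atTop, ∀ U : ℝ, C * Real.log (Real.log T) ≤ U →
      c * (U * Real.log U ^ ((k : ℝ) ^ 2)) ≤
        ∫ t in T..(T + U), ‖riemannZeta (1 / 2 + t * Complex.I)‖ ^ (2 * k) := by
  have hk1 : 1 ≤ k := by omega
  have hk0 : (0 : ℝ) < k := by exact_mod_cast hk1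
  have hj0 : (0 : ℝ) < j := by exact_mod_cast hj
  have hn : 0 < n := by
    rcases Nat.eq_zero_or_pos n with h | h
    · subst h
      simp only [Finset.univ_eq_empty, Finset.sum_empty, add_zero] at hsum
      rw [div_eq_one_iff_eq hk0.ne'] at hsum
      have : j = k := by exact_mod_cast hsum
      omega
    · exact h
  have hA : Pool.Agent.TH535.AdmN (k : ℝ) j q (fun a => 1 / (q a : ℝ)) :=
    { hj := hj
      hn := hn
      hq := hq
      hsum := hsum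
      hβ := fun a => by
        have : (0 : ℝ) < q a := by exact_mod_cast (by have := hq a; omega : 0 < q a)
        positivity
      hβq := fun a => le_rfl }
  have hMN := Pool.Agent.TH535.MN_eq hk0 hA
  have hc' : c < Pool.Agent.H306R2.aF (k : ℝ) *
      Pool.Agent.TH535.MN (k : ℝ) j q (fun a => 1 / (q a : ℝ)) := by
    rw [hMN, mul_comm ((k : ℝ) / j), Real.exp_mul, Pool.Agent.TH535.exp_LR q hj hjk hq]
    exact hc
  have e4 : ∀ x : ℝ, x ^ (2 * (k : ℝ)) = x ^ (2 * k) := by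
    intro x
    rw [← Real.rpow_natCast]
    push_cast
    rfl
  obtain ⟨B, hB, h⟩ := masterNL (k : ℝ) hk0 j q _ hA c hc'
  simp only [e4] at h
  exact ⟨B, hB, h⟩

/-- the constants -/
noncomputable def cstE (k : ℕ) : ℝ :=
  if 4 ∣ k then (1 / 2) ^ (k ^ 2 / 4) * ((k ^ 2 / 4).choose (k ^ 2 / 16) : ℝ) ^ 2
  else if k = 6 then 8 / 5 else if k = 10 then 26 else (4 / 3) ^ (3 * (k : ℝ) ^ 2 / 8) / (k : ℝ) ^ 4

theorem rr6 : RR 3 2 (![3] : Fin 1 → ℕ) = 1 / 3645 := by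
  unfold RR
  rw [Fin.prod_univ_one]
  have g4 : Real.Gamma (4 + 1) = 24 := by
    have := Real.Gamma_nat_eq_factorial 4
    norm_num [Nat.factorial] at this ⊢
  have g3 : Real.Gamma (3 + 1) = 6 := by
    have := Real.Gamma_nat_eq_factorial 3
    norm_num [Nat.factorial] at this ⊢
  have g2 : Real.Gamma (2 + 1) = 2 := by
    have := Real.Gamma_nat_eq_factorial 2
    norm_num [Nat.factorial] at this ⊢
  have g5 : Real.Gamma (5 + 1) = 120 := by
    have := Real.Gamma_nat_eq_factorial 5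
    norm_num [Nat.factorial] at this ⊢
  have e1 : (2 * ((2 : ℕ) : ℝ) * ((3 : ℕ) : ℝ) / (((![3] : Fin 1 → ℕ) 0 : ℕ) : ℝ)) = 4 := by norm_num
  have e2 : (((3 : ℕ) : ℝ) ^ 2 / (((![3] : Fin 1 → ℕ) 0 : ℕ) : ℝ)) = 3 := by norm_num
  have e3 : (((2 : ℕ) : ℝ) * ((3 : ℕ) : ℝ) / (((![3] : Fin 1 → ℕ) 0 : ℕ) : ℝ)) = 2 := by norm_num
  have e4 : ((((3 : ℕ) : ℝ) + ((2 : ℕ) : ℝ)) * ((3 : ℕ) : ℝ) / (((![3] : Fin 1 → ℕ) 0 : ℕ) : ℝ)) = 5 := by
    norm_num
  rw [e1, e2, e3, e4, g4, g3, g2, g5]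
  have e5 : ((((![3] : Fin 1 → ℕ) 0 : ℕ) : ℝ)) ^ (3 : ℝ) = 27 := by
    rw [show (3 : ℝ) = ((3 : ℕ) : ℝ) by norm_num, Real.rpow_natCast]
    norm_num
  rw [e5]
  norm_num [Nat.factorial]

theorem rr10 : RR 5 3 (![5, 5] : Fin 2 → ℕ) = 1053 / 192080000000000000 := by
  unfold RR
  rw [Fin.prod_univ_two]
  have g6 : Real.Gamma (6 + 1) = 720 := by
    have := Real.Gamma_nat_eq_factorial 6
    norm_num [Nat.factorial] at this ⊢
  have g5 : Real.Gamma (5 + 1) = 120 := by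
    have := Real.Gamma_nat_eq_factorial 5
    norm_num [Nat.factorial] at this ⊢
  have g3 : Real.Gamma (3 + 1) = 6 := by
    have := Real.Gamma_nat_eq_factorial 3
    norm_num [Nat.factorial] at this ⊢
  have g8 : Real.Gamma (8 + 1) = 40320 := by
    have := Real.Gamma_nat_eq_factorial 8
    norm_num [Nat.factorial] at this ⊢
  have q0 : (((![5, 5] : Fin 2 → ℕ) 0 : ℕ) : ℝ) = 5 := by norm_num
  have q1 : (((![5, 5] : Fin 2 → ℕ) 1 : ℕ) : ℝ) = 5 := by norm_num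
  rw [q0, q1]
  have e1 : (2 * ((3 : ℕ) : ℝ) * ((5 : ℕ) : ℝ) / 5) = 6 := by norm_num
  have e2 : (((5 : ℕ) : ℝ) ^ 2 / 5) = 5 := by norm_num
  have e3 : (((3 : ℕ) : ℝ) * ((5 : ℕ) : ℝ) / 5) = 3 := by norm_num
  have e4 : ((((5 : ℕ) : ℝ) + ((3 : ℕ) : ℝ)) * ((5 : ℕ) : ℝ) / 5) = 8 := by norm_num
  rw [e1, e2, e3, e4, g6, g5, g3, g8]
  have e5 : (5 : ℝ) ^ (5 : ℝ) = 3125 := by
    rw [show (5 : ℝ) ^ (5 : ℝ) = (5 : ℝ) ^ ((5 : ℕ) : ℝ) by norm_num, Real.rpow_natCast]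
    norm_num
  rw [e5]
  norm_num [Nat.factorial]

theorem even_LL (k : ℕ) (hk : Even k) (h6 : 6 ≤ k) (c : ℝ)
    (hc : c < cstE k * (Pool.Agent.H306R2.aF ((k : ℝ) / 2) / Real.Gamma ((k : ℝ) ^ 2 / 4 + 1))) :
    ∃ C : ℝ, 0 < C ∧ ∀ᶠ T : ℝ in atTop, ∀ U : ℝ, C * Real.log (Real.log T) ≤ U →
      c * (U * Real.log U ^ ((k : ℝ) ^ 2 / 4)) ≤
      ∫ t in T..(T + U), ‖riemannZeta (1 / 2 + t * Complex.I)‖ ^ k := by
  have hk0 : (0 : ℝ) < k := by exact_mod_cast (by omega : 0 < k)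
  have haF : 0 < Pool.Agent.H306R2.aF ((k : ℝ) / 2) := Pool.Agent.H306R2.aF_pos (by positivity)
  unfold cstE at hc
  by_cases h4 : 4 ∣ k
  · rw [if_pos h4] at hc
    obtain ⟨j, rfl⟩ := h4
    have hj : 1 ≤ j := by omega
    have e1 : (4 * j) ^ 2 / 4 = 4 * j ^ 2 := by
      rw [show (4 * j) ^ 2 = 4 * (4 * j ^ 2) by ring, Nat.mul_div_cancel_left _ (by norm_num)]
    have e2 : (4 * j) ^ 2 / 16 = j ^ 2 := by
      rw [show (4 * j) ^ 2 = 16 * j ^ 2 by ring, Nat.mul_div_cancel_left _ (by norm_num)]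
    have e3 : (((4 * j : ℕ) : ℝ)) / 2 = 2 * (j : ℝ) := by push_cast; ring
    have e4 : (((4 * j : ℕ) : ℝ)) ^ 2 / 4 = ((4 * j ^ 2 : ℕ) : ℝ) := by push_cast; ring
    rw [e1, e2, e3, e4, Real.Gamma_nat_eq_factorial] at hc
    obtain ⟨C, hC, h⟩ := mainKL j c hj (lt_of_lt_of_eq hc (by ring))
    refine ⟨C, hC, ?_⟩
    rw [e4]
    simp only [Real.rpow_natCast]
    exact h
  rw [if_neg h4] at hc
  by_cases hk6 : k = 6
  · subst hk6
    rw [if_pos rfl] at hc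
    have e3 : (((6 : ℕ) : ℝ)) / 2 = ((3 : ℕ) : ℝ) := by norm_num
    have e4 : (((6 : ℕ) : ℝ)) ^ 2 / 4 = ((3 : ℕ) : ℝ) ^ 2 := by norm_num
    rw [e3, e4] at hc
    rw [e3] at haF
    rw [e4]
    have h := prod_LL 3 2 1 ![3] (by norm_num) (by norm_num) (by intro a; fin_cases a; simp)
      (by rw [Fin.sum_univ_one]; norm_num) c (by
        refine lt_of_lt_of_le hc ?_
        rw [rr6]
        have eg : Real.Gamma (((3 : ℕ) : ℝ) ^ 2 + 1) = 362880 := by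
          have := Real.Gamma_nat_eq_factorial 9
          norm_num [Nat.factorial] at this ⊢
        rw [eg]
        have hp : (0 : ℝ) < (1 / 3645 : ℝ) ^ (((3 : ℕ) : ℝ) / ((2 : ℕ) : ℝ)) := by positivity
        have hsq : ((1 / 3645 : ℝ) ^ (((3 : ℕ) : ℝ) / ((2 : ℕ) : ℝ))) ^ 2 = (1 / 3645) ^ 3 := by
          rw [← Real.rpow_natCast, ← Real.rpow_mul (by norm_num)]
          norm_num
        have h1 : (8 / 5 / 362880 : ℝ) ≤ (1 / 3645 : ℝ) ^ (((3 : ℕ) : ℝ) / ((2 : ℕ) : ℝ)) := by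
          refine le_of_sq_le_sq ?_ hp.le
          rw [hsq]
          norm_num
        calc 8 / 5 * (Pool.Agent.H306R2.aF ((3 : ℕ) : ℝ) / 362880)
            = Pool.Agent.H306R2.aF ((3 : ℕ) : ℝ) * (8 / 5 / 362880) := by ring
          _ ≤ _ := mul_le_mul_of_nonneg_left h1 haF.le)
    exact h
  rw [if_neg hk6] at hc
  by_cases hk10 : k = 10
  · subst hk10
    rw [if_pos rfl] at hc
    have e3 : (((10 : ℕ) : ℝ)) / 2 = ((5 : ℕ) : ℝ) := by norm_num
    have e4 : (((10 : ℕ) : ℝ)) ^ 2 / 4 = ((5 : ℕ) : ℝ) ^ 2 := by norm_num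
    rw [e3, e4] at hc
    rw [e3] at haF
    rw [e4]
    have h := prod_LL 5 3 2 ![5, 5] (by norm_num) (by norm_num) (by intro a; fin_cases a <;> simp)
      (by rw [Fin.sum_univ_two]; norm_num) c (by
        refine lt_of_lt_of_le hc ?_
        rw [rr10]
        have eg : Real.Gamma (((5 : ℕ) : ℝ) ^ 2 + 1) = (25).factorial := by
          have := Real.Gamma_nat_eq_factorial 25
          rw [← this]
          norm_num
        rw [eg]
        have hp : (0 : ℝ) < (1053 / 192080000000000000 : ℝ) ^ (((5 : ℕ) : ℝ) / ((3 : ℕ) : ℝ)) := by positivity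
        have hsq : ((1053 / 192080000000000000 : ℝ) ^ (((5 : ℕ) : ℝ) / ((3 : ℕ) : ℝ))) ^ 3 =
            (1053 / 192080000000000000) ^ 5 := by
          rw [← Real.rpow_natCast, ← Real.rpow_mul (by norm_num),
            show (((5 : ℕ) : ℝ) / ((3 : ℕ) : ℝ)) * ((3 : ℕ) : ℝ) = ((5 : ℕ) : ℝ) by norm_num, Real.rpow_natCast]
        have h1 : (26 / ((25).factorial : ℝ)) ≤
            (1053 / 192080000000000000 : ℝ) ^ (((5 : ℕ) : ℝ) / ((3 : ℕ) : ℝ)) := by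
          refine le_of_pow_le_pow_left₀ (n := 3) (by norm_num) hp.le ?_
          rw [hsq]
          norm_num [Nat.factorial]
        calc 26 * (Pool.Agent.H306R2.aF ((5 : ℕ) : ℝ) / ((25).factorial : ℝ))
            = Pool.Agent.H306R2.aF ((5 : ℕ) : ℝ) * (26 / ((25).factorial : ℝ)) := by ring
          _ ≤ _ := mul_le_mul_of_nonneg_left h1 haF.le)
    exact h
  rw [if_neg hk10] at hc
  obtain ⟨n, j, q, hA, hc'⟩ := Pool.Agent.TH535.expl_const k (by obtain ⟨m, hm⟩ := hk; omega)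
  rw [show ((k : ℝ) / 2) ^ 2 = (k : ℝ) ^ 2 / 4 by ring] at hc'
  obtain ⟨B, hB, h⟩ := masterNL ((k : ℝ) / 2) (by positivity) j q _ hA _ hc'
  rw [show ((k : ℝ) / 2) ^ 2 = (k : ℝ) ^ 2 / 4 by ring,
    show 2 * ((k : ℝ) / 2) = (k : ℝ) by ring] at h
  simp only [Real.rpow_natCast] at h
  obtain ⟨C, hC, h'⟩ : ∃ C : ℝ, 0 < C ∧ ∀ᶠ T : ℝ in atTop, ∀ U : ℝ, C * Real.log (Real.log T) ≤ U → 1 ≤ U :=
    ⟨1, one_pos, by
      have : Tendsto (fun T : ℝ => Real.log (Real.log T)) atTop atTop :=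
        Real.tendsto_log_atTop.comp Real.tendsto_log_atTop
      filter_upwards [this.eventually_ge_atTop 1] with T hT U hU
      linarith⟩
  refine ⟨max B C, lt_max_of_lt_left hB, ?_⟩
  have hll : ∀ᶠ T : ℝ in atTop, 0 ≤ Real.log (Real.log T) :=
    (Real.tendsto_log_atTop.comp Real.tendsto_log_atTop).eventually_ge_atTop 0
  filter_upwards [h, h', hll] with T h1 h2 h3 U hU
  have u1 : B * Real.log (Real.log T) ≤ U :=
    le_trans (mul_le_mul_of_nonneg_right (le_max_left _ _) h3) hU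
  have u2 : C * Real.log (Real.log T) ≤ U :=
    le_trans (mul_le_mul_of_nonneg_right (le_max_right _ _) h3) hU
  have u3 := h2 U u2
  have hl : 0 ≤ Real.log U := Real.log_nonneg u3
  refine le_trans ?_ (h1 U u1)
  exact mul_le_mul_of_nonneg_right hc.le (by positivity)

end Pool.Agent.K7.H50.LL
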