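import Pool.Agent.K7.H50.LL.Master
import Pool.Agent.H295R2.LK.Final

set_option autoImplicit false
set_option linter.unusedSectionVars false

/-! The theorem for the exponents `4j` in all intervals `[T, T + U]` with `U ≥ C log log T`. -/

namespace Pool.Agent.K7.H50.LL

noncomputable section

section
open Finset Filter Topology MeasureTheory Complex
open Pool.Agent.H306R2 hiding fr wt
open H295MK (cl mt CC VV EE N4 volE volN EElow N4up cc SP fr)
open Pool.Agent.H89R2.MKR3 hiding winN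

/-- the integral as a sum of twisted integrals -/
lemma integral_eqK (j : ℕ) (η δ B T τ X : ℝ) :
    ∫ t in (τ - δ / 2 * T)..(τ + δ / 2 * T), (riemannZeta (cl t) ^ j * VV j X t) *
      (starRingEnd ℂ) (CC j X t) * (gv (δ / 4 * T) B τ (Ht η T) t : ℂ) =
    ∑ b ∈ SP X, ∑ n ∈ Icc 1 ⌊X⌋₊, ((vn j n * cc j X b : ℝ) : ℂ) *
      winv η δ B T τ (fun t => riemannZeta (cl t) ^ j * fr b.2 (n * b.1) t) := by
  have hc : ∀ b : ℕ × ℕ, ∀ n : ℕ, Continuous (fun t : ℝ => ((vn j n * cc j X b : ℝ) : ℂ) *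
      (riemannZeta (cl t) ^ j * fr b.2 (n * b.1) t * (gv (δ / 4 * T) B τ (Ht η T) t : ℂ))) := by
    intro b n
    refine continuous_const.mul (((Continuous.pow ?_ j).mul (fr_cont _ _)).mul
      (Complex.continuous_ofReal.comp (gv_continuous _ _ _ _)))
    exact zeta_line_continuous
  unfold winv
  have e2 : ∑ b ∈ SP X, ∑ n ∈ Icc 1 ⌊X⌋₊, ((vn j n * cc j X b : ℝ) : ℂ) *
      ∫ t in (τ - δ / 2 * T)..(τ + δ / 2 * T), riemannZeta (cl t) ^ j * fr b.2 (n * b.1) t *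
        (gv (δ / 4 * T) B τ (Ht η T) t : ℂ) =
      ∫ t in (τ - δ / 2 * T)..(τ + δ / 2 * T), ∑ b ∈ SP X, ∑ n ∈ Icc 1 ⌊X⌋₊,
        ((vn j n * cc j X b : ℝ) : ℂ) *
        (riemannZeta (cl t) ^ j * fr b.2 (n * b.1) t * (gv (δ / 4 * T) B τ (Ht η T) t : ℂ)) := by
    rw [intervalIntegral.integral_finsetSum]
    · refine sum_congr rfl fun b _ => ?_
      rw [intervalIntegral.integral_finsetSum]
      · refine sum_congr rfl fun n _ => ?_
        rw [intervalIntegral.integral_const_mul]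
      · intro n _
        exact (hc b n).intervalIntegrable _ _
    · intro b _
      exact (continuous_finsetSum _ fun n _ => hc b n).intervalIntegrable _ _
  rw [e2]
  refine intervalIntegral.integral_congr fun t _ => ?_
  show (riemannZeta (cl t) ^ j * VV j X t) *
      (starRingEnd ℂ) (CC j X t) * (gv (δ / 4 * T) B τ (Ht η T) t : ℂ) = _
  unfold VV CC
  rw [map_sum]
  have e3 : (riemannZeta (cl t) ^ j * ∑ n ∈ Icc 1 ⌊X⌋₊, ((dv j n / Real.sqrt n : ℝ) : ℂ) * fr 1 n t) *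
      (∑ b ∈ SP X, (starRingEnd ℂ) ((cc j X b : ℂ) * fr b.1 b.2 t)) * (gv (δ / 4 * T) B τ (Ht η T) t : ℂ) =
      (riemannZeta (cl t) ^ j * (gv (δ / 4 * T) B τ (Ht η T) t : ℂ)) *
        ((∑ b ∈ SP X, (starRingEnd ℂ) ((cc j X b : ℂ) * fr b.1 b.2 t)) *
        ∑ n ∈ Icc 1 ⌊X⌋₊, ((dv j n / Real.sqrt n : ℝ) : ℂ) * fr 1 n t) := by ring
  rw [e3, sum_mul_sum, mul_sum]
  refine sum_congr rfl fun b hb => ?_
  rw [mul_sum]
  refine sum_congr rfl fun n hn => ?_
  obtain ⟨h1, _, _, _, _⟩ := mem_SP hb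
  rw [map_mul, Complex.conj_ofReal, fr_conj, ← fr_mul n b.1 b.2 (mem_Icc.1 hn).1 h1]
  unfold vn
  push_cast
  ring

/-- R3 (adapted from the file of helper89) -/
theorem winNK (j : ℕ) (η δ B : ℝ) (hB : (j:ℝ) + 3 ≤ B) (hη : 0 < η) (hη2 : η < 1 / 2) (hδ : 0 < δ) (hδ1 : δ ≤ 1) :
    ∀ᶠ T : ℝ in atTop, ∀ τ : ℝ, δ * T ≤ τ → τ ≤ hmax δ B T →
    EE j (Yt η T ^ (1 / 2 : ℝ)) - 1 ≤
      ‖∫ t in (τ - δ / 2 * T)..(τ + δ / 2 * T), (riemannZeta (cl t) ^ j *
        VV j (Yt η T ^ (1 / 2 : ℝ)) t) * (starRingEnd ℂ) (CC j (Yt η T ^ (1 / 2 : ℝ)) t) *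
          (gv (δ / 4 * T) B τ (Ht η T) t : ℂ)‖ := by
  filter_upwards [twZL j (3 * j + 4) η δ B hB hη hη2 hδ hδ1, eventually_ge_atTop 1] with T hT hT1 τ hτ1 hτ2
  have hT0 : 0 < T := by linarith
  set X : ℝ := Yt η T ^ (1 / 2 : ℝ) with hX
  have hY1 : 1 ≤ Yt η T := Real.one_le_rpow hT1 (by linarith)
  have hX1 : 1 ≤ X := Real.one_le_rpow hY1 (by norm_num)
  have hXX : X * X = Yt η T := by
    rw [hX, ← Real.rpow_add (by linarith)]
    norm_num
  have hYT : Yt η T ≤ T := by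
    unfold Yt
    calc T ^ (1 - 2 * η) ≤ T ^ (1 : ℝ) := Real.rpow_le_rpow_of_exponent_le hT1 (by linarith)
      _ = T := Real.rpow_one T
  have hXT : X ≤ T := by nlinarith
  have hX0 : 0 ≤ X := by linarith
  have hfl : ((⌊X⌋₊ : ℕ) : ℝ) ≤ X := Nat.floor_le hX0
  rw [integral_eqK j η δ B T τ X]
  set S : ℂ := ∑ b ∈ SP X, ∑ n ∈ Icc 1 ⌊X⌋₊, ((vn j n * cc j X b : ℝ) : ℂ) *
      winv η δ B T τ (fun t => riemannZeta (cl t) ^ j * fr b.2 (n * b.1) t) with hS
  have hE : ((EE j X : ℝ) : ℂ) = ∑ b ∈ SP X, ∑ n ∈ Icc 1 ⌊X⌋₊,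
      ((vn j n * cc j X b : ℝ) : ℂ) * (mt j b.2 (n * b.1) : ℂ) := by
    rw [← EE_main j X]
    push_cast
    rfl
  have hdiff : ‖S - ((EE j X : ℝ) : ℂ)‖ ≤ 1 := by
    rw [hE, hS, ← sum_sub_distrib]
    have hb1 : ∀ b ∈ SP X, ‖∑ n ∈ Icc 1 ⌊X⌋₊, ((vn j n * cc j X b : ℝ) : ℂ) *
        winv η δ B T τ (fun t => riemannZeta (cl t) ^ j * fr b.2 (n * b.1) t) -
        ∑ n ∈ Icc 1 ⌊X⌋₊, ((vn j n * cc j X b : ℝ) : ℂ) * (mt j b.2 (n * b.1) : ℂ)‖ ≤
        T * (T ^ j * (T * (T ^ j * T ^ j)) * (1 / T ^ (3 * j + 4))) := by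
      intro b hb
      obtain ⟨h1, h2, h3, h4, h5⟩ := mem_SP hb
      have hb1X : (b.1 : ℝ) ≤ X := le_trans (by exact_mod_cast h2) hfl
      have hb2X : (b.2 : ℝ) ≤ X := le_trans (by exact_mod_cast h4) hfl
      rw [← sum_sub_distrib]
      refine (norm_sum_le _ _).trans ?_
      refine (sum_le_card_nsmul _ _ (T ^ j * (T * (T ^ j * T ^ j)) * (1 / T ^ (3 * j + 4)))
        fun n hn => ?_).trans ?_
      · rw [mem_Icc] at hn
        have hnX : (n : ℝ) ≤ X := le_trans (by exact_mod_cast hn.2) hfl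
        rw [← mul_sub, norm_mul, Complex.norm_real, Real.norm_eq_abs, abs_mul]
        refine mul_le_mul (mul_le_mul (vn_abs_le j n hT1 hn.1 (hnX.trans hXT))
          (cc_abs_le j X hT1 (hXX.le.trans hYT) hX1 b hb) (abs_nonneg _) (by positivity)) ?_
          (norm_nonneg _) (by positivity)
        refine hT τ hτ1 hτ2 b.2 (n * b.1) h3 (hb2X.trans hXT)
          (Nat.one_le_iff_ne_zero.2 (Nat.mul_ne_zero (by omega) (by omega))) ?_
        rw [← hXX]
        push_cast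
        exact mul_le_mul hnX hb1X (by positivity) hX0
      · rw [nsmul_eq_mul, Nat.card_Icc, Nat.add_sub_cancel]
        exact mul_le_mul_of_nonneg_right (hfl.trans hXT) (by positivity)
    refine (norm_sum_le _ _).trans ((sum_le_card_nsmul _ _ _ hb1).trans ?_)
    rw [nsmul_eq_mul]
    have hcard : ((SP X).card : ℝ) ≤ T * T := by
      have h1 : (SP X).card ≤ ⌊X⌋₊ * ⌊X⌋₊ := by
        unfold SP
        refine (card_filter_le _ _).trans ?_
        rw [card_product, Nat.card_Icc, Nat.add_sub_cancel]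
      calc ((SP X).card : ℝ) ≤ ((⌊X⌋₊ * ⌊X⌋₊ : ℕ) : ℝ) := by exact_mod_cast h1
        _ = (⌊X⌋₊ : ℝ) * ⌊X⌋₊ := by push_cast; rfl
        _ ≤ T * T := mul_le_mul (hfl.trans hXT) (hfl.trans hXT) (by positivity) hT0.le
    calc _ ≤ T * T * (T * (T ^ j * (T * (T ^ j * T ^ j)) * (1 / T ^ (3 * j + 4)))) :=
          mul_le_mul_of_nonneg_right hcard (by positivity)
      _ = T ^ (3 * j + 4) * (1 / T ^ (3 * j + 4)) := by ring
      _ = 1 := mul_one_div_cancel (by positivity)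
      _ ≤ 1 := le_rfl
  have h1 : EE j X ≤ ‖((EE j X : ℝ) : ℂ)‖ := by
    rw [Complex.norm_real]
    exact le_abs_self _
  have h2 : ‖((EE j X : ℝ) : ℂ)‖ ≤ ‖S‖ + ‖S - ((EE j X : ℝ) : ℂ)‖ := by
    have := norm_sub_le S (S - ((EE j X : ℝ) : ℂ))
    rwa [sub_sub_cancel] at this
  linarith


end

section
open Finset Filter Topology MeasureTheory Complex
open Pool.Agent.H306R2 hiding fr wt
open H295MK (cl mt CC VV EE N4 volE volN EElow N4up cc SP fr)
open Pool.Agent.H578R2.MKR4 hiding winC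

/-- R4 (adapted from the file of helper578) -/
theorem winCK (j : ℕ) (η δ B : ℝ) (hB : 3 ≤ B) (hη : 0 < η) (hη2 : η < 1 / 2) (hδ : 0 < δ) (hδ1 : δ ≤ 1) :
    ∀ᶠ T : ℝ in atTop, ∀ τ : ℝ, δ * T ≤ τ → τ ≤ hmax δ B T →
    winvR η δ B T τ (fun t => ‖CC j (Yt η T ^ (1 / 2 : ℝ)) t‖ ^ 2) ≤ EE j (Yt η T ^ (1 / 2 : ℝ)) + 1 := by
  filter_upwards [twOL (4 * j + 4) η δ B hB hη hη2 hδ hδ1, eventually_ge_atTop 1] with T hT hT1 τ hτ1 hτ2
  have hT0 : 0 < T := by linarith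
  have hY1 : 1 ≤ Yt η T := one_le_Yt hη2 hT1
  have hYT : Yt η T ≤ T := Yt_le hη hT1
  set X : ℝ := Yt η T ^ (1 / 2 : ℝ) with hX
  have hX2 : X ^ 2 = Yt η T := by
    rw [hX, ← Real.rpow_natCast, ← Real.rpow_mul (by linarith)]
    norm_num
  have hX1 : 1 ≤ X := Real.one_le_rpow hY1 (by norm_num)
  have hXT : X ^ 2 ≤ T := by rw [hX2]; exact hYT
  have hcast : ((winvR η δ B T τ (fun t => ‖CC j X t‖ ^ 2) : ℝ) : ℂ) =
      ∑ b ∈ SP X, ∑ b' ∈ SP X, ((cc j X b * cc j X b' : ℝ) : ℂ) *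
        winv η δ B T τ (fun t => fr (b.1 * b'.2) (b.2 * b'.1) t) := by
    rw [← win_sumL η δ B T τ (SP X) (fun b b' => ((cc j X b * cc j X b' : ℝ) : ℂ))
      (fun b b' => fr (b.1 * b'.2) (b.2 * b'.1)) (fun b b' => fr_cont _ _)]
    unfold winvR winv
    rw [← intervalIntegral.integral_ofReal]
    apply intervalIntegral.integral_congr
    intro t _
    simp only
    rw [Complex.ofReal_mul, normsq j X (by linarith)]
  have hEE : ((EE j X : ℝ) : ℂ) = ∑ b ∈ SP X, ∑ b' ∈ SP X, ((cc j X b * cc j X b' : ℝ) : ℂ) *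
      (if b.1 * b'.2 = b.2 * b'.1 then 1 else 0 : ℂ) := by
    unfold EE
    rw [Complex.ofReal_sum]
    refine sum_congr rfl fun b hb => ?_
    obtain ⟨p1, p2, _, _, p5⟩ := sp_mem hb (by linarith)
    rw [sum_eq_single b]
    · rw [if_pos (mul_comm _ _)]
      push_cast
      ring
    · intro b' hb' hne
      obtain ⟨q1, q2, _, _, q5⟩ := sp_mem hb' (by linarith)
      rw [if_neg, mul_zero]
      intro heq
      exact hne (cop p1 p5 q5 heq).symm
    · intro hb'; exact absurd hb hb'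
  have hdiff : ‖((winvR η δ B T τ (fun t => ‖CC j X t‖ ^ 2) - EE j X : ℝ) : ℂ)‖ ≤ 1 := by
    rw [Complex.ofReal_sub, hcast, hEE, ← sum_sub_distrib]
    refine (norm_sum_le _ _).trans ?_
    have hb : ∀ b ∈ SP X, ‖∑ b' ∈ SP X, ((cc j X b * cc j X b' : ℝ) : ℂ) *
        winv η δ B T τ (fun t => fr (b.1 * b'.2) (b.2 * b'.1) t) -
        ∑ b' ∈ SP X, ((cc j X b * cc j X b' : ℝ) : ℂ) *
        (if b.1 * b'.2 = b.2 * b'.1 then 1 else 0 : ℂ)‖ ≤ T * (T ^ (4 * j + 2) / T ^ (4 * j + 4)) := by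
      intro b hb
      rw [← sum_sub_distrib]
      refine (norm_sum_le _ _).trans ?_
      calc _ ≤ ∑ b' ∈ SP X, T ^ (4 * j + 2) / T ^ (4 * j + 4) := by
            refine sum_le_sum fun b' hb' => ?_
            rw [← mul_sub, norm_mul, Complex.norm_real, Real.norm_eq_abs]
            obtain ⟨p1, p2, p3, p4, _⟩ := sp_mem hb (by linarith)
            obtain ⟨q1, q2, q3, q4, _⟩ := sp_mem hb' (by linarith)
            obtain ⟨c1, c2⟩ := cc_le j X T hX1 hXT b hb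
            obtain ⟨d1, d2⟩ := cc_le j X T hX1 hXT b' hb'
            have hab : ((b.1 * b'.2 : ℕ) : ℝ) ≤ X ^ 2 := by
              push_cast
              rw [sq]
              exact mul_le_mul p3 q4 (Nat.cast_nonneg _) (by linarith)
            have hba : ((b.2 * b'.1 : ℕ) : ℝ) ≤ X ^ 2 := by
              push_cast
              rw [sq]
              exact mul_le_mul p4 q3 (Nat.cast_nonneg _) (by linarith)
            have hw := hT τ hτ1 hτ2 (b.1 * b'.2) (b.2 * b'.1) (Nat.mul_pos p1 q2)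
              (hab.trans hXT) (Nat.mul_pos p2 q1) (by rw [← hX2]; exact hba)
            rw [abs_of_nonneg (mul_nonneg c1 d1), div_eq_mul_one_div]
            apply mul_le_mul _ hw (norm_nonneg _) (by positivity)
            calc cc j X b * cc j X b' ≤ T ^ (2 * j + 1) * T ^ (2 * j + 1) :=
                  mul_le_mul c2 d2 d1 (by positivity)
              _ = T ^ (4 * j + 2) := by rw [← pow_add]; congr 1; ring
        _ = (SP X).card * (T ^ (4 * j + 2) / T ^ (4 * j + 4)) := by rw [sum_const, nsmul_eq_mul]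
        _ ≤ _ := mul_le_mul_of_nonneg_right (sp_card X T hX1 hXT) (by positivity)
    calc _ ≤ ∑ b ∈ SP X, T * (T ^ (4 * j + 2) / T ^ (4 * j + 4)) := sum_le_sum hb
      _ = (SP X).card * (T * (T ^ (4 * j + 2) / T ^ (4 * j + 4))) := by
          rw [sum_const, nsmul_eq_mul]
      _ ≤ T * (T * (T ^ (4 * j + 2) / T ^ (4 * j + 4))) :=
          mul_le_mul_of_nonneg_right (sp_card X T hX1 hXT) (by positivity)
      _ = 1 := by
          have : T ^ (4 * j + 4) = T ^ (4 * j + 2) * T * T := by ring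
          rw [this]
          have hp : T ^ (4 * j + 2) ≠ 0 := by positivity
          field_simp
  rw [Complex.norm_real, Real.norm_eq_abs] at hdiff
  have := (abs_le.1 hdiff).2
  linarith


end

section
open Finset Filter Topology MeasureTheory Complex
open Pool.Agent.H306R2 hiding wt
open H384MK hiding T_WinV

lemma win_expandK (j : ℕ) (X η δ B T τ : ℝ) :
    ((winvR η δ B T τ (fun t => ‖H295MK.VV j X t‖ ^ (2 * 2)) : ℝ) : ℂ) =
    ∑ a ∈ Icc 1 ⌊X⌋₊, ∑ b ∈ Icc 1 ⌊X⌋₊, ∑ c ∈ Icc 1 ⌊X⌋₊, ∑ d ∈ Icc 1 ⌊X⌋₊,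
      ((vc j a * vc j b * (vc j c * vc j d) : ℝ) : ℂ) *
        winv η δ B T τ (fun t => H295MK.fr (c * d) (a * b) t) := by
  unfold winvR winv
  rw [← intervalIntegral.integral_ofReal]
  have h1 : ∀ t : ℝ, ((‖H295MK.VV j X t‖ ^ (2 * 2) * gv (δ / 4 * T) B τ (Ht η T) t : ℝ) : ℂ) =
      ∑ a ∈ Icc 1 ⌊X⌋₊, ∑ b ∈ Icc 1 ⌊X⌋₊, ∑ c ∈ Icc 1 ⌊X⌋₊, ∑ d ∈ Icc 1 ⌊X⌋₊,
      ((vc j a * vc j b * (vc j c * vc j d) : ℝ) : ℂ) * (H295MK.fr (c * d) (a * b) t *
        (gv (δ / 4 * T) B τ (Ht η T) t : ℂ)) := by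
    intro t
    rw [Complex.ofReal_mul, VV_pow]
    simp only [Finset.sum_mul, mul_assoc]
  simp only [h1]
  have hc : ∀ a b c d : ℕ, Continuous fun t : ℝ =>
      ((vc j a * vc j b * (vc j c * vc j d) : ℝ) : ℂ) * (H295MK.fr (c * d) (a * b) t *
        (gv (δ / 4 * T) B τ (Ht η T) t : ℂ)) := by
    intro a b c d
    exact continuous_const.mul ((fr_cont _ _).mul
      (Complex.continuous_ofReal.comp (gv_continuous _ _ _ _)))
  rw [intervalIntegral.integral_finset_sum fun a _ => by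
    apply Continuous.intervalIntegrable
    exact continuous_finsetSum _ fun b _ => continuous_finsetSum _ fun c _ =>
      continuous_finsetSum _ fun d _ => hc a b c d]
  refine sum_congr rfl fun a _ => ?_
  rw [intervalIntegral.integral_finset_sum fun b _ => by
    apply Continuous.intervalIntegrable
    exact continuous_finsetSum _ fun c _ => continuous_finsetSum _ fun d _ => hc a b c d]
  refine sum_congr rfl fun b _ => ?_
  rw [intervalIntegral.integral_finset_sum fun c _ => by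
    apply Continuous.intervalIntegrable
    exact continuous_finsetSum _ fun d _ => hc a b c d]
  refine sum_congr rfl fun c _ => ?_
  rw [intervalIntegral.integral_finset_sum fun d _ => (hc a b c d).intervalIntegrable _ _]
  refine sum_congr rfl fun d _ => ?_
  rw [intervalIntegral.integral_const_mul]

/-- R5 (adapted from the file of helper384) -/
theorem winVK (j : ℕ) (η δ B : ℝ) (hB : 3 ≤ B) (hη : 0 < η) (hη2 : η < 1 / 2) (hδ : 0 < δ) (hδ1 : δ ≤ 1) :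
    ∀ᶠ T : ℝ in atTop, ∀ τ : ℝ, δ * T ≤ τ → τ ≤ hmax δ B T →
    winvR η δ B T τ (fun t => ‖H295MK.VV j (Yt η T ^ (1 / 2 : ℝ)) t‖ ^ (2 * 2)) ≤
      H295MK.N4 j (Yt η T ^ (1 / 2 : ℝ)) + 1 := by
  filter_upwards [twOL (2 * j + 2) η δ B hB hη hη2 hδ hδ1, eventually_ge_atTop 1] with T hT hT1
  intro τ hτ1 hτ2
  have hT0 : 0 < T := by linarith
  have hY0 : 0 < Yt η T := Yt_pos hT0
  have hYT : Yt η T ≤ T := Yt_le hη hT1
  set X : ℝ := Yt η T ^ (1 / 2 : ℝ) with hX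
  have hX0 : 0 ≤ X := Real.rpow_nonneg hY0.le _
  have hX2 : X * X = Yt η T := by
    rw [hX, ← Real.rpow_add hY0]
    norm_num
  have hN : (⌊X⌋₊ : ℝ) ≤ X := Nat.floor_le hX0
  have hmem : ∀ n ∈ Icc 1 ⌊X⌋₊, (1 : ℕ) ≤ n ∧ (n : ℝ) ≤ X := by
    intro n hn
    rw [mem_Icc] at hn
    exact ⟨hn.1, (by exact_mod_cast hn.2 : (n : ℝ) ≤ ⌊X⌋₊).trans hN⟩
  have hab : ∀ a ∈ Icc 1 ⌊X⌋₊, ∀ b ∈ Icc 1 ⌊X⌋₊, (1 : ℕ) ≤ a * b ∧ ((a * b : ℕ) : ℝ) ≤ Yt η T := by
    intro a ha b hb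
    obtain ⟨ha1, ha2⟩ := hmem a ha
    obtain ⟨hb1, hb2⟩ := hmem b hb
    refine ⟨Nat.mul_pos ha1 hb1, ?_⟩
    push_cast
    rw [← hX2]
    exact mul_le_mul ha2 hb2 (Nat.cast_nonneg b) hX0
  have key : ‖((winvR η δ B T τ (fun t => ‖H295MK.VV j X t‖ ^ (2 * 2)) -
      H295MK.N4 j X : ℝ) : ℂ)‖ ≤ 1 := by
    rw [Complex.ofReal_sub, win_expandK, N4_eq]
    have e1 : ((∑ a ∈ Icc 1 ⌊X⌋₊, ∑ b ∈ Icc 1 ⌊X⌋₊, ∑ c ∈ Icc 1 ⌊X⌋₊, ∑ d ∈ Icc 1 ⌊X⌋₊,
        vc j a * vc j b * (vc j c * vc j d) * (if c * d = a * b then 1 else 0) : ℝ) : ℂ) =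
        ∑ a ∈ Icc 1 ⌊X⌋₊, ∑ b ∈ Icc 1 ⌊X⌋₊, ∑ c ∈ Icc 1 ⌊X⌋₊, ∑ d ∈ Icc 1 ⌊X⌋₊,
        ((vc j a * vc j b * (vc j c * vc j d) : ℝ) : ℂ) * (if c * d = a * b then 1 else 0) := by
      rw [Complex.ofReal_sum]
      refine sum_congr rfl fun a _ => ?_
      rw [Complex.ofReal_sum]
      refine sum_congr rfl fun b _ => ?_
      rw [Complex.ofReal_sum]
      refine sum_congr rfl fun c _ => ?_
      rw [Complex.ofReal_sum]
      refine sum_congr rfl fun d _ => ?_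
      rw [Complex.ofReal_mul]
      congr 1
      split_ifs <;> simp
    rw [e1, ← Finset.sum_sub_distrib]
    have hbd : ∀ a ∈ Icc 1 ⌊X⌋₊, ∀ b ∈ Icc 1 ⌊X⌋₊, ∀ c ∈ Icc 1 ⌊X⌋₊, ∀ d ∈ Icc 1 ⌊X⌋₊,
        ‖((vc j a * vc j b * (vc j c * vc j d) : ℝ) : ℂ) *
          winv η δ B T τ (fun t => H295MK.fr (c * d) (a * b) t) -
          ((vc j a * vc j b * (vc j c * vc j d) : ℝ) : ℂ) * (if c * d = a * b then 1 else 0)‖ ≤
        1 / T ^ 2 := by
      intro a ha b hb c hc d hd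
      have h1 := hT τ hτ1 hτ2 (c * d) (a * b) (hab c hc d hd).1
        ((hab c hc d hd).2.trans hYT) (hab a ha b hb).1 (hab a ha b hb).2
      rw [← mul_sub, norm_mul]
      have h2 : ‖((vc j a * vc j b * (vc j c * vc j d) : ℝ) : ℂ)‖ ≤ T ^ (2 * j) := by
        rw [Complex.norm_real, Real.norm_of_nonneg (by
          have := vc_nonneg j
          have h1 := this a
          have h2 := this b
          have h3 := this c
          have h4 := this d
          positivity)]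
        have hab' : vc j a * vc j b ≤ T ^ j := by
          calc vc j a * vc j b ≤ (a : ℝ) ^ j * (b : ℝ) ^ j :=
                mul_le_mul (vc_le j a (hmem a ha).1) (vc_le j b (hmem b hb).1) (vc_nonneg j b)
                  (by positivity)
            _ = ((a * b : ℕ) : ℝ) ^ j := by push_cast; rw [mul_pow]
            _ ≤ T ^ j := pow_le_pow_left₀ (Nat.cast_nonneg _) ((hab a ha b hb).2.trans hYT) j
        have hcd' : vc j c * vc j d ≤ T ^ j := by
          calc vc j c * vc j d ≤ (c : ℝ) ^ j * (d : ℝ) ^ j :=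
                mul_le_mul (vc_le j c (hmem c hc).1) (vc_le j d (hmem d hd).1) (vc_nonneg j d)
                  (by positivity)
            _ = ((c * d : ℕ) : ℝ) ^ j := by push_cast; rw [mul_pow]
            _ ≤ T ^ j := pow_le_pow_left₀ (Nat.cast_nonneg _) ((hab c hc d hd).2.trans hYT) j
        calc vc j a * vc j b * (vc j c * vc j d) ≤ T ^ j * T ^ j :=
              mul_le_mul hab' hcd' (mul_nonneg (vc_nonneg j c) (vc_nonneg j d)) (by positivity)
          _ = T ^ (2 * j) := by ring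
      calc _ ≤ T ^ (2 * j) * (1 / T ^ (2 * j + 2)) :=
            mul_le_mul h2 h1 (norm_nonneg _) (by positivity)
        _ = 1 / T ^ 2 := by
            rw [pow_add]
            field_simp
    have hcard : ((Icc 1 ⌊X⌋₊).card : ℝ) ≤ X := by
      rw [Nat.card_Icc, Nat.add_sub_cancel]
      exact hN
    have hstep : ∀ (F : ℕ → ℂ) (M : ℝ), 0 ≤ M → (∀ a ∈ Icc 1 ⌊X⌋₊, ‖F a‖ ≤ M) →
        ‖∑ a ∈ Icc 1 ⌊X⌋₊, F a‖ ≤ X * M := by
      intro F M hM hF
      calc ‖∑ a ∈ Icc 1 ⌊X⌋₊, F a‖ ≤ ∑ a ∈ Icc 1 ⌊X⌋₊, M := norm_sum_le_of_le _ hF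
        _ = (Icc 1 ⌊X⌋₊).card * M := by rw [sum_const, nsmul_eq_mul]
        _ ≤ X * M := mul_le_mul_of_nonneg_right hcard hM
    have hfin : X * (X * (X * (X * (1 / T ^ 2)))) ≤ 1 := by
      have h1 : X * (X * (X * (X * (1 / T ^ 2)))) = (X * X) ^ 2 / T ^ 2 := by ring
      rw [h1, hX2, div_le_one (by positivity)]
      exact pow_le_pow_left₀ hY0.le hYT 2
    refine le_trans ?_ hfin
    apply hstep _ _ (by positivity)
    intro a ha
    rw [← Finset.sum_sub_distrib]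
    apply hstep _ _ (by positivity)
    intro b hb
    rw [← Finset.sum_sub_distrib]
    apply hstep _ _ (by positivity)
    intro c hc
    rw [← Finset.sum_sub_distrib]
    apply hstep _ _ (by positivity)
    intro d hd
    exact hbd a ha b hb c hc d hd
  rw [Complex.norm_real, Real.norm_eq_abs] at key
  have := (abs_le.1 key).2
  linarith


end

section
open Finset Filter Topology MeasureTheory Complex
open Pool.Agent.H306R2 hiding wt
open H400MK hiding fixed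
open H295MK (cl mt CC VV EE N4 volE volN EElow N4up)
open H295LK (volE_pos volN_pos)

/-- F1 (adapted from the file of helper400) -/
theorem fixedK (h4 : EElow) (h5 : N4up) (j : ℕ) (B A K x : ℝ) (hB : (j:ℝ) + 3 ≤ B) (hj : 1 ≤ j) (hA : 0 < A)
    (hAV : A < aF (2 * j) * ((1 / 2) ^ (4 * j ^ 2) * volE (j ^ 2)))
    (hKV : aF (2 * j) * ((1 / 2) ^ (4 * j ^ 2) * volN (j ^ 2)) < K) (hx : 0 < x) (hx2 : x < 1 / 4) :
    ∀ᶠ U : ℝ in atTop, ∀ T : ℝ, 0 ≤ T → T ≤ hmax x B U / 2 →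
    (A ^ 2 / K) * ((1 - x) ^ 4 * (1 - 2 * x) * (1 - 2 * x) ^ (4 * j ^ 2)) *
        (U * Real.log U ^ (4 * j ^ 2)) ≤
      ∫ t in T..(T + U), ‖riemannZeta (1 / 2 + t * Complex.I)‖ ^ (4 * j) := by
  set m : ℕ := 4 * j ^ 2 with hm
  have hj0 : (0:ℝ) < j := by exact_mod_cast hj
  have hB0 : 0 < B := by linarith
  obtain ⟨K', hK'1, hK'2⟩ := exists_between hKV
  have hvol : 0 < volN (j ^ 2) := by unfold volN; positivity
  have haF : 0 < aF (2 * (j:ℝ)) := aF_pos (by positivity)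
  have hK'0 : 0 < K' := lt_trans (by positivity) hK'1
  have hK0 : 0 < K := lt_trans hK'0 hK'2
  have hYt : Tendsto (fun T : ℝ => Real.log (Yt x T)) atTop atTop :=
    Yt_tendsto (η := x) (by linarith)
  have hE := hYt.eventually (h4 j A hj hAV)
  have hN := hYt.eventually (h5 j K' hj hK'1)
  have hL1 : ∀ᶠ T : ℝ in atTop, 3 / (x * A) ≤ Real.log (Yt x T) ^ m :=
    ((tendsto_pow_atTop (by positivity)).comp hYt).eventually_ge_atTop _
  have hL2 : ∀ᶠ T : ℝ in atTop, 1 / (K - K') ≤ Real.log (Yt x T) ^ m :=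
    ((tendsto_pow_atTop (by positivity)).comp hYt).eventually_ge_atTop _
  filter_upwards [winNK j x x B hB hx (by linarith) hx (by linarith),
    winCK j x x B (by linarith) hx (by linarith) hx (by linarith),
    winVK j x x B (by linarith) hx (by linarith) hx (by linarith), hE, hN, hL1, hL2, eventually_gt_atTop 1,
    hYt.eventually_gt_atTop 0, eventually_ge_atTop 2, evhmax x B hx hB0]
    with T hT1 hT2 hT3 hT4 hT5 hT6 hT7 hT8 hT9 hT10 hT11 T0 hT00 hT0N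
  have hT0 : 0 < T := by linarith
  have hH0 : 0 < Ht x T := Real.rpow_pos_of_pos hT0 _
  have hY0 : 0 < Yt x T := Real.rpow_pos_of_pos hT0 _
  have hX : Real.exp (1 / 2 * Real.log (Yt x T)) = Yt x T ^ (1 / 2 : ℝ) := by
    rw [Real.rpow_def_of_pos hY0, mul_comm]
  rw [hX] at hT4 hT5
  set L := Real.log (Yt x T) with hL
  set X := Yt x T ^ (1 / 2 : ℝ) with hXd
  set E := EE j X with hEd
  set Q := N4 j X with hQd
  have hxA : 3 ≤ x * (A * L ^ m) := by
    rw [div_le_iff₀ (by positivity)] at hT6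
    linarith
  have hKK : 1 ≤ (K - K') * L ^ m := by
    rw [div_le_iff₀ (by linarith)] at hT7
    linarith
  have hAL : 0 ≤ A * L ^ m := by positivity
  have hAL3 : 3 ≤ A * L ^ m := by nlinarith
  have hE3 : 3 ≤ E := le_trans hAL3 hT4
  have hQ0 : 0 ≤ Q := by
    rw [hQd]; unfold N4
    refine sum_nonneg fun a _ => sum_nonneg fun b _ => sum_nonneg fun c _ => sum_nonneg fun d _ => ?_
    split_ifs
    · have h1 := dv_nonneg hj0.le a
      have h2 := dv_nonneg hj0.le b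
      have h3 := dv_nonneg hj0.le c
      have h4 := dv_nonneg hj0.le d
      positivity
    · exact le_rfl
  have hQ1 : Q + 1 ≤ K * L ^ m := by linarith
  set J := (A * ((1 - x) * L ^ m)) ^ 2 / (K * L ^ m) with hJ
  have hwin0 : ∀ τ ∈ Set.Icc (x * T) ((1 - x) * T), J ≤
      ∫ t in ((T0 + τ) - x / 2 * T)..((T0 + τ) + x / 2 * T),
        ‖riemannZeta (1 / 2 + t * Complex.I)‖ ^ (4 * (j:ℝ)) * gv (x / 4 * T) B (T0 + τ) (Ht x T) t := by
    intro τ hτ
    have hτ1 : x * T ≤ T0 + τ := by linarith [hτ.1]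
    have hτ2 : T0 + τ ≤ hmax x B T := by
      have e1 := hτ.2
      have e2 : (1 - x) * T ≤ T := by nlinarith
      linarith
    have h := window_holder_real 1 (fun _ => 2) (fun i => by norm_num) j (4 * (j:ℝ)) hj (by positivity)
      (by simp; field_simp; norm_num)
      (fun t => riemannZeta (cl t)) (CC j X) (fun _ => VV j X)
      (by unfold cl; exact zeta_line_continuous) (CC_continuous _ _) (fun i => VV_continuous _ _)
      (gv (x / 4 * T) B (T0 + τ) (Ht x T)) (gv_continuous _ _ _ _) (fun t => gv_nonneg _ _ _ _ _ hH0)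
      ((T0 + τ) - x / 2 * T) ((T0 + τ) + x / 2 * T) (by nlinarith) (E - 1) (E + 1) (fun _ => Q + 1)
      (by linarith) (by linarith) (fun _ => by linarith)
      (by simpa using hT1 (T0 + τ) hτ1 hτ2)
      (hT2 (T0 + τ) hτ1 hτ2)
      (fun i => hT3 (T0 + τ) hτ1 hτ2)
    refine le_trans ?_ h
    have e1 : 4 * (j:ℝ) / j = 4 := by field_simp
    rw [e1]
    simp only [Finset.univ_unique, Finset.prod_singleton, Nat.cast_ofNat]
    have e2 : (1:ℝ) / (2 * 2) = 1 / 4 := by norm_num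
    rw [e2]
    have := alg_low (E := E) (K0 := Q + 1) (A' := A * ((1 - x) * L ^ m)) (B := K * L ^ m) hE3
      (by have : 0 ≤ 1 - x := by linarith
          positivity) (by nlinarith) (by linarith) hQ1
    exact this
  have hwin : ∀ τ ∈ Set.Icc (x * T) ((1 - x) * T), J ≤
      ∫ t in (τ - x / 2 * T)..(τ + x / 2 * T),
        ‖riemannZeta (1 / 2 + ((T0 + t : ℝ) : ℂ) * Complex.I)‖ ^ (4 * (j:ℝ)) * gv (x / 4 * T) B τ (Ht x T) t := by
    intro τ hτ
    refine (hwin0 τ hτ).trans (le_of_eq ?_)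
    have e1 := intervalIntegral.integral_comp_add_left (a := τ - x / 2 * T) (b := τ + x / 2 * T)
      (fun s : ℝ => ‖riemannZeta (1 / 2 + s * Complex.I)‖ ^ (4 * (j:ℝ)) * gv (x / 4 * T) B (T0 + τ) (Ht x T) s) T0
    rw [show T0 + (τ - x / 2 * T) = (T0 + τ) - x / 2 * T by ring,
      show T0 + (τ + x / 2 * T) = (T0 + τ) + x / 2 * T by ring] at e1
    rw [← e1]
    refine intervalIntegral.integral_congr fun t _ => ?_
    show _ * gv (x / 4 * T) B (T0 + τ) (Ht x T) (T0 + t) = _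
    rw [gv_shift]
  have hfin := window_sum
    (fun t => ‖riemannZeta (1 / 2 + ((T0 + t : ℝ) : ℂ) * Complex.I)‖ ^ (4 * (j:ℝ)))
    ((zeta_line_continuous.comp (continuous_const.add continuous_id)).norm.rpow_const
      fun _ => Or.inr (by positivity)) (fun t => by positivity)
    (fun τ t => gv (x / 4 * T) B τ (Ht x T) t) (gv_cont2 _ _ _) (fun τ t => gv_nonneg _ _ _ _ _ hH0)
    (fun t => gv_lint _ _ _ _ hH0)
    T (x * T) ((1 - x) * T) (x / 2 * T) J (by nlinarith) (by positivity) (by nlinarith)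
    (by nlinarith) (by positivity) hwin
  have hconv : (∫ t in (0:ℝ)..T,
        ‖riemannZeta (1 / 2 + ((T0 + t : ℝ) : ℂ) * Complex.I)‖ ^ (4 * (j:ℝ)))
      = ∫ t in T0..(T0 + T), ‖riemannZeta (1 / 2 + t * Complex.I)‖ ^ (4 * j) := by
    have e1 := intervalIntegral.integral_comp_add_left (a := 0) (b := T)
      (fun s : ℝ => ‖riemannZeta (1 / 2 + s * Complex.I)‖ ^ (4 * j)) T0
    rw [add_zero] at e1
    rw [← e1]
    refine intervalIntegral.integral_congr fun t _ => ?_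
    show ‖riemannZeta (1 / 2 + ((T0 + t : ℝ) : ℂ) * Complex.I)‖ ^ (4 * (j:ℝ)) = _
    rw [show (4 * (j:ℝ)) = ((4 * j : ℕ) : ℝ) by push_cast; ring, Real.rpow_natCast]
  rw [hconv] at hfin
  refine le_trans ?_ hfin
  have hlog : L = (1 - 2 * x) * Real.log T := by
    rw [hL]
    unfold Yt
    rw [Real.log_rpow hT0]
  have hLm : 0 < L ^ m := by positivity
  have eJ : J = A ^ 2 / K * ((1 - x) ^ 2 * L ^ m) := by
    rw [hJ]
    field_simp
  rw [eJ]
  have e3 : A ^ 2 / K * ((1 - x) ^ 4 * (1 - 2 * x) * (1 - 2 * x) ^ m) * (T * Real.log T ^ m)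
      = (1 - 2 * x) * T * (A ^ 2 / K * ((1 - x) ^ 4 * L ^ m)) := by
    rw [hlog, mul_pow]
    ring
  rw [e3]
  have e4 : (1 - x) * T - x * T = (1 - 2 * x) * T := by ring
  rw [e4]
  have h12 : 0 ≤ (1 - 2 * x) * T := by
    have : 0 ≤ 1 - 2 * x := by linarith
    positivity
  refine mul_le_mul_of_nonneg_left ?_ h12
  refine mul_le_mul_of_nonneg_left ?_ (by positivity)
  refine mul_le_mul_of_nonneg_right ?_ hLm.le
  exact pow_le_pow_of_le_one (by linarith) (by linarith) (by norm_num)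


theorem mainKL_of (h4 : EElow) (h5 : N4up) (h2 : H295MK.Const) (j : ℕ) (c : ℝ) (hj : 1 ≤ j)
    (hc : c < aF (2 * j) / ((4 * j ^ 2).factorial : ℝ) *
    ((1 / 2) ^ (4 * j ^ 2) * ((4 * j ^ 2).choose (j ^ 2) : ℝ) ^ 2)) :
    ∃ C : ℝ, 0 < C ∧ ∀ᶠ T : ℝ in atTop, ∀ U : ℝ, C * Real.log (Real.log T) ≤ U →
      c * (U * Real.log U ^ (4 * j ^ 2)) ≤
        ∫ t in T..(T + U), ‖riemannZeta (1 / 2 + t * Complex.I)‖ ^ (4 * j) := by
  have hj0 : (0:ℝ) < j := by exact_mod_cast hj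
  have haF : 0 < aF (2 * (j : ℝ)) := aF_pos (by positivity)
  rw [← h2 j hj] at hc
  set E0 := aF (2 * (j : ℝ)) * ((1 / 2) ^ (4 * j ^ 2) * volE (j ^ 2)) with hE
  set N0 := aF (2 * (j : ℝ)) * ((1 / 2) ^ (4 * j ^ 2) * volN (j ^ 2)) with hN
  have hE0 : 0 < E0 := by
    have := volE_pos (j ^ 2)
    positivity
  have hN0 : 0 < N0 := by
    have := volN_pos (j ^ 2)
    positivity
  set f : ℝ → ℝ := fun x => (((1 - x) * E0) ^ 2 / ((1 + x) * N0)) *
    ((1 - x) ^ 4 * (1 - 2 * x) * (1 - 2 * x) ^ (4 * j ^ 2)) with hf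
  have hf0 : f 0 = E0 ^ 2 / N0 := by
    rw [hf]
    simp
  have hlim : Tendsto f (𝓝[>] 0) (𝓝 (f 0)) := by
    have h3 : ContinuousAt f 0 := by
      rw [hf]
      refine ContinuousAt.mul (ContinuousAt.div (by fun_prop) (by fun_prop) ?_) (by fun_prop)
      simp only [add_zero, one_mul]
      exact hN0.ne'
    exact h3.tendsto.mono_left nhdsWithin_le_nhds
  rw [hf0] at hlim
  obtain ⟨x, hxc, hx0, hx4⟩ := ((hlim.eventually_const_lt hc).and
    (Ioo_mem_nhdsGT (by norm_num : (0:ℝ) < 1 / 4))).exists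
  have hmain := fixedK h4 h5 j ((j:ℝ) + 3) ((1 - x) * E0) ((1 + x) * N0) x le_rfl hj (mul_pos (by linarith) hE0)
    (by
      rw [← hE]
      nlinarith)
    (by
      rw [← hN]
      nlinarith) hx0 hx4
  obtain ⟨C, hC, hfin⟩ := final_ev (c1 := x / (16 * ((j:ℝ) + 3))) (by positivity) hmain
  refine ⟨C, hC, ?_⟩
  filter_upwards [hfin] with T h1 U hU
  obtain ⟨hT, hU1⟩ := h1 U hU
  refine le_trans ?_ hT
  have hlog : 0 ≤ Real.log U := Real.log_nonneg hU1
  have : 0 ≤ U * Real.log U ^ (4 * j ^ 2) := by positivity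
  exact mul_le_mul_of_nonneg_right hxc.le this

/-- the constants `2^{-h²} binom(h², h²/4)²`, `h = 2j` -/
theorem mainKL (j : ℕ) (c : ℝ) (hj : 1 ≤ j)
    (hc : c < aF (2 * j) / ((4 * j ^ 2).factorial : ℝ) *
    ((1 / 2) ^ (4 * j ^ 2) * ((4 * j ^ 2).choose (j ^ 2) : ℝ) ^ 2)) :
    ∃ C : ℝ, 0 < C ∧ ∀ᶠ T : ℝ in atTop, ∀ U : ℝ, C * Real.log (Real.log T) ≤ U →
      c * (U * Real.log U ^ (4 * j ^ 2)) ≤
        ∫ t in T..(T + U), ‖riemannZeta (1 / 2 + t * Complex.I)‖ ^ (4 * j) := by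
  have hA4 : H295MK.Kar4 := H55MK.kar4 Pool.Agent.H835R2.MK_A1.main Pool.Agent.H143R2.MK_A2.lw4
    Pool.Agent.H757R2.MKA3.loc4
  have hS1 : EElow := H388MK.ee_low hA4 H408MKA5.eEsum_done H408MKV1.volE_done
  have hS2 : N4up := H399R2.MKS2.N4up_proof hA4 Pool.Agent.H885R2.MKA6.A6
    Pool.Agent.H950R2.MK_V2.VolN_ok
  exact mainKL_of hS1 hS2 Pool.Agent.H640R2.MK.const_holds j c hj hc


end

end

end Pool.Agent.K7.H50.LL
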