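import Pool.Agent.K7.H50.LL.Win
import Pool.Agent.TH535.MasterX
import Pool.Agent.H295R2.LM.Nat

set_option autoImplicit false
set_option linter.unusedSectionVars false

/-! The master lower bounds in all intervals `[T, T + U]` with `U ≥ C log log T`. -/

namespace Pool.Agent.K7.H50.LL

open Finset Filter Topology MeasureTheory
open Pool.Agent.H306R2 hiding fr wt

noncomputable section

lemma gv_lint (ρ B H t : ℝ) (hH : 0 < H) : ∫⁻ τ, ENNReal.ofReal (gv ρ B τ H t) ≤ 1 := by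
  calc ∫⁻ τ, ENNReal.ofReal (gv ρ B τ H t) ≤ ∫⁻ τ, ENNReal.ofReal (gw t H τ) := by
        refine lintegral_mono fun τ => ENNReal.ofReal_le_ofReal ?_
        rw [← gw_symm]
        exact gv_le _ _ _ _ _ hH
    _ = 1 := by
        rw [← ofReal_integral_eq_lintegral_ofReal (gw_integrable _ _ hH)
          (Eventually.of_forall fun τ => gw_nonneg _ _ _ hH), gw_integral _ _ hH]
        simp

lemma evhmax (x B : ℝ) (hx : 0 < x) (hB : 0 < B) : ∀ᶠ T : ℝ in atTop, T ≤ hmax x B T / 2 := by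
  have hc : 0 < x / (16 * B) := by positivity
  have h1 : Tendsto (fun T : ℝ => x / (16 * B) * T) atTop atTop := tendsto_id.const_mul_atTop hc
  have h2 := (Real.tendsto_exp_div_pow_atTop 1).comp h1
  have h3 : ∀ᶠ y : ℝ in atTop, 2 * y ≤ Real.exp y := by
    filter_upwards [eventually_ge_atTop 2] with y hy
    have := Real.quadratic_le_exp_of_nonneg (by linarith : 0 ≤ y)
    nlinarith
  have h4 : Tendsto (fun T : ℝ => Real.exp (x / (16 * B) * T)) atTop atTop := Real.tendsto_exp_atTop.comp h1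
  filter_upwards [h2.eventually_ge_atTop (1 / (x / (16 * B))), h4.eventually h3, eventually_gt_atTop 0] with T g1 g2 g3
  simp only [Function.comp, pow_one] at g1
  rw [le_div_iff₀ (by positivity)] at g1
  have e1 : 1 / (x / (16 * B)) * (x / (16 * B) * T) = T := by field_simp
  rw [e1] at g1
  unfold hmax
  linarith

lemma final_ev {c1 : ℝ} (hc1 : 0 < c1) {P : ℝ → ℝ → Prop}
    (h : ∀ᶠ U : ℝ in atTop, ∀ T : ℝ, 0 ≤ T → T ≤ Real.exp (Real.exp (c1 * U)) / 2 → P U T) :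
    ∃ C : ℝ, 0 < C ∧ ∀ᶠ T : ℝ in atTop, ∀ U : ℝ, C * Real.log (Real.log T) ≤ U → P U T ∧ 1 ≤ U := by
  refine ⟨2 / c1, by positivity, ?_⟩
  obtain ⟨U0, hU0⟩ := eventually_atTop.1 h
  have hll : Tendsto (fun T : ℝ => Real.log (Real.log T)) atTop atTop :=
    Real.tendsto_log_atTop.comp Real.tendsto_log_atTop
  have hCll : Tendsto (fun T : ℝ => 2 / c1 * Real.log (Real.log T)) atTop atTop :=
    hll.const_mul_atTop (by positivity)
  filter_upwards [hCll.eventually_ge_atTop U0, hCll.eventually_ge_atTop 1,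
    Real.tendsto_log_atTop.eventually_ge_atTop 2, eventually_gt_atTop 0] with T h1 h2 h3 h4 U hU
  refine ⟨hU0 U (h1.trans hU) T h4.le ?_, h2.trans hU⟩
  have e1 : 2 * Real.log (Real.log T) ≤ c1 * U := by
    have := mul_le_mul_of_nonneg_left hU hc1.le
    calc 2 * Real.log (Real.log T) = c1 * (2 / c1 * Real.log (Real.log T)) := by field_simp
      _ ≤ _ := this
  have e2 : Real.log T ^ 2 ≤ Real.exp (c1 * U) := by
    calc Real.log T ^ 2 = Real.exp (2 * Real.log (Real.log T)) := by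
          rw [mul_comm, Real.exp_mul, Real.exp_log (by linarith), Real.rpow_two]
      _ ≤ _ := Real.exp_le_exp.mpr e1
  have e4 : Real.log T + Real.log 2 ≤ Real.log T ^ 2 := by
    have := Real.log_two_lt_d9
    nlinarith
  have e5 : T * 2 = Real.exp (Real.log T + Real.log 2) := by
    rw [Real.exp_add, Real.exp_log h4, Real.exp_log (by norm_num)]
  rw [le_div_iff₀ (by norm_num), e5]
  exact Real.exp_le_exp.mpr (e4.trans e2)

section
open Pool.Agent.TH535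

/-- lower bound with fixed parameters -/
theorem lower_fixedNL {n : ℕ} (κ : ℝ) (hκ0 : 0 < κ) (J : ℕ) (hJ : κ ≤ J) (B : ℝ) (j : ℕ) (hB : (j:ℝ) + J + 3 ≤ B) (q : Fin n → ℕ) (β : Fin n → ℝ)
    (hA : AdmN κ j q β) (N S : ℝ) (K : Fin n → ℝ) (hN : 0 < N)
    (hNV : N < aF κ * VL j (fun a => κ / q a) (1 - ∑ a, β a) β)
    (hSV : aF κ * Vn j (κ - j) (1 - ∑ a, β a) (∑ a, β a) < S)
    (hKV : ∀ i, aF κ * ((β i) ^ (κ ^ 2 / q i) /
        Real.Gamma (κ ^ 2 / q i + 1)) ^ (q i) < K i)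
    (x : ℝ) (hx : 0 < x) (hx2 : x < 1 / 4) :
    ∀ᶠ T : ℝ in atTop, ∀ T0 : ℝ, 0 ≤ T0 → T0 ≤ hmax x B T / 2 →
      (N / (S ^ (1 / 2 : ℝ) * ∏ i, K i ^ (1 / (2 * (q i : ℝ))))) ^ (2 * κ / (j:ℝ)) *
        ((1 - 2 * x) * (1 - 2 * x) ^ (κ ^ 2)) * (T * Real.log T ^ (κ ^ 2)) ≤
      ∫ t in T0..(T0 + T), ‖riemannZeta (1 / 2 + t * Complex.I)‖ ^ (2 * κ) := by
  have hj0 := hA.j0
  have hq0 := hA.q0
  have hα0 := hA.α0 hκ0
  have hθ0 := hA.θ0
  have hi0 := hA.i0 hκ0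
  have hei := hA.eie hκ0
  have he := hA.e0 hκ0
  have hjk := hA.jk hκ0
  have hji : (j : ℝ) + ei (fun a => κ / (q a : ℝ)) = κ := by rw [hei]; ring
  have hji2 : (j : ℝ) + (κ - j) = κ := by ring
  have hVn0 : 0 < Vn j (κ - j) (1 - ∑ a, β a) (∑ a, β a) :=
    VL_pos hA.hj (fun _ => hi0) one_pos hα0 (fun _ => hθ0)
  have hS0 : 0 < S := lt_trans (mul_pos (aF_pos hκ0) hVn0) hSV
  have hV0 : ∀ i, 0 < (β i) ^ (κ ^ 2 / q i) / Real.Gamma (κ ^ 2 / q i + 1) := fun i => by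
    have h1 := hA.hβ i
    have h2 := hq0 i
    have h3 := Real.Gamma_pos_of_pos (by positivity : 0 < κ ^ 2 / q i + 1)
    positivity
  have hK0 : ∀ i, 0 < K i := fun i =>
    lt_trans (mul_pos (aF_pos hκ0) (pow_pos (hV0 i) _)) (hKV i)
  have hκe : ∀ i, κ * (κ / (q i : ℝ)) = κ ^ 2 / q i := fun i => by ring
  have hqe : ∀ i, (q i : ℝ) * (κ / (q i : ℝ)) = κ := fun i => by
    have := hq0 i
    field_simp
  have hJ0 : (0:ℝ) ≤ J := Nat.cast_nonneg J
  have hB0 : 0 < B := by linarith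
  have hEN := N_winL hA.hj (fun i => κ / (q i : ℝ)) he hA.hn (1 - ∑ a, β a) hα0 β hA.hβ (by linarith) N
    (by rw [hji]; exact hNV) x x B (by linarith) hx (by linarith) hx (by linarith)
  have hES := C_winL hA.hj hi0 (1 - ∑ a, β a) hα0 (∑ a, β a) hθ0 (by linarith) S
    (by rw [hji2]; exact hSV) x x B (by linarith) hx (by linarith) hx (by linarith)
  rw [hji, hei] at hEN
  rw [hji2] at hES
  have hEK : ∀ i, ∀ᶠ T : ℝ in atTop, ∀ τ : ℝ, x * T ≤ τ → τ ≤ hmax x B T →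
      ∫ t in (τ - x / 2 * T)..(τ + x / 2 * T),
        ‖Dp (tr (dA (κ / (q i : ℝ))) (Yt x T ^ β i)) (Yt x T ^ β i) (1 / 2 + t * Complex.I)‖ ^ (2 * q i) *
          gv (x / 4 * T) B τ (Ht x T) t ≤ K i * Real.log (Yt x T) ^ (κ ^ 2) := by
    intro i
    have h := K_winL (κ / (q i : ℝ)) (he i) (q i) (by linarith [hA.hq i]) (β i) (hA.hβ i) (by
      have := hA.hβq i
      rwa [le_div_iff₀ (hq0 i)] at this) (K i) (by
      rw [hqe, hκe]
      exact hKV i) x x B J (by rw [hqe]; exact hJ) (by linarith) hx (by linarith) hx (by linarith)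
    rw [hqe] at h
    exact h
  have hEK' := eventually_all.mpr hEK
  filter_upwards [hEN, hES, hEK', eventually_gt_atTop 1, (Yt_tendsto (η := x) (by linarith)).eventually_gt_atTop 0,
      evhmax x B hx hB0] with T hT1 hT2 hT3 hT4 hT5 hT6 T0 hT00 hT0N
  have hT0 : 0 < T := by linarith
  have hH0 : 0 < Ht x T := Real.rpow_pos_of_pos hT0 _
  set Λ := Real.log (Yt x T) ^ (κ ^ 2) with hΛ
  have hΛ0 : 0 < Λ := Real.rpow_pos_of_pos hT5 _
  set D := (N / (S ^ (1 / 2 : ℝ) * ∏ i, K i ^ (1 / (2 * (q i : ℝ))))) ^ (2 * κ / (j:ℝ)) with hD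
  have hD0 : 0 ≤ D := by
    have : 0 < S ^ (1 / 2 : ℝ) * ∏ i, K i ^ (1 / (2 * (q i : ℝ))) :=
      mul_pos (by positivity) (prod_pos fun i _ => Real.rpow_pos_of_pos (hK0 i) _)
    positivity
  have hwin0 : ∀ τ ∈ Set.Icc (x * T) ((1 - x) * T), D * Λ ≤
      ∫ t in ((T0 + τ) - x / 2 * T)..((T0 + τ) + x / 2 * T),
        ‖riemannZeta (1 / 2 + t * Complex.I)‖ ^ (2 * κ) * gv (x / 4 * T) B (T0 + τ) (Ht x T) t := by
    intro τ hτ
    have hτ1 : x * T ≤ T0 + τ := by linarith [hτ.1]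
    have hτ2 : T0 + τ ≤ hmax x B T := by
      have e1 := hτ.2
      have e2 : (1 - x) * T ≤ T := by nlinarith
      linarith
    have h := window_holder_real n q (fun i => by linarith [hA.hq i]) j (2 * κ) hA.hj (by positivity) hjk
      (fun t => riemannZeta (1 / 2 + t * Complex.I))
      (fun t => Ct j (κ - j) (Yt x T ^ (1 - ∑ a, β a)) (Yt x T ^ (∑ a, β a)) t)
      (fun i t => (starRingEnd ℂ) (Dp (tr (dA (κ / (q i : ℝ))) (Yt x T ^ β i)) (Yt x T ^ β i)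
        (1 / 2 + t * Complex.I)))
      zeta_line_continuous (by
        unfold Ct
        exact continuous_finsetSum _ fun b _ => continuous_const.mul (fr_cont _ _))
      (fun i => Complex.continuous_conj.comp (Dp_line_continuous _ _))
      (gv (x / 4 * T) B (T0 + τ) (Ht x T)) (gv_continuous _ _ _ _) (fun t => gv_nonneg _ _ _ _ _ hH0)
      ((T0 + τ) - x / 2 * T) ((T0 + τ) + x / 2 * T) (by nlinarith) (N * Λ) (S * Λ) (fun i => K i * Λ)
      (by positivity) (by positivity) (fun i => mul_pos (hK0 i) hΛ0)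
      (hT1 (T0 + τ) hτ1 hτ2)
      (hT2 (T0 + τ) hτ1 hτ2)
      (fun i => by
        have := hT3 i (T0 + τ) hτ1 hτ2
        simp only [RCLike.norm_conj]
        exact this)
    rw [pullR q j (2 * κ) hA.hj (by positivity) hjk N S K Λ hN hS0 hK0 hΛ0] at h
    exact h
  have hwin : ∀ τ ∈ Set.Icc (x * T) ((1 - x) * T), D * Λ ≤
      ∫ t in (τ - x / 2 * T)..(τ + x / 2 * T),
        ‖riemannZeta (1 / 2 + ((T0 + t : ℝ) : ℂ) * Complex.I)‖ ^ (2 * κ) * gv (x / 4 * T) B τ (Ht x T) t := by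
    intro τ hτ
    refine (hwin0 τ hτ).trans (le_of_eq ?_)
    have e1 := intervalIntegral.integral_comp_add_left (a := τ - x / 2 * T) (b := τ + x / 2 * T)
      (fun s : ℝ => ‖riemannZeta (1 / 2 + s * Complex.I)‖ ^ (2 * κ) * gv (x / 4 * T) B (T0 + τ) (Ht x T) s) T0
    rw [show T0 + (τ - x / 2 * T) = (T0 + τ) - x / 2 * T by ring,
      show T0 + (τ + x / 2 * T) = (T0 + τ) + x / 2 * T by ring] at e1
    rw [← e1]
    refine intervalIntegral.integral_congr fun t _ => ?_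
    show _ * gv (x / 4 * T) B (T0 + τ) (Ht x T) (T0 + t) = _
    rw [gv_shift]
  have hfin := window_sum
    (fun t => ‖riemannZeta (1 / 2 + ((T0 + t : ℝ) : ℂ) * Complex.I)‖ ^ (2 * κ))
    ((zeta_line_continuous.comp (continuous_const.add continuous_id)).norm.rpow_const
      fun _ => Or.inr (by positivity)) (fun t => by positivity)
    (fun τ t => gv (x / 4 * T) B τ (Ht x T) t) (gv_cont2 _ _ _) (fun τ t => gv_nonneg _ _ _ _ _ hH0)
    (fun t => gv_lint _ _ _ _ hH0)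
    T (x * T) ((1 - x) * T) (x / 2 * T) (D * Λ) (by nlinarith) (by positivity) (by nlinarith)
    (by nlinarith) (by positivity) hwin
  have hconv : (∫ t in (0:ℝ)..T,
        ‖riemannZeta (1 / 2 + ((T0 + t : ℝ) : ℂ) * Complex.I)‖ ^ (2 * κ))
      = ∫ t in T0..(T0 + T), ‖riemannZeta (1 / 2 + t * Complex.I)‖ ^ (2 * κ) := by
    have e1 := intervalIntegral.integral_comp_add_left (a := 0) (b := T)
      (fun s : ℝ => ‖riemannZeta (1 / 2 + s * Complex.I)‖ ^ (2 * κ)) T0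
    rw [add_zero] at e1
    rw [← e1]
  rw [hconv] at hfin
  refine le_trans (le_of_eq ?_) hfin
  have hlog : Real.log (Yt x T) = (1 - 2 * x) * Real.log T := by
    unfold Yt
    rw [Real.log_rpow hT0]
  rw [hΛ, hlog, Real.mul_rpow (by linarith) (Real.log_nonneg hT4.le)]
  ring

/-- **Master lower bound.** -/
theorem masterNL {n : ℕ} (κ : ℝ) (hκ0 : 0 < κ) (j : ℕ) (q : Fin n → ℕ) (β : Fin n → ℝ)
    (hA : AdmN κ j q β) (c : ℝ) (hc : c < aF κ * MN κ j q β) :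
    ∃ A : ℝ, 0 < A ∧ ∀ᶠ T : ℝ in atTop, ∀ U : ℝ, A * Real.log (Real.log T) ≤ U →
      c * (U * Real.log U ^ (κ ^ 2)) ≤
        ∫ t in T..(T + U), ‖riemannZeta (1 / 2 + t * Complex.I)‖ ^ (2 * κ) := by
  have hj0 := hA.j0
  have hq0 := hA.q0
  have hα0 := hA.α0 hκ0
  have hθ0 := hA.θ0
  have hi0 := hA.i0 hκ0
  have he := hA.e0 hκ0
  have hjk := hA.jk hκ0
  set a := aF κ with ha
  have ha0 : 0 < a := aF_pos hκ0
  set V : Fin n → ℝ := fun i => (β i) ^ (κ ^ 2 / q i) / Real.Gamma (κ ^ 2 / q i + 1) with hV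
  have hV0 : ∀ i, 0 < V i := fun i => by
    have h1 := hA.hβ i
    have h2 := hq0 i
    have h3 := Real.Gamma_pos_of_pos (by positivity : 0 < κ ^ 2 / q i + 1)
    rw [hV]
    positivity
  have hPV : 0 < ∏ i, V i := prod_pos fun i _ => hV0 i
  set VN := VL j (fun a => κ / (q a : ℝ)) (1 - ∑ a, β a) β with hVN
  have hVN0 : 0 < VN := VL_pos hA.hj he hA.hn hα0 hA.hβ
  set VS := Vn j (κ - j) (1 - ∑ a, β a) (∑ a, β a) with hVS
  have hVS0 : 0 < VS := VL_pos hA.hj (fun _ => hi0) one_pos hα0 (fun _ => hθ0)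
  have hconst : ((a * VN) / ((a * VS) ^ (1 / 2 : ℝ) * ∏ i, (a * V i ^ (q i)) ^ (1 / (2 * (q i : ℝ))))) ^
      (2 * κ / (j:ℝ)) = a * MN κ j q β := by
    have h := const_eqR q hA.hq j (2 * κ) hA.hj (by positivity) hjk a ha0 V hV0 1 0 (1 / VS)
      ((∏ i, V i) / VN) one_pos (by positivity) (by positivity)
    have e1 : (∏ i, V i) * (1 ^ (0 : ℝ) / ((∏ i, V i) / VN)) = VN := by
      rw [Real.one_rpow]
      field_simp
    have e2 : a / (1 / VS) = a * VS := by field_simp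
    rw [e1, e2] at h
    rw [h]
    unfold MN
    have e3 : ∏ a, (β a ^ (κ ^ 2 / q a) / Real.Gamma (κ ^ 2 / q a + 1)) = ∏ i, V i := rfl
    rw [e3, ← hVN, ← hVS, mul_zero, Real.one_rpow, show 2 * κ / 2 / (j:ℝ) = κ / j by ring]
    congr 2
    field_simp
  rw [← hconst] at hc
  obtain ⟨x, hx0, hx4, hxc⟩ := perturb q κ _ _ _ _ (mul_pos ha0 hVN0) (mul_pos ha0 hVS0)
    (fun i => mul_pos ha0 (pow_pos (hV0 i) _)) c hc
  obtain ⟨J, hJ⟩ := exists_nat_ge κ
  set B : ℝ := (j:ℝ) + J + 3 with hBd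
  have hB0 : 0 < B := by positivity
  have hmain := lower_fixedNL κ hκ0 J hJ B j le_rfl q β hA ((1 - x) * (a * VN)) ((1 + x) * (a * VS))
    (fun i => (1 + x) * (a * V i ^ (q i))) (mul_pos (by linarith) (mul_pos ha0 hVN0))
    (by
      have h0 := mul_pos ha0 hVN0
      have : (1 - x) * (a * VN) < a * VN := by nlinarith
      exact this)
    (by
      have h0 := mul_pos ha0 hVS0
      have : a * VS < (1 + x) * (a * VS) := by nlinarith
      exact this)
    (fun i => by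
      have h1 : 0 < a * V i ^ (q i) := mul_pos ha0 (pow_pos (hV0 i) _)
      have : a * V i ^ (q i) < (1 + x) * (a * V i ^ (q i)) := by nlinarith
      exact this) x hx0 hx4
  obtain ⟨C, hC, hfin⟩ := final_ev (c1 := x / (16 * B)) (by positivity) hmain
  refine ⟨C, hC, ?_⟩
  filter_upwards [hfin] with T h1 U hU
  obtain ⟨hT, hU1⟩ := h1 U hU
  refine le_trans ?_ hT
  have hlog : 0 ≤ Real.log U := Real.log_nonneg hU1
  have : 0 ≤ U * Real.log U ^ (κ ^ 2) := by positivity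
  exact mul_le_mul_of_nonneg_right hxc.le this

end

/-- the window integral of the numerator -/
theorem N_windowXL {n : ℕ} (j : ℕ) (hj : 1 ≤ j) (e : Fin n → ℝ) (he : ∀ i, 0 < e i) (κ : ℝ)
    (hκ : κ = j + ∑ i, e i) (β : Fin n → ℝ) (hβ : ∀ i, 0 < β i) (hβs : ∑ i, β i ≤ 1)
    (hm0 : 1 ≤ κ * j) (c : ℝ)
    (hc : c < aF κ * ((∏ i : Fin n, (β i) ^ (κ * e i) / Real.Gamma (κ * e i + 1)) *
      ((1 - ∑ i : Fin n, β i * (κ * e i / (κ * e i + 1))) ^ (κ * j) / Real.Gamma (κ * j + 1))))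
    (η δ B : ℝ) (J : ℕ) (hJ : κ ≤ J) (hB : (j:ℝ) + J + 3 ≤ B) (hη : 0 < η) (hη2 : η < 1 / 2) (hδ : 0 < δ) (hδ1 : δ ≤ 1) :
    ∀ᶠ T : ℝ in atTop, ∀ τ : ℝ, δ * T ≤ τ → τ ≤ hmax δ B T →
      c * Real.log (Yt η T) ^ (κ ^ 2) ≤
      ‖∫ t in (τ - δ / 2 * T)..(τ + δ / 2 * T), (riemannZeta (1 / 2 + t * Complex.I) ^ j *
          ∏ i, Dp (tr (dA (e i)) (Yt η T ^ β i)) (Yt η T ^ β i) (1 / 2 + t * Complex.I)) *
        (starRingEnd ℂ) (Dp (dA κ) (Yt η T) (1 / 2 + t * Complex.I)) * (gv (δ / 4 * T) B τ (Ht η T) t : ℂ)‖ := by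
  obtain ⟨c', hc1, hc2⟩ := exists_between hc
  have hκ0 : 0 < κ := by
    have h1 : 0 ≤ ∑ i, e i := sum_nonneg fun i _ => (he i).le
    have h2 : (0:ℝ) < j := by exact_mod_cast hj
    linarith
  have hN := N_sum j hj e he κ hκ β hβ hβs hm0 c' hc2 η hη2
  have hJ' : ∑ i, e i ≤ J := by
    have h2 : (0:ℝ) < j := by exact_mod_cast hj
    linarith
  have hcore := core_evL 0 j J η δ B (by push_cast; linarith) hη hη2 hδ hδ1
  have hbig : ∀ᶠ T : ℝ in atTop, 1 ≤ (c' - c) * Real.log (Yt η T) ^ (κ ^ 2) := by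
    have h1 : Tendsto (fun T : ℝ => (c' - c) * Real.log (Yt η T) ^ (κ ^ 2)) atTop atTop :=
      Tendsto.const_mul_atTop (by linarith)
        ((tendsto_rpow_atTop (by positivity)).comp (Yt_tendsto hη2))
    exact h1.eventually_ge_atTop 1
  filter_upwards [hN, hcore, hbig, eventually_ge_atTop 1] with T hT1 hT2 hT3 hT4 τ hτ1 hτ2
  have hT0 : 0 < T := by linarith
  set Y := Yt η T with hYdef
  have hY1 : 1 ≤ Y := one_le_Yt hη2 hT4
  have hYT : Y ≤ T := Yt_le hη hT4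
  have hXs : ∏ i, Y ^ β i ≤ Y := by
    rw [← Real.rpow_sum_of_pos (by linarith)]
    calc Y ^ (∑ i, β i) ≤ Y ^ (1:ℝ) := Real.rpow_le_rpow_of_exponent_le hY1 hβs
      _ = Y := Real.rpow_one Y
  have hD := fun s => Dp_prod univ (fun i => tr (dA (e i)) (Y ^ β i)) (fun i => Y ^ β i)
    (fun i => Real.one_le_rpow hY1 (hβ i).le) (fun i n hn => tr_supp _ _ n hn) s
  have hsupp : ∀ n : ℕ, T < n → PA e (fun i => Y ^ β i) n = 0 := fun n hn =>
    (hD 0).1 n (by linarith)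
  have h := hT2 τ hτ1 hτ2 (PA e (fun i => Y ^ β i)) (dA κ) (PA_PB (fun i => (he i).le) _ hJ')
    hsupp (PB_dA hκ0.le hJ)
  have hDp : ∀ s, Dp (PA e (fun i => Y ^ β i)) T s = ∏ i, Dp (tr (dA (e i)) (Y ^ β i)) (Y ^ β i) s := by
    intro s
    rw [Dp_mono (PA e (fun i => Y ^ β i)) (∏ i, Y ^ β i) T (by linarith) (hD s).1]
    exact (hD s).2
  simp only [hDp, pow_zero, div_one] at h
  have h2 := norm_sub_norm_le (((∑ m ∈ Icc 1 ⌊Y⌋₊, (zR ^ j * PA e (fun i => Y ^ β i)) m * dA κ m / m : ℝ) : ℂ))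
    (∫ t in (τ - δ / 2 * T)..(τ + δ / 2 * T), (riemannZeta (1 / 2 + t * Complex.I) ^ j *
          ∏ i, Dp (tr (dA (e i)) (Y ^ β i)) (Y ^ β i) (1 / 2 + t * Complex.I)) *
        (starRingEnd ℂ) (Dp (dA κ) Y (1 / 2 + t * Complex.I)) * (gv (δ / 4 * T) B τ (Ht η T) t : ℂ))
  rw [norm_sub_rev] at h2
  rw [Complex.norm_real] at h2
  have h3 := Real.le_norm_self (∑ m ∈ Icc 1 ⌊Y⌋₊, (zR ^ j * PA e (fun i => Y ^ β i)) m * dA κ m / m)
  linarith

/-- lower bound with fixed parameters -/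
theorem lower_fixedXL {n : ℕ} (κ : ℝ) (hκ0 : 0 < κ) (J : ℕ) (hJ : κ ≤ J) (B : ℝ) (j : ℕ) (hB : (j:ℝ) + J + 3 ≤ B) (q : Fin n → ℕ) (β : Fin n → ℝ) (hA : AdmR κ j q β)
    (N S : ℝ) (K : Fin n → ℝ) (hN : 0 < N)
    (hNV : N < aF κ * ((∏ i : Fin n, (β i) ^ (κ ^ 2 / q i) /
        Real.Gamma (κ ^ 2 / q i + 1)) *
      ((1 - ∑ i : Fin n, β i * (κ ^ 2 / q i / (κ ^ 2 / q i + 1))) ^
        (κ * j) / Real.Gamma (κ * j + 1))))
    (hSV : aF κ / Real.Gamma (κ ^ 2 + 1) < S)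
    (hKV : ∀ i, aF κ * ((β i) ^ (κ ^ 2 / q i) /
        Real.Gamma (κ ^ 2 / q i + 1)) ^ (q i) < K i)
    (x : ℝ) (hx : 0 < x) (hx2 : x < 1 / 4) :
    ∀ᶠ T : ℝ in atTop, ∀ T0 : ℝ, 0 ≤ T0 → T0 ≤ hmax x B T / 2 →
      (N / (S ^ (1 / 2 : ℝ) * ∏ i, K i ^ (1 / (2 * (q i : ℝ))))) ^ (2 * κ / (j:ℝ)) *
        ((1 - 2 * x) * (1 - 2 * x) ^ (κ ^ 2)) * (T * Real.log T ^ (κ ^ 2)) ≤
      ∫ t in T0..(T0 + T), ‖riemannZeta (1 / 2 + t * Complex.I)‖ ^ (2 * κ) := by
  have hj0 : (0:ℝ) < j := by exact_mod_cast hA.hj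
  have hq0 : ∀ i, (0:ℝ) < q i := fun i => by exact_mod_cast (by linarith [hA.hq i] : 0 < q i)
  have hS0 : 0 < S := lt_trans (div_pos (aF_pos hκ0) (Real.Gamma_pos_of_pos (by positivity))) hSV
  have hV0 : ∀ i, 0 < (β i) ^ (κ ^ 2 / q i) / Real.Gamma (κ ^ 2 / q i + 1) := fun i => by
    have h1 := hA.hβ i
    have h2 := hq0 i
    have h3 := Real.Gamma_pos_of_pos (by positivity : 0 < κ ^ 2 / q i + 1)
    positivity
  have hK0 : ∀ i, 0 < K i := fun i =>
    lt_trans (mul_pos (aF_pos hκ0) (pow_pos (hV0 i) _)) (hKV i)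
  -- exponents
  have hsumq : (j:ℝ) + ∑ i, κ / q i = κ := by
    have h := hA.hsum
    have h1 : ∑ i, κ / (q i:ℝ) = κ * ∑ i, 1 / (q i : ℝ) := by
      rw [mul_sum]
      exact sum_congr rfl fun i _ => by ring
    have h2 : ∑ i, 1 / (q i : ℝ) = 1 - (j:ℝ) / κ := by linarith
    rw [h1, h2]
    field_simp
    ring
  have hjk : (j:ℝ) / (2 * κ) + 1 / 2 + ∑ i, 1 / (2 * (q i : ℝ)) = 1 := by
    have h := hA.hsum
    have h1 : ∑ i, 1 / (2 * (q i : ℝ)) = (∑ i, 1 / (q i : ℝ)) / 2 := by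
      rw [sum_div]
      exact sum_congr rfl fun i _ => by rw [div_div, mul_comm (q i : ℝ) 2]
    rw [h1]
    have h2 : ∑ i, 1 / (q i : ℝ) = 1 - (j:ℝ) / κ := by linarith
    rw [h2]
    field_simp
    ring
  have he : ∀ i, 0 < κ / (q i : ℝ) := fun i => div_pos hκ0 (hq0 i)
  have hκe : ∀ i, κ * (κ / (q i : ℝ)) = κ ^ 2 / q i := fun i => by ring
  have hqe : ∀ i, (q i : ℝ) * (κ / (q i : ℝ)) = κ := fun i => by
    have := hq0 i
    field_simp
  have hJ0 : (0:ℝ) ≤ J := Nat.cast_nonneg J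
  have hB0 : 0 < B := by linarith
  have hEN := N_windowXL j hA.hj (fun i => κ / (q i : ℝ)) he κ hsumq.symm β hA.hβ hA.hβs hA.hm N (by
    simp only [hκe]
    exact hNV) x x B J hJ hB hx (by linarith) hx (by linarith)
  have hES := K_winL κ hκ0 1 le_rfl 1 one_pos (by norm_num) S (by
    simp only [Nat.cast_one, one_mul, Real.one_rpow, pow_one]
    rw [mul_one_div, ← pow_two]
    exact hSV) x x B J (by rw [Nat.cast_one, one_mul]; exact hJ) (by linarith) hx (by linarith) hx (by linarith)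
  have hEK : ∀ i, ∀ᶠ T : ℝ in atTop, ∀ τ : ℝ, x * T ≤ τ → τ ≤ hmax x B T →
      ∫ t in (τ - x / 2 * T)..(τ + x / 2 * T),
        ‖Dp (tr (dA (κ / (q i : ℝ))) (Yt x T ^ β i)) (Yt x T ^ β i) (1 / 2 + t * Complex.I)‖ ^ (2 * q i) *
          gv (x / 4 * T) B τ (Ht x T) t ≤ K i * Real.log (Yt x T) ^ (κ ^ 2) := by
    intro i
    have h := K_winL (κ / (q i : ℝ)) (he i) (q i) (by linarith [hA.hq i]) (β i) (hA.hβ i) (by
      have := hA.hβq i
      rwa [le_div_iff₀ (hq0 i)] at this) (K i) (by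
      rw [hqe, hκe]
      exact hKV i) x x B J (by rw [hqe]; exact hJ) (by linarith) hx (by linarith) hx (by linarith)
    rw [hqe] at h
    exact h
  have hEK' := eventually_all.mpr hEK
  filter_upwards [hEN, hES, hEK', eventually_gt_atTop 1, (Yt_tendsto (η := x) (by linarith)).eventually_gt_atTop 0,
      evhmax x B hx hB0] with T hT1 hT2 hT3 hT4 hT5 hT6 T0 hT00 hT0N
  have hT0 : 0 < T := by linarith
  have hH0 : 0 < Ht x T := Real.rpow_pos_of_pos hT0 _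
  set Λ := Real.log (Yt x T) ^ (κ ^ 2) with hΛ
  have hΛ0 : 0 < Λ := Real.rpow_pos_of_pos hT5 _
  set D := (N / (S ^ (1 / 2 : ℝ) * ∏ i, K i ^ (1 / (2 * (q i : ℝ))))) ^ (2 * κ / (j:ℝ)) with hD
  have hD0 : 0 ≤ D := by
    have : 0 < S ^ (1 / 2 : ℝ) * ∏ i, K i ^ (1 / (2 * (q i : ℝ))) :=
      mul_pos (by positivity) (prod_pos fun i _ => Real.rpow_pos_of_pos (hK0 i) _)
    positivity
  have hwin0 : ∀ τ ∈ Set.Icc (x * T) ((1 - x) * T), D * Λ ≤
      ∫ t in ((T0 + τ) - x / 2 * T)..((T0 + τ) + x / 2 * T),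
        ‖riemannZeta (1 / 2 + t * Complex.I)‖ ^ (2 * κ) * gv (x / 4 * T) B (T0 + τ) (Ht x T) t := by
    intro τ hτ
    have hτ1 : x * T ≤ T0 + τ := by linarith [hτ.1]
    have hτ2 : T0 + τ ≤ hmax x B T := by
      have e1 := hτ.2
      have e2 : (1 - x) * T ≤ T := by nlinarith
      linarith
    have h := window_holder_real n q (fun i => by linarith [hA.hq i]) j (2 * κ) hA.hj (by positivity) hjk
      (fun t => riemannZeta (1 / 2 + t * Complex.I))
      (fun t => Dp (dA κ) (Yt x T) (1 / 2 + t * Complex.I))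
      (fun i t => Dp (tr (dA (κ / (q i : ℝ))) (Yt x T ^ β i)) (Yt x T ^ β i) (1 / 2 + t * Complex.I))
      zeta_line_continuous (Dp_line_continuous _ _) (fun i => Dp_line_continuous _ _)
      (gv (x / 4 * T) B (T0 + τ) (Ht x T)) (gv_continuous _ _ _ _) (fun t => gv_nonneg _ _ _ _ _ hH0)
      ((T0 + τ) - x / 2 * T) ((T0 + τ) + x / 2 * T) (by nlinarith) (N * Λ) (S * Λ) (fun i => K i * Λ)
      (by positivity) (by positivity) (fun i => mul_pos (hK0 i) hΛ0)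
      (hT1 (T0 + τ) hτ1 hτ2)
      (by
        have := hT2 (T0 + τ) hτ1 hτ2
        simp only [Real.rpow_one, Nat.cast_one, one_mul, mul_one, Dp_trunc] at this
        exact this)
      (fun i => hT3 i (T0 + τ) hτ1 hτ2)
    rw [pullR q j (2 * κ) hA.hj (by positivity) hjk N S K Λ hN hS0 hK0 hΛ0] at h
    exact h
  have hwin : ∀ τ ∈ Set.Icc (x * T) ((1 - x) * T), D * Λ ≤
      ∫ t in (τ - x / 2 * T)..(τ + x / 2 * T),
        ‖riemannZeta (1 / 2 + ((T0 + t : ℝ) : ℂ) * Complex.I)‖ ^ (2 * κ) * gv (x / 4 * T) B τ (Ht x T) t := by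
    intro τ hτ
    refine (hwin0 τ hτ).trans (le_of_eq ?_)
    have e1 := intervalIntegral.integral_comp_add_left (a := τ - x / 2 * T) (b := τ + x / 2 * T)
      (fun s : ℝ => ‖riemannZeta (1 / 2 + s * Complex.I)‖ ^ (2 * κ) * gv (x / 4 * T) B (T0 + τ) (Ht x T) s) T0
    rw [show T0 + (τ - x / 2 * T) = (T0 + τ) - x / 2 * T by ring,
      show T0 + (τ + x / 2 * T) = (T0 + τ) + x / 2 * T by ring] at e1
    rw [← e1]
    refine intervalIntegral.integral_congr fun t _ => ?_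
    show _ * gv (x / 4 * T) B (T0 + τ) (Ht x T) (T0 + t) = _
    rw [gv_shift]
  have hfin := window_sum
    (fun t => ‖riemannZeta (1 / 2 + ((T0 + t : ℝ) : ℂ) * Complex.I)‖ ^ (2 * κ))
    ((zeta_line_continuous.comp (continuous_const.add continuous_id)).norm.rpow_const
      fun _ => Or.inr (by positivity)) (fun t => by positivity)
    (fun τ t => gv (x / 4 * T) B τ (Ht x T) t) (gv_cont2 _ _ _) (fun τ t => gv_nonneg _ _ _ _ _ hH0)
    (fun t => gv_lint _ _ _ _ hH0)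
    T (x * T) ((1 - x) * T) (x / 2 * T) (D * Λ) (by nlinarith) (by positivity) (by nlinarith)
    (by nlinarith) (by positivity) hwin
  have hconv : (∫ t in (0:ℝ)..T,
        ‖riemannZeta (1 / 2 + ((T0 + t : ℝ) : ℂ) * Complex.I)‖ ^ (2 * κ))
      = ∫ t in T0..(T0 + T), ‖riemannZeta (1 / 2 + t * Complex.I)‖ ^ (2 * κ) := by
    have e1 := intervalIntegral.integral_comp_add_left (a := 0) (b := T)
      (fun s : ℝ => ‖riemannZeta (1 / 2 + s * Complex.I)‖ ^ (2 * κ)) T0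
    rw [add_zero] at e1
    rw [← e1]
  rw [hconv] at hfin
  refine le_trans (le_of_eq ?_) hfin
  have hlog : Real.log (Yt x T) = (1 - 2 * x) * Real.log T := by
    unfold Yt
    rw [Real.log_rpow hT0]
  rw [hΛ, hlog, Real.mul_rpow (by linarith) (Real.log_nonneg hT4.le)]
  ring

/-- **Master lower bound.** -/
theorem masterXL {n : ℕ} (κ : ℝ) (hκ0 : 0 < κ) (j : ℕ) (q : Fin n → ℕ) (β : Fin n → ℝ) (hA : AdmR κ j q β)
    (c : ℝ) (hc : c < aF κ * mB κ j q β) :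
    ∃ A : ℝ, 0 < A ∧ ∀ᶠ T : ℝ in atTop, ∀ U : ℝ, A * Real.log (Real.log T) ≤ U →
      c * (U * Real.log U ^ (κ ^ 2)) ≤
        ∫ t in T..(T + U), ‖riemannZeta (1 / 2 + t * Complex.I)‖ ^ (2 * κ) := by
  have hj0 : (0:ℝ) < j := by exact_mod_cast hA.hj
  have hq0 : ∀ i, (0:ℝ) < q i := fun i => by exact_mod_cast (by linarith [hA.hq i] : 0 < q i)
  have hjk : (j:ℝ) / (2 * κ) + 1 / 2 + ∑ i, 1 / (2 * (q i : ℝ)) = 1 := by
    have h := hA.hsum
    have h1 : ∑ i, 1 / (2 * (q i : ℝ)) = (∑ i, 1 / (q i : ℝ)) / 2 := by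
      rw [sum_div]
      exact sum_congr rfl fun i _ => by rw [div_div, mul_comm (q i : ℝ) 2]
    rw [h1]
    have h2 : ∑ i, 1 / (q i : ℝ) = 1 - (j:ℝ) / κ := by linarith
    rw [h2]
    field_simp
    ring
  set a := aF κ with ha
  have ha0 : 0 < a := aF_pos hκ0
  set V : Fin n → ℝ := fun i => (β i) ^ (κ ^ 2 / q i) / Real.Gamma (κ ^ 2 / q i + 1) with hV
  have hV0 : ∀ i, 0 < V i := fun i => by
    have h1 := hA.hβ i
    have h2 := hq0 i
    have h3 := Real.Gamma_pos_of_pos (by positivity : 0 < κ ^ 2 / q i + 1)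
    rw [hV]
    positivity
  set t := 1 - ∑ i, β i * (κ ^ 2 / q i / (κ ^ 2 / q i + 1)) with ht
  have ht0 : 0 < t := by
    rcases Nat.eq_zero_or_pos n with h0 | h0
    · subst h0
      rw [ht]; simp
    · have : ∑ i, β i * (κ ^ 2 / q i / (κ ^ 2 / q i + 1)) < ∑ i, β i := by
        have hne : (univ : Finset (Fin n)).Nonempty := ⟨⟨0, h0⟩, mem_univ _⟩
        refine sum_lt_sum_of_nonempty hne fun i _ => ?_
        have h1 := hA.hβ i
        have h2 := hq0 i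
        have h4 : 0 < κ ^ 2 / q i := by positivity
        have h3 : κ ^ 2 / q i / (κ ^ 2 / q i + 1) < 1 := by rw [div_lt_one (by linarith)]; linarith
        nlinarith
      have := hA.hβs
      linarith
  set G := Real.Gamma (κ ^ 2 + 1) with hG
  have hG0 : 0 < G := Real.Gamma_pos_of_pos (by positivity)
  set G0 := Real.Gamma (κ * j + 1) with hG0d
  have hG00 : 0 < G0 := Real.Gamma_pos_of_pos (by positivity)
  have hPV : 0 < ∏ i, V i := prod_pos fun i _ => hV0 i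
  set N0 := a * ((∏ i, V i) * (t ^ (κ * j) / G0)) with hN0d
  have hN0 : 0 < N0 := by positivity
  have hconst : (N0 / ((a / G) ^ (1 / 2 : ℝ) * ∏ i, (a * V i ^ (q i)) ^ (1 / (2 * (q i : ℝ))))) ^
      (2 * κ / (j:ℝ)) = a * mB κ j q β := by
    rw [hN0d, const_eqR q hA.hq j (2 * κ) hA.hj (by positivity) hjk a ha0 V hV0 t (κ * j) G G0 ht0 hG0 hG00,
      show 2 * κ / 2 / (j:ℝ) = κ / j by ring]
    rfl
  -- perturbation
  set f : ℝ → ℝ := fun x => (((1 - x) * N0) / (((1 + x) * (a / G)) ^ (1 / 2 : ℝ) *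
      ∏ i, ((1 + x) * (a * V i ^ (q i))) ^ (1 / (2 * (q i : ℝ))))) ^ (2 * κ / (j:ℝ)) *
        ((1 - 2 * x) * (1 - 2 * x) ^ (κ ^ 2)) with hf
  have hf0 : f 0 = a * mB κ j q β := by
    rw [hf]
    simp only [sub_zero, one_mul, add_zero, mul_zero, Real.one_rpow, mul_one]
    exact hconst
  have hlim : Tendsto f (𝓝[>] 0) (𝓝 (f 0)) := by
    have h1 : ContinuousAt f 0 := by
      rw [hf]
      have hprod : ContinuousAt (fun x : ℝ => ∏ i, ((1 + x) * (a * V i ^ (q i))) ^ (1 / (2 * (q i : ℝ)))) 0 := by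
        refine tendsto_finsetProd _ fun i _ => ?_
        have hc : ContinuousAt (fun x : ℝ => ((1 + x) * (a * V i ^ (q i))) ^ (1 / (2 * (q i : ℝ)))) 0 := by
          refine ContinuousAt.rpow_const (by fun_prop) (Or.inl ?_)
          have := hV0 i
          simp only [add_zero, one_mul]
          positivity
        exact hc
      have hD0 : ((1 + (0:ℝ)) * (a / G)) ^ (1 / 2 : ℝ) *
          ∏ i, ((1 + (0:ℝ)) * (a * V i ^ (q i))) ^ (1 / (2 * (q i : ℝ))) ≠ 0 := by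
        simp only [add_zero, one_mul]
        have h1 : 0 < ∏ i, (a * V i ^ (q i)) ^ (1 / (2 * (q i : ℝ))) :=
          prod_pos fun i _ => Real.rpow_pos_of_pos (mul_pos ha0 (pow_pos (hV0 i) _)) _
        positivity
      have hS : ContinuousAt (fun x : ℝ => ((1 + x) * (a / G)) ^ (1 / 2 : ℝ)) 0 := by
        refine ContinuousAt.rpow_const (by fun_prop) (Or.inl ?_)
        simp only [add_zero, one_mul]
        positivity
      refine ContinuousAt.mul (ContinuousAt.rpow_const (ContinuousAt.div (by fun_prop)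
        (hS.mul hprod) hD0) (Or.inl ?_)) (ContinuousAt.mul (by fun_prop)
          (ContinuousAt.rpow_const (by fun_prop) (Or.inl (by norm_num))))
      have h1 : 0 < ∏ i, (a * V i ^ (q i)) ^ (1 / (2 * (q i : ℝ))) :=
        prod_pos fun i _ => Real.rpow_pos_of_pos (mul_pos ha0 (pow_pos (hV0 i) _)) _
      simp only [sub_zero, add_zero, one_mul]
      positivity
    exact h1.tendsto.mono_left nhdsWithin_le_nhds
  rw [hf0] at hlim
  obtain ⟨x, hxc, hx0, hx4⟩ := ((hlim.eventually_const_lt hc).and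
    (Ioo_mem_nhdsGT (by norm_num : (0:ℝ) < 1 / 4))).exists
  obtain ⟨J, hJ⟩ := exists_nat_ge κ
  set B : ℝ := (j:ℝ) + J + 3 with hBd
  have hB0 : 0 < B := by positivity
  have hmain := lower_fixedXL κ hκ0 J hJ B j le_rfl q β hA ((1 - x) * N0) ((1 + x) * (a / G))
    (fun i => (1 + x) * (a * V i ^ (q i))) (mul_pos (by linarith) hN0)
    (by
      have : (1 - x) * N0 < N0 := by nlinarith
      exact this)
    (by
      have : a / G < (1 + x) * (a / G) := by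
        have : 0 < a / G := by positivity
        nlinarith
      exact this)
    (fun i => by
      have h1 : 0 < a * V i ^ (q i) := mul_pos ha0 (pow_pos (hV0 i) _)
      have : a * V i ^ (q i) < (1 + x) * (a * V i ^ (q i)) := by nlinarith
      exact this) x hx0 hx4
  obtain ⟨C, hC, hfin⟩ := final_ev (c1 := x / (16 * B)) (by positivity) hmain
  refine ⟨C, hC, ?_⟩
  filter_upwards [hfin] with T h1 U hU
  obtain ⟨hT, hU1⟩ := h1 U hU
  refine le_trans ?_ hT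
  have hlog : 0 ≤ Real.log U := Real.log_nonneg hU1
  have : 0 ≤ U * Real.log U ^ (κ ^ 2) := by positivity
  exact mul_le_mul_of_nonneg_right hxc.le this

theorem masterXLnat {n : ℕ} (k j : ℕ) (hk : 1 ≤ k) (q : Fin n → ℕ) (β : Fin n → ℝ)
    (hA : Adm k j q β) (c : ℝ) (hc : c < aF ((k:ℝ) / 2) * mB ((k:ℝ) / 2) j q β) :
    ∃ A : ℝ, 0 < A ∧ ∀ᶠ T : ℝ in atTop, ∀ U : ℝ, A * Real.log (Real.log T) ≤ U →
      c * (U * Real.log U ^ ((k:ℝ) ^ 2 / 4)) ≤
        ∫ t in T..(T + U), ‖riemannZeta (1 / 2 + t * Complex.I)‖ ^ k := by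
  have hk0 : (0:ℝ) < k := by exact_mod_cast hk
  have hAR : AdmR ((k:ℝ) / 2) j q β :=
    { hj := hA.hj
      hq := hA.hq
      hsum := by
        have h := hA.hsum
        have e : (j:ℝ) / ((k:ℝ) / 2) = 2 * (j:ℝ) / k := by
          rw [div_div_eq_mul_div, mul_comm]
        rw [e]
        exact h
      hβ := hA.hβ
      hβq := hA.hβq
      hβs := hA.hβs
      hm := hA.hm }
  obtain ⟨A, hA0, h⟩ := masterXL ((k:ℝ) / 2) (by positivity) j q β hAR c hc
  refine ⟨A, hA0, ?_⟩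
  filter_upwards [h] with T hT U hU
  have h1 := hT U hU
  rw [show ((k:ℝ) / 2) ^ 2 = (k:ℝ) ^ 2 / 4 by ring, show 2 * ((k:ℝ) / 2) = k by ring] at h1
  refine h1.trans (le_of_eq ?_)
  refine intervalIntegral.integral_congr fun t _ => ?_
  exact Real.rpow_natCast _ _

end

end Pool.Agent.K7.H50.LL
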