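import Pool.Agent.K7.H50.LL.Core
import Pool.Agent.TH535.WinX

set_option autoImplicit false
set_option linter.unusedSectionVars false

/-! The window integrals, windows centred at `τ ≤ exp (exp (c T))`. -/

namespace Pool.Agent.K7.H50.LL

open Finset Filter Topology MeasureTheory
open Pool.Agent.H306R2 hiding fr wt
open Pool.Agent.TH535
open H295MK (cl mt fr)

noncomputable section

/-- the integral as a sum of twisted integrals -/
lemma integral_eqL (j : ℕ) (i : ℝ) (v : ArithmeticFunction ℝ) (η δ B T τ XH Xt : ℝ) (hH : 0 ≤ XH)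
    (ht : 0 ≤ Xt) :
    ∫ t in (τ - δ / 2 * T)..(τ + δ / 2 * T), (riemannZeta (cl t) ^ j * Vt v Xt t) *
      (starRingEnd ℂ) (Ct j i XH Xt t) * (gv (δ / 4 * T) B τ (Ht η T) t : ℂ) =
    ∑ b ∈ SPs XH Xt, ∑ n ∈ Icc 1 ⌊Xt⌋₊, ((v n / Real.sqrt n * cc j i Xt b : ℝ) : ℂ) *
      winv η δ B T τ (fun t => riemannZeta (cl t) ^ j * fr b.2 (n * b.1) t) := by
  have hc : ∀ b : ℕ × ℕ, ∀ n : ℕ, Continuous (fun t : ℝ => ((v n / Real.sqrt n * cc j i Xt b : ℝ) : ℂ) *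
      (riemannZeta (cl t) ^ j * fr b.2 (n * b.1) t * (gv (δ / 4 * T) B τ (Ht η T) t : ℂ))) := by
    intro b n
    refine continuous_const.mul (((Continuous.pow ?_ j).mul (fr_cont _ _)).mul
      (Complex.continuous_ofReal.comp (gv_continuous _ _ _ _)))
    exact zeta_line_continuous
  unfold winv
  have e2 : ∑ b ∈ SPs XH Xt, ∑ n ∈ Icc 1 ⌊Xt⌋₊, ((v n / Real.sqrt n * cc j i Xt b : ℝ) : ℂ) *
      ∫ t in (τ - δ / 2 * T)..(τ + δ / 2 * T), riemannZeta (cl t) ^ j * fr b.2 (n * b.1) t *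
        (gv (δ / 4 * T) B τ (Ht η T) t : ℂ) =
      ∫ t in (τ - δ / 2 * T)..(τ + δ / 2 * T), ∑ b ∈ SPs XH Xt, ∑ n ∈ Icc 1 ⌊Xt⌋₊,
        ((v n / Real.sqrt n * cc j i Xt b : ℝ) : ℂ) *
        (riemannZeta (cl t) ^ j * fr b.2 (n * b.1) t * (gv (δ / 4 * T) B τ (Ht η T) t : ℂ)) := by
    rw [intervalIntegral.integral_finsetSum]
    · refine sum_congr rfl fun b _ => ?_
      rw [intervalIntegral.integral_finsetSum]
      · refine sum_congr rfl fun n _ => ?_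
        rw [intervalIntegral.integral_const_mul]
      · intro n _
        exact (hc b n).intervalIntegrable _ _
    · intro b _
      exact (continuous_finsetSum _ fun n _ => hc b n).intervalIntegrable _ _
  rw [e2]
  refine intervalIntegral.integral_congr fun t _ => ?_
  show (riemannZeta (cl t) ^ j * Vt v Xt t) *
      (starRingEnd ℂ) (Ct j i XH Xt t) * (gv (δ / 4 * T) B τ (Ht η T) t : ℂ) = _
  unfold Vt Ct
  rw [map_sum]
  have e3 : (riemannZeta (cl t) ^ j * ∑ n ∈ Icc 1 ⌊Xt⌋₊, ((v n / Real.sqrt n : ℝ) : ℂ) * fr 1 n t) *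
      (∑ b ∈ SPs XH Xt, (starRingEnd ℂ) ((cc j i Xt b : ℂ) * fr b.1 b.2 t)) * (gv (δ / 4 * T) B τ (Ht η T) t : ℂ) =
      (riemannZeta (cl t) ^ j * (gv (δ / 4 * T) B τ (Ht η T) t : ℂ)) *
        ((∑ b ∈ SPs XH Xt, (starRingEnd ℂ) ((cc j i Xt b : ℂ) * fr b.1 b.2 t)) *
        ∑ n ∈ Icc 1 ⌊Xt⌋₊, ((v n / Real.sqrt n : ℝ) : ℂ) * fr 1 n t) := by ring
  rw [e3, sum_mul_sum, mul_sum]
  refine sum_congr rfl fun b hb => ?_
  rw [mul_sum]
  refine sum_congr rfl fun n hn => ?_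
  obtain ⟨h1, _, _, _, _⟩ := mem_SPs hb hH ht
  rw [map_mul, Complex.conj_ofReal, fr_conj, ← fr_mul' n b.1 b.2 (mem_Icc.1 hn).1 h1]
  push_cast
  ring

lemma win_sumL (η δ B T τ : ℝ) (S : Finset (ℕ × ℕ)) (c : ℕ × ℕ → ℕ × ℕ → ℂ)
    (G : ℕ × ℕ → ℕ × ℕ → ℝ → ℂ) (hG : ∀ b b', Continuous (G b b')) :
    winv η δ B T τ (fun t => ∑ b ∈ S, ∑ b' ∈ S, c b b' * G b b' t) =
      ∑ b ∈ S, ∑ b' ∈ S, c b b' * winv η δ B T τ (G b b') := by
  unfold winv
  have hg : Continuous (fun t => (gv (δ / 4 * T) B τ (Ht η T) t : ℂ)) :=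
    Complex.continuous_ofReal.comp (gv_continuous _ _ _ _)
  have hcong : ∀ t, (∑ b ∈ S, ∑ b' ∈ S, c b b' * G b b' t) * (gv (δ / 4 * T) B τ (Ht η T) t : ℂ) =
      ∑ b ∈ S, ∑ b' ∈ S, c b b' * (G b b' t * (gv (δ / 4 * T) B τ (Ht η T) t : ℂ)) := by
    intro t
    rw [sum_mul]
    refine sum_congr rfl fun b _ => ?_
    rw [sum_mul]
    refine sum_congr rfl fun b' _ => ?_
    ring
  simp_rw [hcong]
  rw [intervalIntegral.integral_finsetSum]
  · refine sum_congr rfl fun b _ => ?_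
    rw [intervalIntegral.integral_finsetSum]
    · refine sum_congr rfl fun b' _ => ?_
      rw [intervalIntegral.integral_const_mul]
    · intro b' _
      exact (continuous_const.mul ((hG b b').mul hg)).intervalIntegrable _ _
  · intro b _
    exact (continuous_finsetSum _ fun b' _ =>
      continuous_const.mul ((hG b b').mul hg)).intervalIntegrable _ _

/-- the correlation over a window -/
theorem winNL (j : ℕ) {n : ℕ} (e : Fin n → ℝ) (he : ∀ a, 0 < e a) (η δ B : ℝ) (hB : (j:ℝ) + 3 ≤ B) (hη : 0 < η)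
    (hη2 : η < 1 / 2) (hδ : 0 < δ) (hδ1 : δ ≤ 1) :
    ∀ᶠ T : ℝ in atTop, ∀ τ : ℝ, δ * T ≤ τ → τ ≤ hmax δ B T → ∀ (XH Xt : ℝ) (X : Fin n → ℝ),
      1 ≤ XH → 1 ≤ Xt → XH * Xt ≤ Yt η T → (∀ a, 1 ≤ X a) → ∏ a, X a ≤ Xt →
      CR j (ei e) (PA e X) XH Xt - 1 ≤
      ‖∫ t in (τ - δ / 2 * T)..(τ + δ / 2 * T), (riemannZeta (1 / 2 + t * Complex.I) ^ j *
          ∏ a, (starRingEnd ℂ) (Dp (tr (dA (e a)) (X a)) (X a) (1 / 2 + t * Complex.I))) *
        (starRingEnd ℂ) (Ct j (ei e) XH Xt t) * (gv (δ / 4 * T) B τ (Ht η T) t : ℂ)‖ := by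
  have hi0 := ei_nonneg he
  obtain ⟨J, hJ⟩ := exists_nat_ge (ei e)
  filter_upwards [twZL j (j + 2 * J + 3) η δ B hB hη hη2 hδ hδ1, eventually_ge_atTop 1]
    with T hT hT1 τ hτ1 hτ2 XH Xt X hH ht hHt hX1 hX
  have hT0 : 0 < T := by linarith
  have hYT : Yt η T ≤ T := Yt_le hη hT1
  have hHtT : XH * Xt ≤ T := hHt.trans hYT
  have hXT : Xt ≤ T := by nlinarith
  have hfl : ((⌊Xt⌋₊ : ℕ) : ℝ) ≤ Xt := Nat.floor_le (by linarith)
  set v : ArithmeticFunction ℝ := PA e X with hv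
  have hD := fun s => Dp_prod univ (fun i => tr (dA (e i)) (X i)) X hX1 (fun i n hn => tr_supp _ _ n hn) s
  have hsupp : ∀ m : ℕ, Xt < m → v m = 0 := fun m hm => (hD 0).1 m (lt_of_le_of_lt hX hm)
  have hPB : PB v J := PA_PB (fun i => (he i).le) _ hJ
  have hVt : ∀ t : ℝ, Vt v Xt t =
      ∏ a, (starRingEnd ℂ) (Dp (tr (dA (e a)) (X a)) (X a) (1 / 2 + t * Complex.I)) := by
    intro t
    rw [Vt_eq, Dp_mono v (∏ a, X a) Xt hX (hD 0).1, ← map_prod]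
    congr 1
    exact (hD _).2
  simp only [← hVt]
  have hint := integral_eqL j (ei e) v η δ B T τ XH Xt (by linarith) (by linarith)
  have hcl : ∀ t : ℝ, (1 / 2 + t * Complex.I : ℂ) = cl t := fun t => rfl
  simp only [hcl]
  rw [hint]
  set S : ℂ := ∑ b ∈ SPs XH Xt, ∑ n ∈ Icc 1 ⌊Xt⌋₊, ((v n / Real.sqrt n * cc j (ei e) Xt b : ℝ) : ℂ) *
      winv η δ B T τ (fun t => riemannZeta (cl t) ^ j * fr b.2 (n * b.1) t) with hS
  have hE : ((CR j (ei e) v XH Xt : ℝ) : ℂ) = ∑ b ∈ SPs XH Xt, ∑ n ∈ Icc 1 ⌊Xt⌋₊,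
      ((v n / Real.sqrt n * cc j (ei e) Xt b : ℝ) : ℂ) * (mt j b.2 (n * b.1) : ℂ) := by
    rw [← CR_main j (ei e) v XH Xt (by linarith) (by linarith) hsupp]
    push_cast
    rfl
  have hvn : ∀ n : ℕ, 1 ≤ n → (n : ℝ) ≤ T → |v n / Real.sqrt n| ≤ T ^ J := by
    intro n h1 hn
    rw [abs_div, abs_of_nonneg (Real.sqrt_nonneg _)]
    have hs : 1 ≤ Real.sqrt n := Real.one_le_sqrt.2 (by exact_mod_cast h1)
    exact (div_le_self (abs_nonneg _) hs).trans ((hPB n).trans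
      (pow_le_pow_left₀ (Nat.cast_nonneg n) hn J))
  have hdiff : ‖S - ((CR j (ei e) v XH Xt : ℝ) : ℂ)‖ ≤ 1 := by
    rw [hE, hS, ← sum_sub_distrib]
    have hb1 : ∀ b ∈ SPs XH Xt, ‖∑ n ∈ Icc 1 ⌊Xt⌋₊, ((v n / Real.sqrt n * cc j (ei e) Xt b : ℝ) : ℂ) *
        winv η δ B T τ (fun t => riemannZeta (cl t) ^ j * fr b.2 (n * b.1) t) -
        ∑ n ∈ Icc 1 ⌊Xt⌋₊, ((v n / Real.sqrt n * cc j (ei e) Xt b : ℝ) : ℂ) * (mt j b.2 (n * b.1) : ℂ)‖ ≤
        T * (T ^ J * T ^ (j + J + 1) * (1 / T ^ (j + 2 * J + 3))) := by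
      intro b hb
      obtain ⟨h1, h2, h3, h4, h5⟩ := mem_SPs hb (by linarith) (by linarith)
      obtain ⟨c1, c2⟩ := cc_bd j hi0 hJ XH Xt hH ht hHtT b hb
      rw [← sum_sub_distrib]
      refine (norm_sum_le _ _).trans ?_
      refine (sum_le_card_nsmul _ _ (T ^ J * T ^ (j + J + 1) * (1 / T ^ (j + 2 * J + 3)))
        fun n hn => ?_).trans ?_
      · rw [mem_Icc] at hn
        have hnX : (n : ℝ) ≤ Xt := le_trans (by exact_mod_cast hn.2) hfl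
        rw [← mul_sub, norm_mul, Complex.norm_real, Real.norm_eq_abs, abs_mul]
        refine mul_le_mul (mul_le_mul (hvn n hn.1 (hnX.trans hXT))
          (by rw [abs_of_nonneg c1]; exact c2) (abs_nonneg _) (by positivity)) ?_
          (norm_nonneg _) (by positivity)
        refine hT τ hτ1 hτ2 b.2 (n * b.1) h3 (h4.trans hXT)
          (Nat.one_le_iff_ne_zero.2 (Nat.mul_ne_zero (by omega) (by omega))) ?_
        push_cast
        refine le_trans (mul_le_mul hnX h2 (by positivity) (by linarith)) ?_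
        rw [mul_comm]
        exact hHt
      · rw [nsmul_eq_mul, Nat.card_Icc, Nat.add_sub_cancel]
        exact mul_le_mul_of_nonneg_right (hfl.trans hXT) (by positivity)
    refine (norm_sum_le _ _).trans ((sum_le_card_nsmul _ _ _ hb1).trans ?_)
    rw [nsmul_eq_mul]
    calc _ ≤ T * (T * (T ^ J * T ^ (j + J + 1) * (1 / T ^ (j + 2 * J + 3)))) :=
          mul_le_mul_of_nonneg_right (card_SPs XH Xt T hH ht hHtT) (by positivity)
      _ = T ^ (j + 2 * J + 3) * (1 / T ^ (j + 2 * J + 3)) := by ring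
      _ = 1 := mul_one_div_cancel (by positivity)
      _ ≤ 1 := le_rfl
  have h1 : CR j (ei e) v XH Xt ≤ ‖((CR j (ei e) v XH Xt : ℝ) : ℂ)‖ := by
    rw [Complex.norm_real]
    exact le_abs_self _
  have h2 : ‖((CR j (ei e) v XH Xt : ℝ) : ℂ)‖ ≤ ‖S‖ + ‖S - ((CR j (ei e) v XH Xt : ℝ) : ℂ)‖ := by
    have := norm_sub_le S (S - ((CR j (ei e) v XH Xt : ℝ) : ℂ))
    rwa [sub_sub_cancel] at this
  linarith

theorem winCL (j : ℕ) {i : ℝ} (hi : 0 ≤ i) (η δ B : ℝ) (hB : 3 ≤ B) (hη : 0 < η)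
    (hη2 : η < 1 / 2) (hδ : 0 < δ) (hδ1 : δ ≤ 1) :
    ∀ᶠ T : ℝ in atTop, ∀ τ : ℝ, δ * T ≤ τ → τ ≤ hmax δ B T → ∀ (XH Xt : ℝ),
      1 ≤ XH → 1 ≤ Xt → XH * Xt ≤ Yt η T →
      ∫ t in (τ - δ / 2 * T)..(τ + δ / 2 * T), ‖Ct j i XH Xt t‖ ^ 2 * gv (δ / 4 * T) B τ (Ht η T) t ≤
        ES j i XH Xt + 1 := by
  obtain ⟨J, hJ⟩ := exists_nat_ge i
  set Bn : ℕ := (j + J + 1) + (j + J + 1) with hBn
  filter_upwards [twOL (Bn + 2) η δ B hB hη hη2 hδ hδ1, eventually_ge_atTop 1]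
    with T hT hT1 τ hτ1 hτ2 XH Xt hH ht hHt
  have hT0 : 0 < T := by linarith
  have hYT : Yt η T ≤ T := Yt_le hη hT1
  have hHtT : XH * Xt ≤ T := hHt.trans hYT
  have hcast : ((winvR η δ B T τ (fun t => ‖Ct j i XH Xt t‖ ^ 2) : ℝ) : ℂ) =
      ∑ b ∈ SPs XH Xt, ∑ b' ∈ SPs XH Xt, ((cc j i Xt b * cc j i Xt b' : ℝ) : ℂ) *
        winv η δ B T τ (fun t => fr (b.1 * b'.2) (b.2 * b'.1) t) := by
    rw [← win_sumL η δ B T τ (SPs XH Xt) (fun b b' => ((cc j i Xt b * cc j i Xt b' : ℝ) : ℂ))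
      (fun b b' => fr (b.1 * b'.2) (b.2 * b'.1)) (fun b b' => fr_cont _ _)]
    unfold winvR winv
    rw [← intervalIntegral.integral_ofReal]
    apply intervalIntegral.integral_congr
    intro t _
    simp only
    rw [Complex.ofReal_mul, normsq j i XH Xt (by linarith) (by linarith)]
  have hEE : ((ES j i XH Xt : ℝ) : ℂ) = ∑ b ∈ SPs XH Xt, ∑ b' ∈ SPs XH Xt,
      ((cc j i Xt b * cc j i Xt b' : ℝ) : ℂ) *
      (if b.1 * b'.2 = b.2 * b'.1 then 1 else 0 : ℂ) := by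
    unfold ES
    rw [Complex.ofReal_sum]
    refine sum_congr rfl fun b hb => ?_
    obtain ⟨p1, _, p2, _, p5⟩ := mem_SPs hb (by linarith) (by linarith)
    rw [sum_eq_single b]
    · rw [if_pos (mul_comm _ _)]
      push_cast
      ring
    · intro b' hb' hne
      obtain ⟨q1, _, q2, _, q5⟩ := mem_SPs hb' (by linarith) (by linarith)
      rw [if_neg, mul_zero]
      intro heq
      exact hne (Pool.Agent.H578R2.MKR4.cop p1 p5 q5 heq).symm
    · intro hb'; exact absurd hb hb'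
  have hdiff : ‖((winvR η δ B T τ (fun t => ‖Ct j i XH Xt t‖ ^ 2) - ES j i XH Xt : ℝ) : ℂ)‖ ≤ 1 := by
    rw [Complex.ofReal_sub, hcast, hEE, ← sum_sub_distrib]
    refine (norm_sum_le _ _).trans ?_
    have hb : ∀ b ∈ SPs XH Xt, ‖∑ b' ∈ SPs XH Xt, ((cc j i Xt b * cc j i Xt b' : ℝ) : ℂ) *
        winv η δ B T τ (fun t => fr (b.1 * b'.2) (b.2 * b'.1) t) -
        ∑ b' ∈ SPs XH Xt, ((cc j i Xt b * cc j i Xt b' : ℝ) : ℂ) *
        (if b.1 * b'.2 = b.2 * b'.1 then 1 else 0 : ℂ)‖ ≤ T * (T ^ Bn / T ^ (Bn + 2)) := by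
      intro b hb
      rw [← sum_sub_distrib]
      refine (norm_sum_le _ _).trans ?_
      calc _ ≤ ∑ b' ∈ SPs XH Xt, T ^ Bn / T ^ (Bn + 2) := by
            refine sum_le_sum fun b' hb' => ?_
            rw [← mul_sub, norm_mul, Complex.norm_real, Real.norm_eq_abs]
            obtain ⟨p1, p3, p2, p4, _⟩ := mem_SPs hb (by linarith) (by linarith)
            obtain ⟨q1, q3, q2, q4, _⟩ := mem_SPs hb' (by linarith) (by linarith)
            obtain ⟨c1, c2⟩ := cc_bd j hi hJ XH Xt hH ht hHtT b hb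
            obtain ⟨d1, d2⟩ := cc_bd j hi hJ XH Xt hH ht hHtT b' hb'
            have hab : ((b.1 * b'.2 : ℕ) : ℝ) ≤ XH * Xt := by
              push_cast
              exact mul_le_mul p3 q4 (Nat.cast_nonneg _) (by linarith)
            have hba : ((b.2 * b'.1 : ℕ) : ℝ) ≤ XH * Xt := by
              push_cast
              rw [mul_comm]
              exact mul_le_mul q3 p4 (Nat.cast_nonneg _) (by linarith)
            have hw := hT τ hτ1 hτ2 (b.1 * b'.2) (b.2 * b'.1) (Nat.mul_pos p1 q2)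
              (hab.trans hHtT) (Nat.mul_pos p2 q1) (hba.trans hHt)
            rw [abs_of_nonneg (mul_nonneg c1 d1), div_eq_mul_one_div]
            apply mul_le_mul _ hw (norm_nonneg _) (by positivity)
            calc cc j i Xt b * cc j i Xt b' ≤ T ^ (j + J + 1) * T ^ (j + J + 1) :=
                  mul_le_mul c2 d2 d1 (by positivity)
              _ = T ^ Bn := by rw [← pow_add]
        _ = (SPs XH Xt).card * (T ^ Bn / T ^ (Bn + 2)) := by rw [sum_const, nsmul_eq_mul]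
        _ ≤ _ := mul_le_mul_of_nonneg_right (card_SPs XH Xt T hH ht hHtT) (by positivity)
    calc _ ≤ ∑ b ∈ SPs XH Xt, T * (T ^ Bn / T ^ (Bn + 2)) := sum_le_sum hb
      _ = (SPs XH Xt).card * (T * (T ^ Bn / T ^ (Bn + 2))) := by
          rw [sum_const, nsmul_eq_mul]
      _ ≤ T * (T * (T ^ Bn / T ^ (Bn + 2))) :=
          mul_le_mul_of_nonneg_right (card_SPs XH Xt T hH ht hHtT) (by positivity)
      _ = 1 := by
          have hp : T ^ Bn ≠ 0 := by positivity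
          have hp2 : T ^ (Bn + 2) = T ^ Bn * T * T := by ring
          rw [hp2]
          clear_value Bn
          field_simp
  rw [Complex.norm_real, Real.norm_eq_abs] at hdiff
  have h3 := (abs_le.1 hdiff).2
  have h4 : winvR η δ B T τ (fun t => ‖Ct j i XH Xt t‖ ^ 2) =
    ∫ t in (τ - δ / 2 * T)..(τ + δ / 2 * T), ‖Ct j i XH Xt t‖ ^ 2 * gv (δ / 4 * T) B τ (Ht η T) t := rfl
  rw [← h4]
  linarith

/-- asymptotic form of the correlation bound -/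
theorem N_winL {n : ℕ} {j : ℕ} (hj : 1 ≤ j) (e : Fin n → ℝ) (he : ∀ a, 0 < e a) (hn : 0 < n)
    (α : ℝ) (hα : 0 < α) (β : Fin n → ℝ) (hβ : ∀ a, 0 < β a) (hαβ : α + ∑ a, β a ≤ 1) (c : ℝ)
    (hc : c < aF (j + ei e) * VL j e α β) (η δ B : ℝ) (hB : (j:ℝ) + 3 ≤ B) (hη : 0 < η)
    (hη2 : η < 1 / 2) (hδ : 0 < δ) (hδ1 : δ ≤ 1) :
    ∀ᶠ T : ℝ in atTop, ∀ τ : ℝ, δ * T ≤ τ → τ ≤ hmax δ B T →
      c * Real.log (Yt η T) ^ (((j : ℝ) + ei e) ^ 2) ≤
      ‖∫ t in (τ - δ / 2 * T)..(τ + δ / 2 * T), (riemannZeta (1 / 2 + t * Complex.I) ^ j *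
          ∏ a, (starRingEnd ℂ) (Dp (tr (dA (e a)) (Yt η T ^ β a)) (Yt η T ^ β a) (1 / 2 + t * Complex.I))) *
        (starRingEnd ℂ) (Ct j (ei e) (Yt η T ^ α) (Yt η T ^ (∑ a, β a)) t) * (gv (δ / 4 * T) B τ (Ht η T) t : ℂ)‖ := by
  obtain ⟨c', hc1, hc2⟩ := exists_between hc
  have hj0 : (0 : ℝ) < j := by exact_mod_cast hj
  have hi0 := ei_nonneg he
  have hL := (Yt_tendsto (η := η) hη2).eventually (CR_lower hj e he hn α hα β hβ c' hc2)
  have hbig : ∀ᶠ T : ℝ in atTop, 1 ≤ (c' - c) * Real.log (Yt η T) ^ (((j : ℝ) + ei e) ^ 2) := by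
    have h1 : Tendsto (fun T : ℝ => (c' - c) * Real.log (Yt η T) ^ (((j : ℝ) + ei e) ^ 2)) atTop atTop :=
      Tendsto.const_mul_atTop (by linarith)
        ((tendsto_rpow_atTop (by positivity)).comp (Yt_tendsto hη2))
    exact h1.eventually_ge_atTop 1
  filter_upwards [hL, hbig, winNL j e he η δ B hB hη hη2 hδ hδ1, eventually_ge_atTop 1] with T h1 h2 h3 hT1 τ hτ1 hτ2
  have hY1 : 1 ≤ Yt η T := one_le_Yt hη2 hT1
  have hY0 : 0 < Yt η T := by linarith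
  have e1 : ∀ a : ℝ, Real.exp (a * Real.log (Yt η T)) = Yt η T ^ a := fun a => by
    rw [Real.rpow_def_of_pos hY0, mul_comm]
  simp only [e1] at h1
  have hS0 : 0 ≤ ∑ a, β a := sum_nonneg fun a _ => (hβ a).le
  have h4 := h3 τ hτ1 hτ2 (Yt η T ^ α) (Yt η T ^ (∑ a, β a)) (fun a => Yt η T ^ β a)
    (Real.one_le_rpow hY1 hα.le) (Real.one_le_rpow hY1 hS0)
    (by
      rw [← Real.rpow_add hY0]
      calc Yt η T ^ (α + ∑ a, β a) ≤ Yt η T ^ (1 : ℝ) := Real.rpow_le_rpow_of_exponent_le hY1 hαβ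
        _ = Yt η T := Real.rpow_one _)
    (fun a => Real.one_le_rpow hY1 (hβ a).le)
    (by rw [← Real.rpow_sum_of_pos hY0])
  linarith

/-- asymptotic form of the norm bound -/
theorem C_winL {j : ℕ} (hj : 1 ≤ j) {i : ℝ} (hi : 0 < i)
    (α : ℝ) (hα : 0 < α) (θ : ℝ) (hθ : 0 < θ) (hαθ : α + θ ≤ 1) (c : ℝ)
    (hc : aF (j + i) * Vn j i α θ < c) (η δ B : ℝ) (hB : 3 ≤ B) (hη : 0 < η)
    (hη2 : η < 1 / 2) (hδ : 0 < δ) (hδ1 : δ ≤ 1) :
    ∀ᶠ T : ℝ in atTop, ∀ τ : ℝ, δ * T ≤ τ → τ ≤ hmax δ B T →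
      ∫ t in (τ - δ / 2 * T)..(τ + δ / 2 * T), ‖Ct j i (Yt η T ^ α) (Yt η T ^ θ) t‖ ^ 2 *
        gv (δ / 4 * T) B τ (Ht η T) t ≤ c * Real.log (Yt η T) ^ (((j : ℝ) + i) ^ 2) := by
  obtain ⟨c', hc1, hc2⟩ := exists_between hc
  have hj0 : (0 : ℝ) < j := by exact_mod_cast hj
  have hL := (Yt_tendsto (η := η) hη2).eventually (CR_upper hj hi α hα θ hθ c' hc1)
  have hbig : ∀ᶠ T : ℝ in atTop, 1 ≤ (c - c') * Real.log (Yt η T) ^ (((j : ℝ) + i) ^ 2) := by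
    have h1 : Tendsto (fun T : ℝ => (c - c') * Real.log (Yt η T) ^ (((j : ℝ) + i) ^ 2)) atTop atTop :=
      Tendsto.const_mul_atTop (by linarith)
        ((tendsto_rpow_atTop (by positivity)).comp (Yt_tendsto hη2))
    exact h1.eventually_ge_atTop 1
  filter_upwards [hL, hbig, winCL j hi.le η δ B hB hη hη2 hδ hδ1, eventually_ge_atTop 1] with T h1 h2 h3 hT1 τ hτ1 hτ2
  have hY1 : 1 ≤ Yt η T := one_le_Yt hη2 hT1
  have hY0 : 0 < Yt η T := by linarith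
  have e1 : ∀ a : ℝ, Real.exp (a * Real.log (Yt η T)) = Yt η T ^ a := fun a => by
    rw [Real.rpow_def_of_pos hY0, mul_comm]
  simp only [e1] at h1
  rw [← ES_eq] at h1
  have h4 := h3 τ hτ1 hτ2 (Yt η T ^ α) (Yt η T ^ θ)
    (Real.one_le_rpow hY1 hα.le) (Real.one_le_rpow hY1 hθ.le)
    (by
      rw [← Real.rpow_add hY0]
      calc Yt η T ^ (α + θ) ≤ Yt η T ^ (1 : ℝ) := Real.rpow_le_rpow_of_exponent_le hY1 hαθ
        _ = Yt η T := Real.rpow_one _)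
  linarith


/-- the window integrals of the auxiliary polynomials -/
theorem K_winL (e : ℝ) (he : 0 < e) (q : ℕ) (hq : 1 ≤ q) (β : ℝ) (hβ : 0 < β)
    (hβq : β * q ≤ 1) (C : ℝ)
    (hC : aF (q * e) * (β ^ ((q * e) * e) / Real.Gamma ((q * e) * e + 1)) ^ q < C)
    (η δ B : ℝ) (J : ℕ) (hJ : (q:ℝ) * e ≤ J) (hB : (J:ℝ) + 3 ≤ B)
    (hη : 0 < η) (hη2 : η < 1 / 2) (hδ : 0 < δ) (hδ1 : δ ≤ 1) :
    ∀ᶠ T : ℝ in atTop, ∀ τ : ℝ, δ * T ≤ τ → τ ≤ hmax δ B T →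
      ∫ t in (τ - δ / 2 * T)..(τ + δ / 2 * T),
        ‖Dp (tr (dA e) (Yt η T ^ β)) (Yt η T ^ β) (1 / 2 + t * Complex.I)‖ ^ (2 * q) * gv (δ / 4 * T) B τ (Ht η T) t ≤
        C * Real.log (Yt η T) ^ ((q * e) ^ 2) := by
  obtain ⟨C', hC1, hC2⟩ := exists_between hC
  have hκ0 : 0 < (q:ℝ) * e := by
    have : (0:ℝ) < q := by exact_mod_cast hq
    positivity
  have hK := K_sum e he q hq β hβ C' hC1 η hη2
  have hcore := core_evL 0 0 J η δ B (by push_cast; linarith) hη hη2 hδ hδ1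
  have hbig : ∀ᶠ T : ℝ in atTop, 1 ≤ (C - C') * Real.log (Yt η T) ^ (((q:ℝ) * e) ^ 2) := by
    have h1 : Tendsto (fun T : ℝ => (C - C') * Real.log (Yt η T) ^ (((q:ℝ) * e) ^ 2)) atTop atTop :=
      Tendsto.const_mul_atTop (by linarith)
        ((tendsto_rpow_atTop (by positivity)).comp (Yt_tendsto hη2))
    exact h1.eventually_ge_atTop 1
  filter_upwards [hK, hcore, hbig, eventually_ge_atTop 1] with T hT1 hT2 hT3 hT4 τ hτ1 hτ2
  have hT0 : 0 < T := by linarith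
  set Y := Yt η T with hYdef
  have hY1 : 1 ≤ Y := one_le_Yt hη2 hT4
  have hYT : Y ≤ T := Yt_le hη hT4
  set X := Y ^ β with hX
  have hX1 : 1 ≤ X := Real.one_le_rpow hY1 hβ.le
  have hXq : X ^ q ≤ Y := by
    rw [hX, ← Real.rpow_natCast, ← Real.rpow_mul (by linarith)]
    calc Y ^ (β * q) ≤ Y ^ (1:ℝ) := Real.rpow_le_rpow_of_exponent_le hY1 hβq
      _ = Y := Real.rpow_one Y
  set Bf := tr (dA e) X with hBf
  have hD := fun s => Dp_pow Bf X hX1 (fun n hn => tr_supp _ _ n hn) s q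
  have hPB : PB (Bf ^ q) J := by
    intro m
    have h0 := tr_pow_nonneg he.le X q m
    have h1 := tr_pow_le he.le X q m
    rw [abs_of_nonneg h0]
    refine h1.trans ((le_abs_self _).trans ?_)
    exact PB_dA hκ0.le hJ m
  have h := hT2 τ hτ1 hτ2 (Bf ^ q) (Bf ^ q) hPB (fun n hn => (hD 0).1 n (by linarith)) hPB
  have hDT : ∀ s, Dp (Bf ^ q : ArithmeticFunction ℝ) T s = Dp Bf X s ^ q := by
    intro s
    rw [Dp_mono (Bf ^ q) (X ^ q) T (by linarith) (hD s).1]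
    exact (hD s).2
  have hDY : ∀ s, Dp (Bf ^ q : ArithmeticFunction ℝ) Y s = Dp Bf X s ^ q := by
    intro s
    rw [Dp_mono (Bf ^ q) (X ^ q) Y hXq (hD s).1]
    exact (hD s).2
  simp only [hDT, hDY, pow_zero, one_mul, div_one] at h
  have hint : ∀ t : ℝ, Dp Bf X (1 / 2 + t * Complex.I) ^ q *
      (starRingEnd ℂ) (Dp Bf X (1 / 2 + t * Complex.I) ^ q) * (gv (δ / 4 * T) B τ (Ht η T) t : ℂ) =
      ((‖Dp Bf X (1 / 2 + t * Complex.I)‖ ^ (2 * q) * gv (δ / 4 * T) B τ (Ht η T) t : ℝ) : ℂ) := by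
    intro t
    rw [Complex.mul_conj, Complex.normSq_eq_norm_sq, norm_pow, ← pow_mul, mul_comm q 2]
    push_cast
    ring
  simp only [hint] at h
  rw [intervalIntegral.integral_ofReal, ← Complex.ofReal_sub, Complex.norm_real] at h
  have h3 := (Real.le_norm_self _).trans h
  linarith



end

end Pool.Agent.K7.H50.LL
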